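import Mathlib

/-! Definitions for the Swiss cheese problem. -/

namespace Pool.Agent.Helper56.Swiss

open Metric Set TopologicalSpace

/-- `f` is given on `X` by a quotient `P / Q` of two polynomials, `Q` without zeros on `X`. -/
def IsRat (X : Compacts ℂ) (f : C(X, ℂ)) : Prop :=
  ∃ P Q : Polynomial ℂ, (∀ z ∈ X, Q.eval z ≠ 0) ∧ ∀ z : X, f z = P.eval (z : ℂ) / Q.eval (z : ℂ)

lemma IsRat.mul {X : Compacts ℂ} {f g : C(X, ℂ)} (hf : IsRat X f) (hg : IsRat X g) : IsRat X (f * g) := by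
  obtain ⟨P, Q, hQ, hf⟩ := hf
  obtain ⟨P', Q', hQ', hg⟩ := hg
  refine ⟨P * P', Q * Q', fun z hz => ?_, fun z => ?_⟩
  · rw [Polynomial.eval_mul]
    exact mul_ne_zero (hQ z hz) (hQ' z hz)
  · rw [ContinuousMap.mul_apply, hf z, hg z, Polynomial.eval_mul, Polynomial.eval_mul,
      div_mul_div_comm]

lemma IsRat.add {X : Compacts ℂ} {f g : C(X, ℂ)} (hf : IsRat X f) (hg : IsRat X g) : IsRat X (f + g) := by
  obtain ⟨P, Q, hQ, hf⟩ := hf
  obtain ⟨P', Q', hQ', hg⟩ := hg
  refine ⟨P * Q' + Q * P', Q * Q', fun z hz => ?_, fun z => ?_⟩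
  · rw [Polynomial.eval_mul]
    exact mul_ne_zero (hQ z hz) (hQ' z hz)
  · rw [ContinuousMap.add_apply, hf z, hg z, Polynomial.eval_mul, Polynomial.eval_add,
      Polynomial.eval_mul, Polynomial.eval_mul, div_add_div _ _ (hQ z z.2) (hQ' z z.2)]

lemma IsRat.const (X : Compacts ℂ) (c : ℂ) : IsRat X (algebraMap ℂ C(X, ℂ) c) := by
  refine ⟨Polynomial.C c, 1, fun z _ => by simp, fun z => ?_⟩
  simp

/-- The algebra of the functions on `X` given by a quotient `P / Q` of two polynomials, `Q` without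
zeros on `X`. -/
def ratAlg (X : Compacts ℂ) : Subalgebra ℂ C(X, ℂ) where
  carrier := {f | IsRat X f}
  mul_mem' := IsRat.mul
  add_mem' := IsRat.add
  algebraMap_mem' := IsRat.const X

/-- `R(X)`: the closure in `C(X)` (supremum norm) of the rational functions without poles on `X`. -/
noncomputable def RAlg (X : Compacts ℂ) : Subalgebra ℂ C(X, ℂ) := (ratAlg X).topologicalClosure

/-- `x` is a peak point for `R(X)`. -/
def IsPeakPoint (X : Compacts ℂ) (x : X) : Prop :=
  ∃ f ∈ RAlg X, f x = 1 ∧ ∀ y, y ≠ x → ‖f y‖ < 1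

/-- The point evaluation at `x`, an element of the dual space of `R(X)`. -/
noncomputable def evalAt (X : Compacts ℂ) (x : X) : RAlg X →L[ℂ] ℂ where
  toFun f := (f : C(X, ℂ)) x
  map_add' _ _ := rfl
  map_smul' _ _ := rfl
  cont := (continuous_eval_const x).comp continuous_subtype_val

/-- The Gleason part of `x` for `R(X)`. -/
def gleasonPart (X : Compacts ℂ) (x : X) : Set X := {y | ‖evalAt X x - evalAt X y‖ < 2}

/-- `D` is a bounded point derivation on `R(X)` at `x`. -/
def IsPointDerivation (X : Compacts ℂ) (x : X) (D : RAlg X →L[ℂ] ℂ) : Prop :=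
  ∀ f g : RAlg X, D (f * g) = (f : C(X, ℂ)) x * D g + (g : C(X, ℂ)) x * D f

/-- A classical Swiss cheese: a closed disc minus a sequence of open discs with summable radii whose
closures are pairwise disjoint and contained in the open disc, with empty interior. -/
def IsClassicalSwissCheese (X : Set ℂ) : Prop :=
  ∃ (c : ℂ) (R : ℝ) (a : ℕ → ℂ) (r : ℕ → ℝ), 0 < R ∧ (∀ n, 0 < r n) ∧ Summable r ∧
    X = closedBall c R \ ⋃ n, ball (a n) (r n) ∧ interior X = ∅ ∧
    (∀ n, closedBall (a n) (r n) ⊆ ball c R) ∧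
    ∀ m n, m ≠ n → Disjoint (closedBall (a m) (r m)) (closedBall (a n) (r n))

end Pool.Agent.Helper56.Swiss
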