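import Mathlib

/-! Rational functions without poles on a set, and the Gleason relation. -/

namespace Pool.Agent.Helper56.Swiss

open Metric Set Filter Topology

/-- `f` is (everywhere on `ℂ`, with the convention `a/0 = 0`) given by a quotient of polynomials whose
denominator has no zero on `K`. -/
def RatOn (K : Set ℂ) (f : ℂ → ℂ) : Prop :=
  ∃ P Q : Polynomial ℂ, (∀ z ∈ K, Q.eval z ≠ 0) ∧ ∀ z, f z = P.eval z / Q.eval z

/-- `|f x - f y| ≤ c` for all rational `f` bounded by `1` on `K`. -/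
def Bd (K : Set ℂ) (x y : ℂ) (c : ℝ) : Prop :=
  ∀ f : ℂ → ℂ, RatOn K f → (∀ z ∈ K, ‖f z‖ ≤ 1) → ‖f x - f y‖ ≤ c

/-- The Gleason relation. -/
def Gl (K : Set ℂ) (x y : ℂ) : Prop := ∃ c < 2, Bd K x y c

lemma Bd.mono {K : Set ℂ} {x y : ℂ} {c d : ℝ} (h : Bd K x y c) (hcd : c ≤ d) : Bd K x y d :=
  fun f hf hb => (h f hf hb).trans hcd

lemma Bd.symm {K : Set ℂ} {x y : ℂ} {c : ℝ} (h : Bd K x y c) : Bd K y x c := by
  intro f hf hb
  rw [norm_sub_rev]
  exact h f hf hb

lemma Gl.symm {K : Set ℂ} {x y : ℂ} (h : Gl K x y) : Gl K y x := by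
  obtain ⟨c, hc, h⟩ := h
  exact ⟨c, hc, h.symm⟩

lemma Gl.refl (K : Set ℂ) (x : ℂ) : Gl K x x := ⟨1, by norm_num, fun f _ _ => by simp⟩

lemma RatOn.const_mul {K : Set ℂ} {f : ℂ → ℂ} (h : RatOn K f) (u : ℂ) : RatOn K (fun z => u * f z) := by
  obtain ⟨P, Q, hQ, hf⟩ := h
  refine ⟨Polynomial.C u * P, Q, hQ, fun z => ?_⟩
  show u * f z = _
  rw [hf z, Polynomial.eval_mul, Polynomial.eval_C, mul_div_assoc]

lemma RatOn.mono {K L : Set ℂ} {f : ℂ → ℂ} (h : RatOn L f) (hKL : K ⊆ L) : RatOn K f := by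
  obtain ⟨P, Q, hQ, hf⟩ := h
  exact ⟨P, Q, fun z hz => hQ z (hKL hz), hf⟩

lemma RatOn.differentiableAt {K : Set ℂ} {f : ℂ → ℂ} (h : RatOn K f) {z : ℂ} (hz : z ∈ K) :
    DifferentiableAt ℂ f z := by
  obtain ⟨P, Q, hQ, hf⟩ := h
  have : f = fun z => P.eval z / Q.eval z := funext hf
  rw [this]
  exact P.differentiable.differentiableAt.div Q.differentiable.differentiableAt (hQ z hz)

/-- Composition with a real disc automorphism. -/
lemma RatOn.moebius {K : Set ℂ} {f : ℂ → ℂ} (h : RatOn K f) (hb : ∀ z ∈ K, ‖f z‖ ≤ 1) {t : ℝ}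
    (ht0 : 0 ≤ t) (ht1 : t < 1) :
    ∃ g : ℂ → ℂ, RatOn K g ∧ (∀ z ∈ K, ‖g z‖ ≤ 1) ∧ ∀ z ∈ K, g z = (f z - t) / (1 - t * f z) := by
  obtain ⟨P, Q, hQ, hf⟩ := h
  have hden : ∀ z ∈ K, 1 - t * f z ≠ 0 := by
    intro z hz h0
    have h1 : (1 : ℂ) = t * f z := by linear_combination h0
    have h2 : (1 : ℝ) = t * ‖f z‖ := by
      have := congrArg norm h1
      rw [norm_one, norm_mul, Complex.norm_real, Real.norm_of_nonneg ht0] at this
      exact this
    have := hb z hz
    nlinarith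
  have hval : ∀ z ∈ K, (P - Polynomial.C (t : ℂ) * Q).eval z / (Q - Polynomial.C (t : ℂ) * P).eval z =
      (f z - t) / (1 - t * f z) := by
    intro z hz
    have hq := hQ z hz
    have hd := hden z hz
    rw [hf z] at hd ⊢
    simp only [Polynomial.eval_sub, Polynomial.eval_mul, Polynomial.eval_C]
    have e1 : P.eval z / Q.eval z - t = (P.eval z - t * Q.eval z) / Q.eval z := by field_simp
    have e2 : 1 - t * (P.eval z / Q.eval z) = (Q.eval z - t * P.eval z) / Q.eval z := by field_simp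
    rw [e1, e2, div_div_div_cancel_right₀ hq]
  refine ⟨fun z => (P - Polynomial.C (t : ℂ) * Q).eval z / (Q - Polynomial.C (t : ℂ) * P).eval z,
    ⟨_, _, ?_, fun z => rfl⟩, ?_, hval⟩
  · intro z hz h0
    apply hden z hz
    rw [hf z]
    have hq := hQ z hz
    simp only [Polynomial.eval_sub, Polynomial.eval_mul, Polynomial.eval_C] at h0
    field_simp
    linear_combination h0
  · intro z hz
    show ‖(P - Polynomial.C (t : ℂ) * Q).eval z / (Q - Polynomial.C (t : ℂ) * P).eval z‖ ≤ 1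
    rw [hval z hz, norm_div, div_le_one (norm_pos_iff.mpr (hden z hz))]
    -- |w - t| ≤ |1 - t w| for |w| ≤ 1
    set w := f z with hw
    have hw1 : ‖w‖ ≤ 1 := hb z hz
    have h1 : ‖w - t‖ ^ 2 ≤ ‖1 - t * w‖ ^ 2 := by
      rw [← Complex.normSq_eq_norm_sq, ← Complex.normSq_eq_norm_sq]
      have h2 : Complex.normSq w ≤ 1 := by
        rw [Complex.normSq_eq_norm_sq]
        have := norm_nonneg w
        nlinarith
      rw [Complex.normSq_apply] at h2 ⊢
      rw [Complex.normSq_apply]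
      simp only [Complex.sub_re, Complex.sub_im, Complex.ofReal_re, Complex.ofReal_im, Complex.one_re,
        Complex.one_im, Complex.mul_re, Complex.mul_im]
      nlinarith [mul_nonneg (sub_nonneg.mpr h2) (show (0 : ℝ) ≤ 1 - t ^ 2 by nlinarith)]
    exact le_of_sq_le_sq h1 (norm_nonneg _)

/-- Transitivity of the Gleason relation. -/
theorem Gl.trans {K : Set ℂ} {x y z : ℂ} (hx : x ∈ K) (hy : y ∈ K) (hz : z ∈ K)
    (h1 : Gl K x y) (h2 : Gl K y z) : Gl K x z := by
  by_contra hcon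
  obtain ⟨c1, hc1, hb1⟩ := h1
  obtain ⟨c2, hc2, hb2⟩ := h2
  -- sequence of functions
  have hex : ∀ n : ℕ, ∃ g : ℂ → ℂ, RatOn K g ∧ (∀ w ∈ K, ‖g w‖ ≤ 1) ∧
      ‖g x - 1‖ ^ 2 ≤ 2 / (n + 1) ∧ ‖g z - (-1)‖ ^ 2 ≤ 2 / (n + 1) := by
    intro n
    have hn : ¬ Bd K x z (2 - 1 / (n + 1)) := by
      intro hb
      apply hcon
      refine ⟨_, ?_, hb⟩
      have : (0 : ℝ) < 1 / (n + 1) := by positivity
      linarith
    unfold Bd at hn
    push Not at hn
    obtain ⟨f, hf, hfb, hfc⟩ := hn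
    set d := f x - f z with hd
    have hd0 : 0 < ‖d‖ := by
      have : (1 : ℝ) / (n + 1) ≤ 1 := by
        rw [div_le_one (by positivity)]
        have : (0 : ℝ) ≤ n := Nat.cast_nonneg n
        linarith
      linarith
    set u : ℂ := (starRingEnd ℂ) d / ‖d‖ with hu
    have hun : ‖u‖ = 1 := by
      rw [hu, norm_div, RCLike.norm_conj, Complex.norm_real, norm_norm, div_self hd0.ne']
    have hud : u * d = ‖d‖ := by
      rw [hu, div_mul_eq_mul_div, mul_comm, Complex.mul_conj, Complex.normSq_eq_norm_sq]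
      push_cast
      have : (‖d‖ : ℂ) ≠ 0 := by exact_mod_cast hd0.ne'
      field_simp
    refine ⟨fun w => u * f w, hf.const_mul u, ?_, ?_, ?_⟩
    · intro w hw
      show ‖u * f w‖ ≤ 1
      rw [norm_mul, hun, one_mul]
      exact hfb w hw
    · have h3 : (u * f x).re - (u * f z).re = ‖d‖ := by
        have := congrArg Complex.re hud
        rw [hd, mul_sub, Complex.sub_re, Complex.ofReal_re] at this
        exact this
      have h4 : ‖u * f z‖ ≤ 1 := by rw [norm_mul, hun, one_mul]; exact hfb z hz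
      have h5 : ‖u * f x‖ ≤ 1 := by rw [norm_mul, hun, one_mul]; exact hfb x hx
      have h6 := Complex.abs_re_le_norm (u * f z)
      have h7 : -1 ≤ (u * f z).re := by
        have := (abs_le.mp (h6.trans h4)).1
        exact this
      have h8 : 1 - 1 / (n + 1) ≤ (u * f x).re := by linarith
      show ‖u * f x - 1‖ ^ 2 ≤ 2 / (n + 1)
      rw [← Complex.normSq_eq_norm_sq]
      have h9 : Complex.normSq (u * f x) ≤ 1 := by
        rw [Complex.normSq_eq_norm_sq]
        have := norm_nonneg (u * f x)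
        nlinarith
      rw [Complex.normSq_apply] at h9 ⊢
      simp only [Complex.sub_re, Complex.sub_im, Complex.one_re, Complex.one_im, sub_zero]
      have h10 : (2 : ℝ) / (n + 1) = 2 * (1 / (n + 1)) := by ring
      rw [h10]
      nlinarith
    · have h3 : (u * f x).re - (u * f z).re = ‖d‖ := by
        have := congrArg Complex.re hud
        rw [hd, mul_sub, Complex.sub_re, Complex.ofReal_re] at this
        exact this
      have h4 : ‖u * f z‖ ≤ 1 := by rw [norm_mul, hun, one_mul]; exact hfb z hz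
      have h5 : ‖u * f x‖ ≤ 1 := by rw [norm_mul, hun, one_mul]; exact hfb x hx
      have h6 := Complex.abs_re_le_norm (u * f x)
      have h7 : (u * f x).re ≤ 1 := (abs_le.mp (h6.trans h5)).2
      have h8 : (u * f z).re ≤ -1 + 1 / (n + 1) := by linarith
      show ‖u * f z - (-1)‖ ^ 2 ≤ 2 / (n + 1)
      rw [← Complex.normSq_eq_norm_sq]
      have h9 : Complex.normSq (u * f z) ≤ 1 := by
        rw [Complex.normSq_eq_norm_sq]
        have := norm_nonneg (u * f z)
        nlinarith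
      rw [Complex.normSq_apply] at h9 ⊢
      simp only [Complex.sub_re, Complex.sub_im, Complex.neg_re, Complex.neg_im, Complex.one_re,
        Complex.one_im]
      have h10 : (2 : ℝ) / (n + 1) = 2 * (1 / (n + 1)) := by ring
      rw [h10]
      nlinarith
  choose g hg hgb hgx hgz using hex
  -- convergence
  have hlim0 : Tendsto (fun n : ℕ => (2 : ℝ) / (n + 1)) atTop (𝓝 0) := by
    have := tendsto_one_div_add_atTop_nhds_zero_nat (𝕜 := ℝ)
    have h := this.const_mul 2
    simp only [mul_zero] at h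
    refine h.congr (fun n => by ring)
  have hsq : ∀ (a : ℕ → ℂ) (b : ℂ), (∀ n : ℕ, ‖a n - b‖ ^ 2 ≤ 2 / (n + 1)) → Tendsto a atTop (𝓝 b) := by
    intro a b hab
    rw [tendsto_iff_norm_sub_tendsto_zero]
    have h3 : Tendsto (fun n => ‖a n - b‖ ^ 2) atTop (𝓝 0) :=
      squeeze_zero (fun n => by positivity) hab hlim0
    have h4 := h3.sqrt
    rw [Real.sqrt_zero] at h4
    refine h4.congr (fun n => Real.sqrt_sq (norm_nonneg _))
  have hx1 : Tendsto (fun n => g n x) atTop (𝓝 1) := hsq _ _ hgx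
  have hz1 : Tendsto (fun n => g n z) atTop (𝓝 (-1)) := hsq _ _ hgz
  obtain ⟨w, hw, φ, hφ, hyw⟩ := (isCompact_closedBall (0 : ℂ) 1).tendsto_subseq
    (x := fun n => g n y) (fun n => by
      rw [mem_closedBall, dist_zero_right]; exact hgb n y hy)
  have hx2 : Tendsto (fun n => g (φ n) x) atTop (𝓝 1) := hx1.comp hφ.tendsto_atTop
  have hz2 : Tendsto (fun n => g (φ n) z) atTop (𝓝 (-1)) := hz1.comp hφ.tendsto_atTop
  have hy2 : Tendsto (fun n => g (φ n) y) atTop (𝓝 w) := hyw
  have hw1 : ‖w‖ ≤ 1 := by rwa [mem_closedBall, dist_zero_right] at hw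
  by_cases hw0 : w = 1
  · -- contradiction with y ~ z
    have h3 : Tendsto (fun n => ‖g (φ n) y - g (φ n) z‖) atTop (𝓝 ‖w - (-1)‖) :=
      (hy2.sub hz2).norm
    have h4 : ‖w - (-1)‖ ≤ c2 := le_of_tendsto' h3 (fun n => hb2 _ (hg _) (hgb _))
    rw [hw0] at h4
    norm_num at h4
    linarith
  · -- contradiction with x ~ y
    have key : ∀ t : ℝ, 0 ≤ t → t < 1 → ‖(1 - t) / (1 - t * 1) - (w - t) / (1 - t * w)‖ ≤ c1 := by
      intro t ht0 ht1
      have hden : ∀ v : ℂ, ‖v‖ ≤ 1 → (1 : ℂ) - t * v ≠ 0 := by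
        intro v hv h0
        have h1 : (1 : ℂ) = t * v := by linear_combination h0
        have h2 : (1 : ℝ) = t * ‖v‖ := by
          have := congrArg norm h1
          rw [norm_one, norm_mul, Complex.norm_real, Real.norm_of_nonneg ht0] at this
          exact this
        nlinarith
      have h3 : Tendsto (fun n => (g (φ n) x - t) / (1 - t * g (φ n) x)) atTop
          (𝓝 ((1 - t) / (1 - t * 1))) :=
        (hx2.sub_const _).div (tendsto_const_nhds.sub (hx2.const_mul _)) (hden 1 (by simp))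
      have h4 : Tendsto (fun n => (g (φ n) y - t) / (1 - t * g (φ n) y)) atTop
          (𝓝 ((w - t) / (1 - t * w))) :=
        (hy2.sub_const _).div (tendsto_const_nhds.sub (hy2.const_mul _)) (hden w hw1)
      refine le_of_tendsto' (h3.sub h4).norm (fun n => ?_)
      obtain ⟨G, hG, hGb, hGv⟩ := (hg (φ n)).moebius (hgb (φ n)) ht0 ht1
      rw [← hGv x hx, ← hGv y hy]
      exact hb1 G hG hGb
    have h5 : Tendsto (fun t : ℝ => ‖(1 : ℂ) - (w - t) / (1 - t * w)‖) (𝓝 1) (𝓝 ‖(1 : ℂ) - (w - 1) / (1 - 1 * w)‖) := by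
      have hne : (1 : ℂ) - ((1 : ℝ) : ℂ) * w ≠ 0 := by
        intro h0
        apply hw0
        push_cast at h0
        linear_combination -h0
      have hcont : ContinuousAt (fun t : ℝ => ‖(1 : ℂ) - (w - t) / (1 - t * w)‖) 1 := by
        apply ContinuousAt.norm
        apply ContinuousAt.sub continuousAt_const
        apply ContinuousAt.div
        · exact continuousAt_const.sub Complex.continuous_ofReal.continuousAt
        · exact continuousAt_const.sub (Complex.continuous_ofReal.continuousAt.mul continuousAt_const)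
        · exact hne
      have := hcont.tendsto
      push_cast at this
      exact this
    have h6 : ‖(1 : ℂ) - (w - 1) / (1 - 1 * w)‖ = 2 := by
      have hne : (1 : ℂ) - w ≠ 0 := by
        intro h0
        apply hw0
        linear_combination -h0
      have : (1 : ℂ) - (w - 1) / (1 - 1 * w) = 2 := by
        rw [one_mul]
        field_simp
        ring
      rw [this]
      norm_num
    rw [h6] at h5
    have h7 : ‖(1 : ℂ) - (w - 1) / (1 - 1 * w)‖ ≤ c1 := by
      rw [h6]
      have h8 : Tendsto (fun t : ℝ => ‖(1 : ℂ) - (w - t) / (1 - t * w)‖) (𝓝[<] 1) (𝓝 2) :=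
        h5.mono_left nhdsWithin_le_nhds
      refine le_of_tendsto h8 ?_
      have h9 : ∀ᶠ t in 𝓝[<] (1 : ℝ), t ∈ Ioo (0 : ℝ) 1 := Ioo_mem_nhdsLT (by norm_num)
      filter_upwards [h9] with t ht
      have h10 := key t ht.1.le ht.2
      have h11 : ((1 : ℂ) - t) / (1 - t * 1) = 1 := by
        rw [mul_one]
        apply div_self
        intro h0
        have : ((1 - t : ℝ) : ℂ) = 0 := by push_cast; exact h0
        have := Complex.ofReal_eq_zero.mp this
        linarith [ht.2]
      rwa [h11] at h10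
    rw [h6] at h7
    linarith

/-- Local estimate (Schwarz lemma). -/
lemma local_bd {K : Set ℂ} {x y : ℂ} {ρ : ℝ} (hb : ball x ρ ⊆ K) (hy : y ∈ ball x ρ) :
    Bd K x y (2 / ρ * dist y x) := by
  intro f hf hfb
  have hρ : 0 < ρ := nonempty_ball.mp ⟨y, hy⟩
  have hx : x ∈ K := hb (mem_ball_self hρ)
  have hd : DifferentiableOn ℂ f (ball x ρ) := fun z hz => (hf.differentiableAt (hb hz)).differentiableWithinAt
  have hm : MapsTo f (ball x ρ) (closedBall (f x) 2) := by
    intro z hz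
    rw [mem_closedBall, dist_eq_norm]
    calc ‖f z - f x‖ ≤ ‖f z‖ + ‖f x‖ := norm_sub_le _ _
      _ ≤ 1 + 1 := add_le_add (hfb z (hb hz)) (hfb x hx)
      _ = 2 := by norm_num
  have := Complex.dist_le_div_mul_dist_of_mapsTo_ball hd hm hy
  rw [dist_eq_norm, norm_sub_rev] at this
  exact this

/-- In a connected interior all points are related. -/
theorem Gl_of_preconnected {K : Set ℂ} (hc : IsPreconnected (interior K)) {x y : ℂ}
    (hx : x ∈ interior K) (hy : y ∈ interior K) : Gl K x y := by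
  apply hc.induction₂ (P := Gl K) _ _ _ hx hy
  · intro z hz
    obtain ⟨ρ, hρ, hsub⟩ := Metric.isOpen_iff.mp isOpen_interior z hz
    have h1 : ball z (ρ / 2) ∈ 𝓝 z := ball_mem_nhds z (by positivity)
    filter_upwards [mem_nhdsWithin_of_mem_nhds h1] with w hw
    have hw2 : w ∈ ball z ρ := ball_subset_ball (by linarith) hw
    refine ⟨_, ?_, local_bd (hsub.trans interior_subset) hw2⟩
    rw [mem_ball] at hw
    rw [div_mul_eq_mul_div, div_lt_iff₀ hρ]
    nlinarith
  · intro a b c ha hb hc h1 h2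
    exact Gl.trans (interior_subset ha) (interior_subset hb) (interior_subset hc) h1 h2
  · intro a b _ _ h
    exact h.symm

/-- Uniform version on compact subsets of the interior. -/
theorem exists_uniform {K C : Set ℂ} (hc : IsPreconnected (interior K)) (hC : IsCompact C)
    (hCK : C ⊆ interior K) : ∃ c : ℝ, 0 < c ∧ c ≤ 1 ∧ ∀ x ∈ C, ∀ y ∈ C, Bd K x y (2 - c) := by
  have hCC : IsCompact (C ×ˢ C) := hC.prod hC
  have key : ∃ c : ℝ, 0 < c ∧ c ≤ 1 ∧ ∀ q ∈ C ×ˢ C, Bd K q.1 q.2 (2 - c) := by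
    apply hCC.induction_on (p := fun s => ∃ c : ℝ, 0 < c ∧ c ≤ 1 ∧ ∀ q ∈ s, Bd K q.1 q.2 (2 - c))
    · exact ⟨1, by norm_num, le_rfl, fun q hq => absurd hq (notMem_empty q)⟩
    · rintro s t hst ⟨c, hc0, hc1, h⟩
      exact ⟨c, hc0, hc1, fun q hq => h q (hst hq)⟩
    · rintro s t ⟨c, hc0, hc1, h⟩ ⟨d, hd0, hd1, h'⟩
      refine ⟨min c d, lt_min hc0 hd0, (min_le_left _ _).trans hc1, fun q hq => ?_⟩
      rcases hq with hq | hq
      · exact (h q hq).mono (by linarith [min_le_left c d])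
      · exact (h' q hq).mono (by linarith [min_le_right c d])
    · rintro ⟨x, y⟩ ⟨hx, hy⟩
      obtain ⟨c0, hc0, hb⟩ := Gl_of_preconnected hc (hCK hx) (hCK hy)
      obtain ⟨ρ, hρ, hρs⟩ := Metric.isOpen_iff.mp isOpen_interior x (hCK hx)
      obtain ⟨σ, hσ, hσs⟩ := Metric.isOpen_iff.mp isOpen_interior y (hCK hy)
      set η := min 1 ((2 - c0) / 4) with hη
      have hη0 : 0 < η := lt_min (by norm_num) (by linarith)
      set U := ball x (ρ * η / 4) with hU
      set V := ball y (σ * η / 4) with hV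
      refine ⟨U ×ˢ V, mem_nhdsWithin_of_mem_nhds (prod_mem_nhds (ball_mem_nhds _ (by positivity))
        (ball_mem_nhds _ (by positivity))), η, hη0, min_le_left _ _, ?_⟩
      rintro ⟨x', y'⟩ ⟨hx', hy'⟩ f hf hfb
      have hη1 : η ≤ 1 := min_le_left _ _
      simp only at hx' hy' ⊢
      rw [hU, mem_ball] at hx'
      rw [hV, mem_ball] at hy'
      have a1 : ‖f x - f x'‖ ≤ 2 / ρ * dist x' x := local_bd (hρs.trans interior_subset)
        (by rw [mem_ball]; nlinarith) f hf hfb
      have a2 : ‖f y - f y'‖ ≤ 2 / σ * dist y' y := local_bd (hσs.trans interior_subset)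
        (by rw [mem_ball]; nlinarith) f hf hfb
      have a3 : ‖f x - f y‖ ≤ c0 := hb f hf hfb
      have b1 : 2 / ρ * dist x' x ≤ η / 2 := by
        rw [div_mul_eq_mul_div, div_le_iff₀ hρ]; nlinarith
      have b2 : 2 / σ * dist y' y ≤ η / 2 := by
        rw [div_mul_eq_mul_div, div_le_iff₀ hσ]; nlinarith
      have b3 : η ≤ (2 - c0) / 4 := min_le_right _ _
      have e : f x' - f y' = -(f x - f x') + (f x - f y) + (f y - f y') := by ring
      calc ‖f x' - f y'‖ ≤ ‖-(f x - f x') + (f x - f y)‖ + ‖f y - f y'‖ := by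
            rw [e]; exact norm_add_le _ _
        _ ≤ ‖-(f x - f x')‖ + ‖f x - f y‖ + ‖f y - f y'‖ := by
            gcongr; exact norm_add_le _ _
        _ ≤ η / 2 + c0 + η / 2 := by
            rw [norm_neg]; linarith
        _ ≤ 2 - η := by linarith
  obtain ⟨c, hc0, hc1, h⟩ := key
  exact ⟨c, hc0, hc1, fun x hx y hy => h (x, y) ⟨hx, hy⟩⟩

end Pool.Agent.Helper56.Swiss
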