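import Mathlib
import Pool.Agent.Helper56.Swiss.Rat

/-! Decomposition of rational functions and removal of finitely many small discs. -/

namespace Pool.Agent.Helper56.Swiss

open Metric Set Filter Topology

lemma RatOn.add {K : Set ℂ} {f g : ℂ → ℂ} (hf : RatOn K f) (hg : RatOn K g) :
    ∃ h, RatOn K h ∧ ∀ z ∈ K, h z = f z + g z := by
  obtain ⟨P, Q, hQ, hfe⟩ := hf
  obtain ⟨P', Q', hQ', hge⟩ := hg
  refine ⟨fun z => (P * Q' + P' * Q).eval z / (Q * Q').eval z, ⟨_, Q * Q', ?_, fun _ => rfl⟩, ?_⟩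
  · intro z hz
    rw [Polynomial.eval_mul]
    exact mul_ne_zero (hQ z hz) (hQ' z hz)
  · intro z hz
    have h1 := hQ z hz
    have h2 := hQ' z hz
    show (P * Q' + P' * Q).eval z / (Q * Q').eval z = _
    rw [hfe z, hge z]
    simp only [Polynomial.eval_mul, Polynomial.eval_add]
    field_simp

lemma RatOn.pow_id (K : Set ℂ) (k : ℕ) : RatOn K (fun z => z ^ k) :=
  ⟨Polynomial.X ^ k, 1, fun z _ => by simp, fun z => by simp⟩

lemma RatOn.zero (K : Set ℂ) : RatOn K (fun _ => 0) :=
  ⟨0, 1, fun z _ => by simp, fun z => by simp⟩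

lemma RatOn.inv_pow {K : Set ℂ} {p : ℂ} (hp : p ∉ K) (k : ℕ) : RatOn K (fun z => ((z - p) ^ k)⁻¹) := by
  refine ⟨1, (Polynomial.X - Polynomial.C p) ^ k, fun z hz => ?_, fun z => by simp⟩
  simp only [Polynomial.eval_pow, Polynomial.eval_sub, Polynomial.eval_X, Polynomial.eval_C]
  apply pow_ne_zero
  intro h0
  have : z = p := by linear_combination h0
  exact hp (this ▸ hz)

/-- The span of the simple functions with poles off `K`. -/
def Simp (K : Set ℂ) : Submodule ℂ (ℂ → ℂ) :=
  Submodule.span ℂ ({f | ∃ k : ℕ, f = fun z => z ^ k} ∪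
    {f | ∃ p ∉ K, ∃ k : ℕ, f = fun z => ((z - p) ^ (k + 1))⁻¹})

lemma Simp.pow_mem (K : Set ℂ) (k : ℕ) : (fun z : ℂ => z ^ k) ∈ Simp K :=
  Submodule.subset_span (Or.inl ⟨k, rfl⟩)

lemma Simp.inv_mem {K : Set ℂ} {p : ℂ} (hp : p ∉ K) (k : ℕ) :
    (fun z : ℂ => ((z - p) ^ (k + 1))⁻¹) ∈ Simp K :=
  Submodule.subset_span (Or.inr ⟨p, hp, k, rfl⟩)

lemma sub_ne_of_mem {K : Set ℂ} {p z : ℂ} (hp : p ∉ K) (hz : z ∈ K) : z - p ≠ 0 := by
  intro h0
  have : z = p := by linear_combination h0
  exact hp (this ▸ hz)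

lemma Simp.div_mem {K : Set ℂ} {v : ℂ → ℂ} (hv : v ∈ Simp K) {p : ℂ} (hp : p ∉ K) :
    ∃ w ∈ Simp K, ∀ z ∈ K, v z / (z - p) = w z := by
  induction hv using Submodule.span_induction with
  | mem f hf =>
    rcases hf with ⟨k, rfl⟩ | ⟨q, hq, k, rfl⟩
    · induction k with
      | zero =>
        refine ⟨_, Simp.inv_mem hp 0, fun z hz => ?_⟩
        simp
      | succ k ih =>
        obtain ⟨w, hw, h⟩ := ih
        refine ⟨(fun z => z ^ k) + p • w, (Simp K).add_mem (Simp.pow_mem K k) ((Simp K).smul_mem _ hw),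
          fun z hz => ?_⟩
        have h1 := sub_ne_of_mem hp hz
        have h2 := h z hz
        simp only [Pi.add_apply, Pi.smul_apply, smul_eq_mul]
        simp only at h2
        rw [← h2]
        field_simp
        ring
    · by_cases hpq : q = p
      · subst hpq
        refine ⟨_, Simp.inv_mem hp (k + 1), fun z hz => ?_⟩
        have h1 := sub_ne_of_mem hp hz
        field_simp
        ring
      · have hqp : q - p ≠ 0 := sub_ne_zero.mpr hpq
        induction k with
        | zero =>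
          refine ⟨(q - p)⁻¹ • ((fun z => ((z - q) ^ (0 + 1))⁻¹) - (fun z => ((z - p) ^ (0 + 1))⁻¹)),
            (Simp K).smul_mem _ ((Simp K).sub_mem (Simp.inv_mem hq 0) (Simp.inv_mem hp 0)), fun z hz => ?_⟩
          have h1 := sub_ne_of_mem hp hz
          have h2 := sub_ne_of_mem hq hz
          simp only [Pi.sub_apply, Pi.smul_apply, smul_eq_mul]
          field_simp
          ring
        | succ k ih =>
          obtain ⟨w, hw, h⟩ := ih
          refine ⟨(q - p)⁻¹ • ((fun z => ((z - q) ^ (k + 1 + 1))⁻¹) - w),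
            (Simp K).smul_mem _ ((Simp K).sub_mem (Simp.inv_mem hq (k + 1)) hw), fun z hz => ?_⟩
          have h1 := sub_ne_of_mem hp hz
          have h2 := sub_ne_of_mem hq hz
          have h3 := h z hz
          simp only [Pi.sub_apply, Pi.smul_apply, smul_eq_mul]
          simp only at h3
          rw [← h3]
          field_simp
          ring
  | zero => exact ⟨0, (Simp K).zero_mem, fun z _ => by simp⟩
  | add f g _ _ hf hg =>
    obtain ⟨w1, hw1, h1⟩ := hf
    obtain ⟨w2, hw2, h2⟩ := hg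
    refine ⟨w1 + w2, (Simp K).add_mem hw1 hw2, fun z hz => ?_⟩
    simp only [Pi.add_apply]
    rw [add_div, h1 z hz, h2 z hz]
  | smul c f _ hf =>
    obtain ⟨w, hw, h⟩ := hf
    refine ⟨c • w, (Simp K).smul_mem _ hw, fun z hz => ?_⟩
    simp only [Pi.smul_apply, smul_eq_mul]
    rw [mul_div_assoc, h z hz]

/-- Partial fractions: every rational function agrees on `K` with a simple one. -/
theorem RatOn.exists_simp {K : Set ℂ} {f : ℂ → ℂ} (hf : RatOn K f) :
    ∃ v ∈ Simp K, ∀ z ∈ K, f z = v z := by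
  obtain ⟨P, Q, hQ, hfe⟩ := hf
  -- polynomial case
  have hpoly : ∀ P : Polynomial ℂ, (fun z => P.eval z) ∈ Simp K := by
    intro P
    induction P using Polynomial.induction_on' with
    | add p q hp hq =>
      have : (fun z => (p + q).eval z) = (fun z => p.eval z) + (fun z => q.eval z) := by
        funext z; simp
      rw [this]
      exact (Simp K).add_mem hp hq
    | monomial n a =>
      have : (fun z => (Polynomial.monomial n a).eval z) = a • (fun z : ℂ => z ^ n) := by
        funext z; simp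
      rw [this]
      exact (Simp K).smul_mem _ (Simp.pow_mem K n)
  by_cases hK : K.Nonempty
  swap
  · rw [Set.not_nonempty_iff_eq_empty] at hK
    subst hK
    exact ⟨0, (Simp _).zero_mem, fun z hz => absurd hz (notMem_empty z)⟩
  obtain ⟨z0, hz0⟩ := hK
  have hQ0 : Q ≠ 0 := by
    rintro rfl
    exact hQ z0 hz0 (by simp)
  have hmul : ∀ s : Multiset ℂ, (∀ p ∈ s, p ∉ K) →
      ∃ v ∈ Simp K, ∀ z ∈ K, P.eval z / (s.map (fun p => z - p)).prod = v z := by
    intro s
    induction s using Multiset.induction_on with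
    | empty =>
      intro _
      exact ⟨_, hpoly P, fun z _ => by simp⟩
    | cons p s ih =>
      intro hs
      obtain ⟨v, hv, h⟩ := ih (fun q hq => hs q (Multiset.mem_cons_of_mem hq))
      obtain ⟨w, hw, h'⟩ := Simp.div_mem hv (hs p (Multiset.mem_cons_self p s))
      refine ⟨w, hw, fun z hz => ?_⟩
      rw [← h' z hz, ← h z hz, Multiset.map_cons, Multiset.prod_cons, mul_comm, div_div]
  obtain ⟨v, hv, h⟩ := hmul Q.roots (fun p hp => by
    intro hpK
    exact hQ p hpK (Polynomial.isRoot_of_mem_roots hp))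
  refine ⟨(Q.leadingCoeff)⁻¹ • v, (Simp K).smul_mem _ hv, fun z hz => ?_⟩
  have hsplit := (IsAlgClosed.splits Q)
  have hev : Q.eval z = Q.leadingCoeff * (Q.roots.map (fun p => z - p)).prod := by
    conv_lhs => rw [hsplit.eq_prod_roots]
    rw [Polynomial.eval_mul, Polynomial.eval_C, Polynomial.eval_multiset_prod, Multiset.map_map]
    simp
  simp only [Pi.smul_apply, smul_eq_mul]
  rw [← h z hz, hfe z, hev, mul_comm, div_eq_mul_inv, div_eq_mul_inv, mul_inv]
  ring

end Pool.Agent.Helper56.Swiss
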