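import Mathlib
import Pool.Agent.Helper56.Swiss.Partial

/-! A metric density statement for Gleason parts. -/

namespace Pool.Agent.Helper56.Swiss

open Metric Set Filter Topology Complex MeasureTheory

/-- Integral of `1/|w|` over a disc. -/
lemma lint_inv {R : ℝ} (hR : 0 < R) :
    ∫⁻ w : ℂ, (ball (0 : ℂ) R).indicator (fun w => ‖w‖ₑ⁻¹) w ≤ ENNReal.ofReal (2 * Real.pi * R) := by
  rw [← Complex.lintegral_comp_polarCoord_symm]
  have hpi := Real.pi_pos
  calc ∫⁻ p in polarCoord.target, ENNReal.ofReal p.1 •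
        (ball (0 : ℂ) R).indicator (fun w => ‖w‖ₑ⁻¹) (Complex.polarCoord.symm p)
      ≤ ∫⁻ p in polarCoord.target, (Ioo 0 R ×ˢ Ioo (-Real.pi) Real.pi).indicator (fun _ => (1 : ENNReal)) p := by
        apply setLIntegral_mono' polarCoord.open_target.measurableSet
        intro p hp
        rw [polarCoord_target] at hp
        have hp1 : 0 < p.1 := hp.1
        have hn : ‖Complex.polarCoord.symm p‖ = p.1 := by
          rw [Complex.norm_polarCoord_symm, abs_of_pos hp1]
        by_cases hpR : p.1 < R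
        · rw [indicator_of_mem (by rw [mem_ball, dist_zero_right, hn]; exact hpR),
            indicator_of_mem (show p ∈ Ioo 0 R ×ˢ Ioo (-Real.pi) Real.pi from ⟨⟨hp1, hpR⟩, hp.2⟩)]
          rw [← ofReal_norm, hn, smul_eq_mul, ENNReal.mul_inv_cancel]
          · rw [ne_eq, ENNReal.ofReal_eq_zero, not_le]
            exact hp1
          · exact ENNReal.ofReal_ne_top
        · rw [indicator_of_notMem (by rw [mem_ball, dist_zero_right, hn]; exact hpR), smul_zero]
          exact zero_le
    _ ≤ ∫⁻ p, (Ioo 0 R ×ˢ Ioo (-Real.pi) Real.pi).indicator (fun _ => (1 : ENNReal)) p :=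
        setLIntegral_le_lintegral _ _
    _ = volume (Ioo 0 R ×ˢ Ioo (-Real.pi) Real.pi) := by
        rw [lintegral_indicator_const (measurableSet_Ioo.prod measurableSet_Ioo), one_mul]
    _ = ENNReal.ofReal (2 * Real.pi * R) := by
        rw [Measure.volume_eq_prod, Measure.prod_prod, Real.volume_Ioo, Real.volume_Ioo,
          ← ENNReal.ofReal_mul (by linarith)]
        congr 1
        ring

lemma vol_cb (x : ℂ) {δ : ℝ} (hδ : 0 ≤ δ) : volume (closedBall x δ) = ENNReal.ofReal (Real.pi * δ ^ 2) := by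
  rw [Complex.volume_closedBall, ← ENNReal.ofReal_pow hδ, mul_comm, ← ENNReal.ofReal_coe_nnreal,
    ← ENNReal.ofReal_mul (by positivity)]
  rfl

/-- Uniform bound for the potential of a disc. -/
lemma potential_le (z x : ℂ) {δ : ℝ} (hδ : 0 < δ) :
    ∫⁻ y in closedBall x δ, ‖z - y‖ₑ⁻¹ ≤ ENNReal.ofReal (3 * Real.pi * δ) := by
  have hpi := Real.pi_pos
  have h1 : ∀ y : ℂ, ‖z - y‖ₑ⁻¹ ≤ (ball (0 : ℂ) δ).indicator (fun w => ‖w‖ₑ⁻¹) (z - y) +
      ENNReal.ofReal (1 / δ) := by
    intro y
    by_cases hy : ‖z - y‖ < δ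
    · rw [indicator_of_mem (by rw [mem_ball, dist_zero_right]; exact hy)]
      exact le_self_add
    · rw [indicator_of_notMem (by rw [mem_ball, dist_zero_right]; exact hy), zero_add, one_div,
        ENNReal.ofReal_inv_of_pos hδ, ENNReal.inv_le_inv, ← ofReal_norm]
      exact ENNReal.ofReal_le_ofReal (not_lt.mp hy)
  calc ∫⁻ y in closedBall x δ, ‖z - y‖ₑ⁻¹
      ≤ ∫⁻ y in closedBall x δ, ((ball (0 : ℂ) δ).indicator (fun w => ‖w‖ₑ⁻¹) (z - y) +
        ENNReal.ofReal (1 / δ)) := lintegral_mono h1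
    _ = (∫⁻ y in closedBall x δ, (ball (0 : ℂ) δ).indicator (fun w => ‖w‖ₑ⁻¹) (z - y)) +
        ENNReal.ofReal (1 / δ) * volume (closedBall x δ) := by
        rw [lintegral_add_right _ measurable_const, setLIntegral_const]
    _ ≤ (∫⁻ y, (ball (0 : ℂ) δ).indicator (fun w => ‖w‖ₑ⁻¹) (z - y)) +
        ENNReal.ofReal (1 / δ) * volume (closedBall x δ) := by
        gcongr
        exact Measure.restrict_le_self
    _ = (∫⁻ w, (ball (0 : ℂ) δ).indicator (fun w => ‖w‖ₑ⁻¹) w) +
        ENNReal.ofReal (1 / δ) * volume (closedBall x δ) := by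
        rw [lintegral_sub_left_eq_self (fun w => (ball (0 : ℂ) δ).indicator (fun w => ‖w‖ₑ⁻¹) w) z]
    _ ≤ ENNReal.ofReal (2 * Real.pi * δ) + ENNReal.ofReal (1 / δ) * ENNReal.ofReal (Real.pi * δ ^ 2) := by
        rw [vol_cb x hδ.le]
        gcongr
        exact lint_inv hδ
    _ = ENNReal.ofReal (3 * Real.pi * δ) := by
        rw [← ENNReal.ofReal_mul (by positivity), ← ENNReal.ofReal_add (by positivity) (by positivity)]
        congr 1
        field_simp
        ring

/-- Better bound far away. -/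
lemma potential_far {z x : ℂ} {t : ℝ} (ht : 0 < t) (ht2 : t ≤ 1 / 2) (hz : t < ‖z - x‖) :
    ∫⁻ y in closedBall x (t ^ 2), ‖z - y‖ₑ⁻¹ ≤ ENNReal.ofReal (2 * Real.pi * t ^ 3) := by
  have hpi := Real.pi_pos
  have h1 : ∀ y ∈ closedBall x (t ^ 2), ‖z - y‖ₑ⁻¹ ≤ ENNReal.ofReal (2 / t) := by
    intro y hy
    rw [mem_closedBall, dist_eq_norm] at hy
    have h2 : t / 2 ≤ ‖z - y‖ := by
      have h3 : ‖z - x‖ ≤ ‖z - y‖ + ‖y - x‖ := by
        have e : z - x = (z - y) + (y - x) := by ring
        rw [e]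
        exact norm_add_le _ _
      nlinarith
    have h3 : ENNReal.ofReal (2 / t) = (ENNReal.ofReal (t / 2))⁻¹ := by
      rw [← ENNReal.ofReal_inv_of_pos (by positivity), inv_div]
    rw [h3, ENNReal.inv_le_inv, ← ofReal_norm]
    exact ENNReal.ofReal_le_ofReal h2
  calc ∫⁻ y in closedBall x (t ^ 2), ‖z - y‖ₑ⁻¹
      ≤ ∫⁻ y in closedBall x (t ^ 2), ENNReal.ofReal (2 / t) :=
        setLIntegral_mono' measurableSet_closedBall h1
    _ = ENNReal.ofReal (2 / t) * ENNReal.ofReal (Real.pi * (t ^ 2) ^ 2) := by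
        rw [setLIntegral_const, vol_cb x (by positivity)]
    _ = ENNReal.ofReal (2 * Real.pi * t ^ 3) := by
        rw [← ENNReal.ofReal_mul (by positivity)]
        congr 1
        field_simp

/-- The logarithmic-type potential. -/
noncomputable def pot (μ : Measure ℂ) (y : ℂ) : ENNReal := ∫⁻ z, ‖z - y‖ₑ⁻¹ ∂μ

lemma meas_kernel : Measurable (fun q : ℂ × ℂ => ‖q.2 - q.1‖ₑ⁻¹) :=
  (measurable_snd.sub measurable_fst).enorm.inv

/-- Average of the potential over a small disc. -/
lemma avg_le (μ : Measure ℂ) [IsProbabilityMeasure μ] (x : ℂ) {t : ℝ} (ht : 0 < t) (ht2 : t ≤ 1 / 2) :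
    ∫⁻ y in closedBall x (t ^ 2), pot μ y ≤
      ENNReal.ofReal (3 * Real.pi * t ^ 2) * μ (closedBall x t) + ENNReal.ofReal (2 * Real.pi * t ^ 3) := by
  unfold pot
  rw [lintegral_lintegral_swap meas_kernel.aemeasurable]
  calc ∫⁻ z, (∫⁻ y in closedBall x (t ^ 2), ‖z - y‖ₑ⁻¹) ∂μ
      ≤ ∫⁻ z, ((closedBall x t).indicator (fun _ => ENNReal.ofReal (3 * Real.pi * t ^ 2)) z +
          ENNReal.ofReal (2 * Real.pi * t ^ 3)) ∂μ := by
        apply lintegral_mono
        intro z
        by_cases hz : z ∈ closedBall x t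
        · simp only [indicator_of_mem hz]
          exact (potential_le z x (by positivity)).trans le_self_add
        · simp only [indicator_of_notMem hz, zero_add]
          rw [mem_closedBall, not_le, dist_eq_norm] at hz
          exact potential_far ht ht2 hz
    _ = _ := by
        rw [lintegral_add_right _ measurable_const, lintegral_indicator_const measurableSet_closedBall,
          lintegral_const, measure_univ, mul_one]

/-- Division of a rational function by `z - y`. -/
lemma RatOn.quot {X : Set ℂ} {f : ℂ → ℂ} (hf : RatOn X f) {y : ℂ} (hy : y ∈ X) :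
    ∃ q, RatOn X q ∧ ∀ z ∈ X, (z - y) * q z = f z - f y := by
  obtain ⟨P, Q, hQ, hfe⟩ := hf
  have hroot : (Polynomial.C (Q.eval y) * P - Polynomial.C (P.eval y) * Q).IsRoot y := by
    rw [Polynomial.IsRoot.def]
    simp only [Polynomial.eval_sub, Polynomial.eval_mul, Polynomial.eval_C]
    ring
  obtain ⟨S, hS⟩ := Polynomial.dvd_iff_isRoot.mpr hroot
  refine ⟨fun z => S.eval z / (Polynomial.C (Q.eval y) * Q).eval z, ⟨S, _, ?_, fun z => rfl⟩, ?_⟩
  · intro z hz
    simp only [Polynomial.eval_mul, Polynomial.eval_C]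
    exact mul_ne_zero (hQ y hy) (hQ z hz)
  · intro z hz
    have h1 := congrArg (Polynomial.eval z) hS
    simp only [Polynomial.eval_sub, Polynomial.eval_mul, Polynomial.eval_C, Polynomial.eval_X] at h1
    have h2 := hQ y hy
    have h3 := hQ z hz
    show (z - y) * (S.eval z / (Polynomial.C (Q.eval y) * Q).eval z) = f z - f y
    simp only [Polynomial.eval_mul, Polynomial.eval_C]
    rw [hfe z, hfe y, ← mul_div_assoc, ← h1]
    field_simp

/-- Points whose potential is small are related to `x`. -/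
lemma Bd_of_pot {X : Set ℂ} {x : ℂ} (hx : x ∈ X) (μ : Measure ℂ) [IsProbabilityMeasure μ]
    (hμX : μ Xᶜ = 0) (hrep : ∀ f, RatOn X f → ∫ z, f z ∂μ = f x) {y : ℂ} (hy : y ∈ X) {s : ℝ} (hs : 0 ≤ s)
    (hpot : ‖x - y‖ₑ * pot μ y ≤ ENNReal.ofReal s) : Bd X x y (2 * s) := by
  intro f hf hfb
  by_cases hxy : x = y
  · rw [hxy, sub_self, norm_zero]
    positivity
  have hxy' : x - y ≠ 0 := sub_ne_zero.mpr hxy
  obtain ⟨q, hq, hqe⟩ := hf.quot hy
  have hae : ∀ᵐ z ∂μ, z ∈ X := by
    rw [measure_eq_zero_iff_ae_notMem] at hμX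
    filter_upwards [hμX] with z hz
    simpa using hz
  have hfin : pot μ y ≠ ⊤ := by
    intro htop
    rw [htop, ENNReal.mul_top (by simpa using hxy')] at hpot
    exact absurd hpot (by simp)
  have hney : ∀ᵐ z ∂μ, z ≠ y := by
    have h1 : ∀ᵐ z ∂μ, ‖z - y‖ₑ⁻¹ < ⊤ := by
      apply ae_lt_top _ hfin
      exact (measurable_id.sub_const y).enorm.inv
    filter_upwards [h1] with z hz hzy
    rw [hzy, sub_self, enorm_zero, ENNReal.inv_zero] at hz
    exact lt_irrefl _ hz
  have h1 : ‖q x‖ₑ ≤ 2 * pot μ y := by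
    rw [← hrep q hq]
    refine (enorm_integral_le_lintegral_enorm _).trans ?_
    unfold pot
    rw [← lintegral_const_mul' _ _ (by norm_num)]
    apply lintegral_mono_ae
    filter_upwards [hae, hney] with z hz hzy
    have h2 := hqe z hz
    have hzy' : z - y ≠ 0 := sub_ne_zero.mpr hzy
    have h3 : q z = (f z - f y) * (z - y)⁻¹ := by
      rw [← h2]
      field_simp
    rw [h3, enorm_mul, enorm_inv hzy']
    gcongr
    have h4 : ‖f z - f y‖ ≤ 2 := by
      calc ‖f z - f y‖ ≤ ‖f z‖ + ‖f y‖ := norm_sub_le _ _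
        _ ≤ 1 + 1 := add_le_add (hfb z hz) (hfb y hy)
        _ = 2 := by norm_num
    rw [← ofReal_norm]
    calc ENNReal.ofReal ‖f z - f y‖ ≤ ENNReal.ofReal 2 := ENNReal.ofReal_le_ofReal h4
      _ = 2 := by simp
  have h2 : ‖f x - f y‖ₑ ≤ ENNReal.ofReal (2 * s) := by
    rw [← hqe x hx, enorm_mul]
    calc ‖x - y‖ₑ * ‖q x‖ₑ ≤ ‖x - y‖ₑ * (2 * pot μ y) := by gcongr
      _ = 2 * (‖x - y‖ₑ * pot μ y) := by ring
      _ ≤ 2 * ENNReal.ofReal s := by gcongr
      _ = ENNReal.ofReal (2 * s) := by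
          rw [ENNReal.ofReal_mul (by norm_num)]
          simp
  rw [← ofReal_norm, ENNReal.ofReal_le_ofReal_iff (by positivity)] at h2
  exact h2

/-- Off `X` the normalized potential is at least one. -/
lemma pot_off {X : Set ℂ} {x : ℂ} (hx : x ∈ X) (μ : Measure ℂ) [IsProbabilityMeasure μ]
    (hrep : ∀ f, RatOn X f → ∫ z, f z ∂μ = f x) {y : ℂ} (hy : y ∉ X) :
    1 ≤ ‖x - y‖ₑ * pot μ y := by
  have hxy' : x - y ≠ 0 := sub_ne_of_mem hy hx
  have h1 := hrep _ (RatOn.inv_pow hy 1)
  have h2 : ‖(x - y)⁻¹‖ₑ ≤ pot μ y := by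
    have h3 : (x - y)⁻¹ = ∫ z, ((z - y) ^ 1)⁻¹ ∂μ := by rw [h1, pow_one]
    rw [h3]
    refine (enorm_integral_le_lintegral_enorm _).trans ?_
    unfold pot
    apply lintegral_mono
    intro z
    simp only [pow_one]
    by_cases hz : z - y = 0
    · simp [hz]
    · rw [enorm_inv hz]
  rw [enorm_inv hxy'] at h2
  calc (1 : ENNReal) = ‖x - y‖ₑ * ‖x - y‖ₑ⁻¹ := by
        rw [ENNReal.mul_inv_cancel]
        · simpa using hxy'
        · exact enorm_ne_top
    _ ≤ _ := by gcongr

/-- The part of a point with a representing measure without mass at the point is not null. -/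
theorem part_not_null {X : Set ℂ} {x : ℂ} (hx : x ∈ X) (μ : Measure ℂ) [IsProbabilityMeasure μ]
    (hμX : μ Xᶜ = 0) (hμx : μ {x} = 0) (hrep : ∀ f, RatOn X f → ∫ z, f z ∂μ = f x) :
    volume {y ∈ X | Gl X x y} ≠ 0 := by
  intro h0
  -- almost everywhere the normalized potential is at least one
  have hae : ∀ᵐ y ∂(volume : Measure ℂ), 1 ≤ ‖x - y‖ₑ * pot μ y := by
    rw [measure_eq_zero_iff_ae_notMem] at h0
    filter_upwards [h0] with y hy
    by_cases hyX : y ∈ X
    · by_contra hcon
      rw [not_le] at hcon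
      apply hy
      refine ⟨hyX, 2 * (‖x - y‖ₑ * pot μ y).toReal, ?_, ?_⟩
      · have h1 : (‖x - y‖ₑ * pot μ y).toReal < (1 : ENNReal).toReal :=
          ENNReal.toReal_strict_mono ENNReal.one_ne_top hcon
        rw [ENNReal.toReal_one] at h1
        linarith
      · apply Bd_of_pot hx μ hμX hrep hyX ENNReal.toReal_nonneg
        rw [ENNReal.ofReal_toReal (ne_top_of_lt hcon)]
    · exact pot_off hx μ hrep hyX
  have key : ∀ t : ℝ, 0 < t → t ≤ 1 / 2 → 1 ≤ 3 * μ.real (closedBall x t) + 2 * t := by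
    intro t ht ht2
    have hpi := Real.pi_pos
    have h1 : volume (closedBall x (t ^ 2)) ≤ ENNReal.ofReal (t ^ 2) * ∫⁻ y in closedBall x (t ^ 2), pot μ y := by
      rw [← lintegral_const_mul' _ _ ENNReal.ofReal_ne_top, ← setLIntegral_one]
      apply lintegral_mono_ae
      refine (ae_restrict_iff' measurableSet_closedBall).mpr ?_
      filter_upwards [hae] with y hy hyB
      refine hy.trans ?_
      gcongr
      rw [← ofReal_norm]
      apply ENNReal.ofReal_le_ofReal
      rw [mem_closedBall, dist_comm, dist_eq_norm] at hyB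
      exact hyB
    have h2 := avg_le μ x ht ht2
    have h3 : ENNReal.ofReal (Real.pi * (t ^ 2) ^ 2) ≤ ENNReal.ofReal (t ^ 2) *
        (ENNReal.ofReal (3 * Real.pi * t ^ 2) * μ (closedBall x t) + ENNReal.ofReal (2 * Real.pi * t ^ 3)) := by
      rw [← vol_cb x (by positivity)]
      exact h1.trans (by gcongr)
    have h4 : μ (closedBall x t) = ENNReal.ofReal (μ.real (closedBall x t)) :=
      (ofReal_measureReal (measure_ne_top _ _)).symm
    have h5 : 0 ≤ μ.real (closedBall x t) := measureReal_nonneg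
    rw [h4, ← ENNReal.ofReal_mul (by positivity), ← ENNReal.ofReal_add (by positivity) (by positivity),
      ← ENNReal.ofReal_mul (by positivity), ENNReal.ofReal_le_ofReal_iff (by positivity)] at h3
    have h6 : 0 < Real.pi * t ^ 4 := by positivity
    have h7 : Real.pi * t ^ 4 * 1 ≤ Real.pi * t ^ 4 * (3 * μ.real (closedBall x t) + 2 * t) := by
      calc Real.pi * t ^ 4 * 1 = Real.pi * (t ^ 2) ^ 2 := by ring
        _ ≤ _ := h3
        _ = _ := by ring
    exact le_of_mul_le_mul_left h7 h6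
  -- limit
  have hlim : Tendsto (fun n : ℕ => μ.real (closedBall x (1 / (n + 2)))) atTop (𝓝 0) := by
    have h1 : Tendsto (fun n : ℕ => μ (closedBall x (1 / (n + 2)))) atTop
        (𝓝 (μ (⋂ n : ℕ, closedBall x (1 / (n + 2))))) := by
      apply tendsto_measure_iInter_atTop
      · intro n
        exact measurableSet_closedBall.nullMeasurableSet
      · intro m n hmn
        apply closedBall_subset_closedBall
        apply one_div_le_one_div_of_le (by positivity)
        have : (m : ℝ) ≤ n := by exact_mod_cast hmn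
        linarith
      · exact ⟨0, measure_ne_top _ _⟩
    have h2 : ⋂ n : ℕ, closedBall x (1 / ((n : ℝ) + 2)) = {x} := by
      ext z
      rw [mem_iInter, mem_singleton_iff]
      constructor
      · intro h
        by_contra hzx
        have hd : 0 < dist z x := dist_pos.mpr hzx
        obtain ⟨n, hn⟩ := exists_nat_gt (1 / dist z x)
        have h3 := h n
        rw [mem_closedBall, le_div_iff₀ (by positivity)] at h3
        rw [div_lt_iff₀ hd] at hn
        nlinarith
      · rintro rfl n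
        exact mem_closedBall_self (by positivity)
    rw [h2, hμx] at h1
    have h3 := (ENNReal.tendsto_toReal ENNReal.zero_ne_top).comp h1
    rw [ENNReal.toReal_zero] at h3
    exact h3
  have hlim2 : Tendsto (fun n : ℕ => 3 * μ.real (closedBall x (1 / (n + 2))) + 2 * (1 / ((n : ℝ) + 2))) atTop
      (𝓝 (3 * 0 + 2 * 0)) := by
    apply (hlim.const_mul 3).add
    apply Tendsto.const_mul
    have h1 := tendsto_one_div_add_atTop_nhds_zero_nat (𝕜 := ℝ)
    have h2 := (tendsto_add_atTop_iff_nat 1).mpr h1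
    refine h2.congr (fun n => ?_)
    push_cast
    ring
  have h1 := ge_of_tendsto' hlim2 (fun n => key (1 / ((n : ℝ) + 2)) (by positivity) (by
    apply one_div_le_one_div_of_le (by norm_num)
    have : (0 : ℝ) ≤ n := Nat.cast_nonneg n
    linarith))
  norm_num at h1

end Pool.Agent.Helper56.Swiss
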