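import Mathlib

/-! Peak points: Bishop's criterion. -/

namespace Pool.Agent.Helper56.Swiss

open Metric Set Filter Topology Complex

/-- `x` is a peak point of the family `A` of functions. -/
def PeakAt {α : Type*} [TopologicalSpace α] (A : Subalgebra ℂ C(α, ℂ)) (x : α) : Prop :=
  ∃ f ∈ A, f x = 1 ∧ ∀ y, y ≠ x → ‖f y‖ < 1

theorem bishop {α : Type*} [MetricSpace α] [CompactSpace α] (A : Subalgebra ℂ C(α, ℂ))
    (hA : IsClosed (A : Set C(α, ℂ))) (x : α)
    (H : ∀ U ∈ 𝓝 x, ∃ f ∈ A, ‖f‖ ≤ 1 ∧ 3 / 4 ≤ ‖f x‖ ∧ ∀ y, y ∉ U → ‖f y‖ < 1 / 4) : PeakAt A x := by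
  have H' : ∀ U ∈ 𝓝 x, ∃ f ∈ A, ‖f‖ ≤ 1 ∧ f x = 3 / 4 ∧ ∀ y, y ∉ U → ‖f y‖ < 1 / 4 := by
    intro U hU
    obtain ⟨f, hfA, hf1, hfx, hfy⟩ := H U hU
    have hfx0 : 0 < ‖f x‖ := by linarith
    have hc : ‖(3 / 4 : ℂ) / f x‖ ≤ 1 := by
      rw [norm_div, div_le_one hfx0]
      norm_num
      exact hfx
    refine ⟨((3 / 4 : ℂ) / f x) • f, A.smul_mem hfA _, ?_, ?_, ?_⟩
    · rw [norm_smul]
      nlinarith [norm_nonneg f, norm_nonneg ((3 / 4 : ℂ) / f x)]
    · rw [ContinuousMap.smul_apply, smul_eq_mul, div_mul_cancel₀]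
      exact norm_pos_iff.mp hfx0
    · intro y hy
      rw [ContinuousMap.smul_apply, smul_eq_mul, norm_mul]
      have := hfy y hy
      nlinarith [norm_nonneg (f y), norm_nonneg ((3 / 4 : ℂ) / f x)]
  choose! g hgA hgn hgx hgs using H'
  let U : ℕ → C(α, ℂ) → Set α := fun n F => {y | ‖F y‖ < ‖F x‖ + (1 / 2) ^ n / 4 ∧ dist y x < 1 / (n + 1)}
  have hU : ∀ n F, U n F ∈ 𝓝 x := by
    intro n F
    have h1 : ∀ᶠ y in 𝓝 x, ‖F y‖ < ‖F x‖ + (1 / 2) ^ n / 4 := by
      apply (F.continuous.norm.tendsto x).eventually_lt_const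
      have : (0 : ℝ) < (1 / 2) ^ n / 4 := by positivity
      linarith
    have h2 : ∀ᶠ y in 𝓝 x, dist y x < 1 / (n + 1) := Metric.ball_mem_nhds x (by positivity)
    exact h1.and h2
  let F : ℕ → C(α, ℂ) := fun n => Nat.rec 0 (fun n F => F + ((1 / 2 : ℂ) ^ n) • g (U n F)) n
  have hF0 : F 0 = 0 := rfl
  have hFs : ∀ n, F (n + 1) = F n + ((1 / 2 : ℂ) ^ n) • g (U n (F n)) := fun n => rfl
  have hFA : ∀ n, F n ∈ A := by
    intro n
    induction n with
    | zero => exact A.zero_mem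
    | succ n ih =>
      rw [hFs]
      exact A.add_mem ih (A.smul_mem (hgA _ (hU _ _)) _)
  have hnp : ∀ n : ℕ, ‖((1 / 2 : ℂ) ^ n)‖ = (1 / 2) ^ n := by
    intro n
    rw [norm_pow]
    norm_num
  have hFx : ∀ n, F n x = ((3 / 2 * (1 - (1 / 2) ^ n) : ℝ) : ℂ) := by
    intro n
    induction n with
    | zero => rw [hF0]; simp
    | succ n ih =>
      rw [hFs, ContinuousMap.add_apply, ContinuousMap.smul_apply, ih, hgx _ (hU _ _), smul_eq_mul]
      push_cast
      ring
  have hFx' : ∀ n, ‖F n x‖ = 3 / 2 * (1 - (1 / 2) ^ n) := by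
    intro n
    rw [hFx n, Complex.norm_real, Real.norm_of_nonneg]
    have : (1 / 2 : ℝ) ^ n ≤ 1 := pow_le_one₀ (by norm_num) (by norm_num)
    linarith
  have hstep : ∀ n y, ‖F (n + 1) y‖ ≤ ‖F n y‖ + (1 / 2) ^ n * ‖g (U n (F n)) y‖ := by
    intro n y
    rw [hFs, ContinuousMap.add_apply, ContinuousMap.smul_apply, smul_eq_mul]
    refine (norm_add_le _ _).trans ?_
    rw [norm_mul, hnp]
  have hg1 : ∀ n y, ‖g (U n (F n)) y‖ ≤ 1 := fun n y =>
    (ContinuousMap.norm_coe_le_norm _ y).trans (hgn _ (hU _ _))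
  have hdist : ∀ n, dist (F n) (F (n + 1)) ≤ 1 * (1 / 2) ^ n := by
    intro n
    rw [hFs, dist_eq_norm, sub_add_cancel_left, norm_neg, norm_smul, hnp, mul_comm]
    have : (0 : ℝ) < (1 / 2) ^ n := by positivity
    exact mul_le_mul_of_nonneg_right (hgn _ (hU _ _)) this.le
  have hcau : CauchySeq F := cauchySeq_of_le_geometric (1 / 2) 1 (by norm_num) hdist
  obtain ⟨G, hG⟩ := cauchySeq_tendsto_of_complete hcau
  have hGA : G ∈ A := hA.mem_of_tendsto hG (Eventually.of_forall hFA)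
  have hGy : ∀ y, Tendsto (fun n => F n y) atTop (𝓝 (G y)) := by
    intro y
    exact ((continuous_eval_const y).tendsto G).comp hG
  have hGx : G x = 3 / 2 := by
    have h1 : Tendsto (fun n => F n x) atTop (𝓝 (((3 / 2 * (1 - 0) : ℝ) : ℂ))) := by
      have h2 : Tendsto (fun n : ℕ => (1 / 2 : ℝ) ^ n) atTop (𝓝 0) :=
        tendsto_pow_atTop_nhds_zero_of_lt_one (by norm_num) (by norm_num)
      have h3 := ((h2.const_sub 1).const_mul (3 / 2))
      have h4 := (Complex.continuous_ofReal.tendsto _).comp h3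
      refine h4.congr (fun n => ?_)
      rw [hFx n]
      rfl
    have h5 := tendsto_nhds_unique (hGy x) h1
    rw [h5]
    push_cast
    ring
  have hbound : ∀ y, y ≠ x → ‖G y‖ < 3 / 2 := by
    intro y hyx
    have J : ∀ n, ‖F n y‖ < 3 / 2 * (1 - (1 / 2) ^ n) + (1 / 2) ^ n := by
      intro n
      induction n with
      | zero => rw [hF0]; simp
      | succ n ih =>
        have h1 := hstep n y
        have hp : (0 : ℝ) < (1 / 2) ^ n := by positivity
        rw [pow_succ]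
        by_cases hy : y ∈ U n (F n)
        · have h2 : ‖F n y‖ < ‖F n x‖ + (1 / 2) ^ n / 4 := hy.1
          rw [hFx'] at h2
          have h3 := hg1 n y
          nlinarith
        · have h3 := hgs _ (hU n (F n)) y hy
          nlinarith
    obtain ⟨N, hN⟩ := exists_nat_gt (1 / dist y x)
    have hd : 0 < dist y x := dist_pos.mpr hyx
    have hnot : ∀ n ≥ N, y ∉ U n (F n) := by
      intro n hn hy
      have h1 : dist y x < 1 / (n + 1) := hy.2
      rw [div_lt_iff₀ hd] at hN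
      rw [lt_div_iff₀ (by positivity)] at h1
      have h2 : (N : ℝ) ≤ n := by exact_mod_cast hn
      nlinarith
    have htail : ∀ n ≥ N, ‖F n y‖ ≤ ‖F N y‖ + (1 / 2) ^ N / 2 - (1 / 2) ^ n / 2 := by
      intro n hn
      induction n, hn using Nat.le_induction with
      | base => linarith
      | succ n hn ih =>
        have h1 := hstep n y
        have h2 := hgs _ (hU n (F n)) y (hnot n hn)
        have hp : (0 : ℝ) < (1 / 2) ^ n := by positivity
        rw [pow_succ]
        nlinarith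
    have h1 : ‖G y‖ ≤ ‖F N y‖ + (1 / 2) ^ N / 2 := by
      apply le_of_tendsto (hGy y).norm
      filter_upwards [eventually_ge_atTop N] with n hn
      have := htail n hn
      have hp : (0 : ℝ) < (1 / 2) ^ n := by positivity
      linarith
    have h2 := J N
    linarith
  refine ⟨(2 / 3 : ℂ) • G, A.smul_mem hGA _, ?_, ?_⟩
  · rw [ContinuousMap.smul_apply, hGx, smul_eq_mul]
    norm_num
  · intro y hy
    rw [ContinuousMap.smul_apply, smul_eq_mul, norm_mul]
    have := hbound y hy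
    norm_num
    linarith

end Pool.Agent.Helper56.Swiss
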