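import Mathlib
import Pool.Agent.Helper56.Swiss.Peak

/-! Representing measures for points that are not peak points. -/

namespace Pool.Agent.Helper56.Swiss

open Metric Set Filter Topology Complex MeasureTheory
open scoped CompactlySupported

section

variable {α : Type*} [MetricSpace α] [CompactSpace α] (A : Subalgebra ℂ C(α, ℂ)) (x : α)

/-- real parts at `x` of the functions of `A` dominating `w` -/
def domSet (w : C(α, ℝ)) : Set ℝ := {t | ∃ g ∈ A, (∀ y, w y ≤ (g y).re) ∧ t = (g x).re}

/-- the sublinear functional -/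
noncomputable def subl (w : C(α, ℝ)) : ℝ := sInf (domSet A x w)

omit [CompactSpace α] in
lemma const_mem (c : ℂ) : ContinuousMap.const α c ∈ A := by
  have := A.algebraMap_mem c
  exact this

lemma domSet_nonempty (w : C(α, ℝ)) : (domSet A x w).Nonempty := by
  refine ⟨_, ContinuousMap.const α ((‖w‖ : ℝ) : ℂ), const_mem A _, fun y => ?_, rfl⟩
  rw [ContinuousMap.const_apply, Complex.ofReal_re]
  exact (le_abs_self _).trans (ContinuousMap.norm_coe_le_norm w y)

omit [CompactSpace α] in
lemma domSet_bdd (w : C(α, ℝ)) : BddBelow (domSet A x w) := by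
  refine ⟨w x, ?_⟩
  rintro t ⟨g, _, hg, rfl⟩
  exact hg x

lemma le_subl (w : C(α, ℝ)) : w x ≤ subl A x w := by
  apply le_csInf (domSet_nonempty A x w)
  rintro t ⟨g, _, hg, rfl⟩
  exact hg x

omit [CompactSpace α] in
lemma subl_le {w : C(α, ℝ)} {g : C(α, ℂ)} (hg : g ∈ A) (h : ∀ y, w y ≤ (g y).re) :
    subl A x w ≤ (g x).re :=
  csInf_le (domSet_bdd A x w) ⟨g, hg, h, rfl⟩

lemma subl_add (v w : C(α, ℝ)) : subl A x (v + w) ≤ subl A x v + subl A x w := by
  apply le_of_forall_pos_lt_add
  intro ε hε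
  obtain ⟨s, ⟨g, hg, hg', rfl⟩, hs⟩ := exists_lt_of_csInf_lt (domSet_nonempty A x v)
    (show sInf (domSet A x v) < subl A x v + ε / 2 by unfold subl; linarith)
  obtain ⟨t, ⟨k, hk, hk', rfl⟩, ht⟩ := exists_lt_of_csInf_lt (domSet_nonempty A x w)
    (show sInf (domSet A x w) < subl A x w + ε / 2 by unfold subl; linarith)
  have h1 := subl_le A x (w := v + w) (A.add_mem hg hk) (fun y => by
    rw [ContinuousMap.add_apply, ContinuousMap.add_apply, Complex.add_re]
    exact add_le_add (hg' y) (hk' y))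
  rw [ContinuousMap.add_apply, Complex.add_re] at h1
  linarith

lemma subl_smul_le {c : ℝ} (hc : 0 < c) (w : C(α, ℝ)) : subl A x (c • w) ≤ c * subl A x w := by
  rw [← div_le_iff₀' hc]
  apply le_csInf (domSet_nonempty A x w)
  rintro t ⟨g, hg, hg', rfl⟩
  rw [div_le_iff₀' hc]
  have h1 := subl_le A x (w := c • w) (A.smul_mem hg (c : ℂ)) (fun y => by
    rw [ContinuousMap.smul_apply, ContinuousMap.smul_apply, smul_eq_mul, smul_eq_mul,
      Complex.re_ofReal_mul]
    exact mul_le_mul_of_nonneg_left (hg' y) hc.le)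
  rw [ContinuousMap.smul_apply, smul_eq_mul, Complex.re_ofReal_mul] at h1
  exact h1

lemma subl_smul {c : ℝ} (hc : 0 < c) (w : C(α, ℝ)) : subl A x (c • w) = c * subl A x w := by
  apply le_antisymm (subl_smul_le A x hc w)
  have h1 := subl_smul_le A x (inv_pos.mpr hc) (c • w)
  rw [smul_smul, inv_mul_cancel₀ hc.ne', one_smul] at h1
  rw [inv_mul_eq_div, le_div_iff₀' hc] at h1
  exact h1

/-- the distance function -/
noncomputable def dfun : C(α, ℝ) := ⟨fun y => dist y x, by fun_prop⟩

lemma subl_dfun_pos (hA : IsClosed (A : Set C(α, ℂ))) (hx : ¬ PeakAt A x) : 0 < subl A x (dfun x) := by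
  by_contra hcon
  rw [not_lt] at hcon
  apply hx
  apply bishop A hA x
  intro U hU
  obtain ⟨ε, hε, hsub⟩ := Metric.mem_nhds_iff.mp hU
  obtain ⟨t, ⟨g, hg, hg', rfl⟩, ht⟩ := exists_lt_of_csInf_lt (domSet_nonempty A x (dfun x))
    (show sInf (domSet A x (dfun x)) < ε / 8 by
      have : sInf (domSet A x (dfun x)) ≤ 0 := hcon
      linarith)
  set C : ℝ := 2 / ε with hC
  have hC0 : 0 < C := by positivity
  set Fe : C(α, ℂ) := NormedSpace.exp ((-(C : ℂ)) • g) with hFe
  have hFeA : Fe ∈ A := by
    have h1 := NormedSpace.exp_series_hasSum_exp' (𝕂 := ℂ) ((-(C : ℂ)) • g)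
    apply hA.mem_of_tendsto h1
    apply Eventually.of_forall
    intro s
    exact A.sum_mem (fun n _ => A.smul_mem (A.pow_mem (A.smul_mem hg _) n) _)
  have hev : ∀ y : α, Fe y = Complex.exp (-(C : ℂ) * g y) := by
    intro y
    have h1 := NormedSpace.map_exp (ContinuousMap.evalAlgHom ℂ ℂ y) (continuous_eval_const y)
      ((-(C : ℂ)) • g)
    have h2 : ContinuousMap.evalAlgHom ℂ ℂ y Fe = Fe y := rfl
    have h3 : ContinuousMap.evalAlgHom ℂ ℂ y ((-(C : ℂ)) • g) = -(C : ℂ) * g y := rfl
    rw [← h2, hFe, h1, h3, ← Complex.exp_eq_exp_ℂ]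
  have hn : ∀ y, ‖Fe y‖ = Real.exp (-(C * (g y).re)) := by
    intro y
    rw [hev, Complex.norm_exp]
    congr 1
    rw [← Complex.ofReal_neg, Complex.re_ofReal_mul]
    ring
  refine ⟨Fe, hFeA, ?_, ?_, ?_⟩
  · rw [ContinuousMap.norm_le _ zero_le_one]
    intro y
    rw [hn, Real.exp_le_one_iff]
    have h1 := hg' y
    have h2 : (0 : ℝ) ≤ dist y x := dist_nonneg
    have h3 : dfun x y = dist y x := rfl
    rw [h3] at h1
    nlinarith
  · rw [hn]
    have h1 : C * (g x).re ≤ 1 / 4 := by
      have : C * (g x).re ≤ C * (ε / 8) := mul_le_mul_of_nonneg_left ht.le hC0.le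
      calc C * (g x).re ≤ C * (ε / 8) := this
        _ = 1 / 4 := by rw [hC]; field_simp; norm_num
    have h2 := Real.add_one_le_exp (-(C * (g x).re))
    linarith
  · intro y hy
    rw [hn]
    have h1 := hg' y
    have h3 : dfun x y = dist y x := rfl
    rw [h3] at h1
    have h4 : ε ≤ dist y x := by
      by_contra hcon2
      exact hy (hsub (not_le.mp hcon2))
    have h5 : 2 ≤ C * (g y).re := by
      calc (2 : ℝ) = C * ε := by rw [hC]; field_simp
        _ ≤ C * (g y).re := mul_le_mul_of_nonneg_left (h4.trans h1) hC0.le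
    have h6 : Real.exp (-(C * (g y).re)) ≤ Real.exp (-2) := Real.exp_le_exp.mpr (by linarith)
    have h7 : Real.exp (-2) < 1 / 4 := by
      rw [Real.exp_neg, inv_eq_one_div]
      apply one_div_lt_one_div_of_lt (by norm_num)
      have h8 : Real.exp 2 = Real.exp 1 * Real.exp 1 := by rw [← Real.exp_add]; norm_num
      have h9 := Real.exp_one_gt_d9
      rw [h8]
      nlinarith
    linarith

/-- The positive functional. -/
theorem exists_functional (hA : IsClosed (A : Set C(α, ℂ))) (hx : ¬ PeakAt A x) :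
    ∃ φ : C(α, ℝ) →ₗ[ℝ] ℝ, (∀ w, φ w ≤ subl A x w) ∧ 0 < φ (dfun x) := by
  have hpos := subl_dfun_pos A x hA hx
  have hne : dfun x ≠ 0 := by
    intro h0
    rw [h0] at hpos
    have h1 := subl_le A x (w := 0) (g := 0) A.zero_mem (fun y => by simp)
    simp at h1
    linarith
  obtain ⟨φ, hφ1, hφ2⟩ := exists_extension_of_le_sublinear
    (LinearPMap.mkSpanSingleton (K := ℝ) (dfun x) (subl A x (dfun x)) hne) (subl A x)
    (fun c hc w => subl_smul A x hc w) (subl_add A x) (by
      rintro ⟨v, hv⟩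
      obtain ⟨t, rfl⟩ := Submodule.mem_span_singleton.mp hv
      have h0 : (LinearPMap.mkSpanSingleton (K := ℝ) (L := ℝ) (σ := RingHom.id ℝ) (dfun x)
          (subl A x (dfun x)) hne) ⟨t • dfun x, hv⟩ = t • subl A x (dfun x) :=
        LinearPMap.mkSpanSingleton'_apply _ _ _ _ _
      rw [h0]
      show t • subl A x (dfun x) ≤ subl A x (t • dfun x)
      rw [smul_eq_mul]
      rcases lt_trichotomy t 0 with ht | rfl | ht
      · have h1 := subl_add A x (t • dfun x) ((-t) • dfun x)
        rw [← add_smul, add_neg_cancel, zero_smul, subl_smul A x (neg_pos.mpr ht)] at h1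
        have h2 := le_subl A x 0
        simp only [ContinuousMap.zero_apply] at h2
        linarith
      · rw [zero_mul, zero_smul]
        exact le_subl A x 0
      · rw [subl_smul A x ht])
  refine ⟨φ, hφ2, ?_⟩
  have h1 := hφ1 ⟨dfun x, Submodule.mem_span_singleton_self _⟩
  have h2 : (LinearPMap.mkSpanSingleton (K := ℝ) (L := ℝ) (σ := RingHom.id ℝ) (dfun x)
      (subl A x (dfun x)) hne) ⟨dfun x, Submodule.mem_span_singleton_self _⟩ = subl A x (dfun x) :=
    LinearPMap.mkSpanSingleton'_apply_self _ _ _ _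
  rw [h2] at h1
  simp only at h1
  rw [h1]
  exact hpos

end

section

variable {α : Type*} [MetricSpace α] [CompactSpace α] [MeasurableSpace α] [BorelSpace α]
  (A : Subalgebra ℂ C(α, ℂ)) (x : α)

/-- Riesz representation on a compact space. -/
theorem exists_measure (φ : C(α, ℝ) →ₗ[ℝ] ℝ) (hpos : ∀ w : C(α, ℝ), 0 ≤ w → 0 ≤ φ w) (h1 : φ 1 = 1) :
    ∃ μ : Measure α, IsProbabilityMeasure μ ∧ ∀ w : C(α, ℝ), ∫ y, w y ∂μ = φ w := by
  let toCM : C_c(α, ℝ) →ₗ[ℝ] C(α, ℝ) :=
    { toFun := fun f => f.toContinuousMap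
      map_add' := fun _ _ => rfl
      map_smul' := fun _ _ => rfl }
  let L : C_c(α, ℝ) →ₚ[ℝ] ℝ := PositiveLinearMap.mk₀ (φ ∘ₗ toCM) (fun f hf => hpos _ hf)
  have key : ∀ w : C(α, ℝ), ∫ y, w y ∂(RealRMK.rieszMeasure L) = φ w := by
    intro w
    have := RealRMK.integral_rieszMeasure L (CompactlySupportedContinuousMap.continuousMapEquiv w)
    exact this
  refine ⟨RealRMK.rieszMeasure L, ⟨?_⟩, key⟩
  have h2 := key 1
  rw [h1] at h2
  simp only [ContinuousMap.one_apply, integral_const, smul_eq_mul, mul_one] at h2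
  rw [Measure.real, ENNReal.toReal_eq_one_iff] at h2
  exact h2

/-- A point that is not a peak point has a representing probability measure without mass there. -/
theorem exists_rep (hA : IsClosed (A : Set C(α, ℂ))) (hx : ¬ PeakAt A x) :
    ∃ μ : Measure α, IsProbabilityMeasure μ ∧ μ {x} = 0 ∧ ∀ f ∈ A, ∫ y, f y ∂μ = f x := by
  obtain ⟨φ, hφ, hφd⟩ := exists_functional A x hA hx
  have hpos : ∀ w : C(α, ℝ), 0 ≤ w → 0 ≤ φ w := by
    intro w hw
    have h1 := hφ (-w)
    have h2 := subl_le A x (w := -w) (g := 0) A.zero_mem (fun y => by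
      rw [ContinuousMap.neg_apply]
      have : (0 : C(α, ℝ)) y ≤ w y := hw y
      simp only [ContinuousMap.zero_apply] at this
      simp only [ContinuousMap.zero_apply, Complex.zero_re]
      linarith)
    rw [map_neg] at h1
    simp only [ContinuousMap.zero_apply, Complex.zero_re] at h2
    linarith
  -- the functional represents real parts
  have hre : ∀ f ∈ A, ∀ w : C(α, ℝ), (∀ y, w y = (f y).re) → φ w = (f x).re := by
    intro f hf w hw
    apply le_antisymm
    · exact (hφ w).trans (subl_le A x hf (fun y => (hw y).le))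
    · have h1 := hφ (-w)
      have h2 := subl_le A x (w := -w) (A.neg_mem hf) (fun y => by
        rw [ContinuousMap.neg_apply, ContinuousMap.neg_apply, hw y, Complex.neg_re])
      rw [ContinuousMap.neg_apply, Complex.neg_re] at h2
      rw [map_neg] at h1
      linarith
  have h1 : φ 1 = 1 := by
    have := hre 1 A.one_mem 1 (fun y => by simp)
    simpa using this
  obtain ⟨ν, hν, hνi⟩ := exists_measure φ hpos h1
  -- representation of complex functions
  have hint : ∀ f : C(α, ℂ), Integrable (fun y => f y) ν := by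
    intro f
    exact (f.continuous.integrable_of_hasCompactSupport (HasCompactSupport.of_compactSpace _))
  have hrep : ∀ f ∈ A, ∫ y, f y ∂ν = f x := by
    intro f hf
    apply Complex.ext
    · have h2 := hre f hf ⟨fun y => (f y).re, by fun_prop⟩ (fun y => rfl)
      rw [← hνi] at h2
      rw [← h2]
      exact (integral_re (hint f)).symm
    · have h2 := hre ((-I : ℂ) • f) (A.smul_mem hf _) ⟨fun y => (f y).im, by fun_prop⟩ (fun y => by
        rw [ContinuousMap.smul_apply, smul_eq_mul]
        simp)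
      rw [← hνi] at h2
      have h3 : (((-I : ℂ) • f) x).re = (f x).im := by
        rw [ContinuousMap.smul_apply, smul_eq_mul]
        simp
      rw [h3] at h2
      rw [← h2]
      exact (integral_im (hint f)).symm
  -- mass away from x
  have hmass : ν {x}ᶜ ≠ 0 := by
    intro h0
    have h2 : ∫ y, dfun x y ∂ν = 0 := by
      apply integral_eq_zero_of_ae
      rw [measure_eq_zero_iff_ae_notMem] at h0
      filter_upwards [h0] with y hy
      have hyx : y = x := by simpa using hy
      rw [hyx]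
      show dist x x = 0
      exact dist_self x
    rw [hνi] at h2
    linarith
  refine ⟨ProbabilityTheory.cond ν {x}ᶜ, ProbabilityTheory.cond_isProbabilityMeasure hmass, ?_, ?_⟩
  · rw [ProbabilityTheory.cond_apply (measurableSet_singleton x).compl]
    simp
  · intro f hf
    rw [ProbabilityTheory.cond, integral_smul_measure]
    have h2 := integral_add_compl (measurableSet_singleton x) (hint f)
    rw [hrep f hf, integral_singleton] at h2
    have h3 : ν.real {x} + ν.real {x}ᶜ = 1 := by
      rw [measureReal_add_measureReal_compl (measurableSet_singleton x)]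
      simp
    have h4 : ν.real {x}ᶜ ≠ 0 := by
      rw [Measure.real, ENNReal.toReal_ne_zero]
      exact ⟨hmass, measure_ne_top _ _⟩
    have h5 : ∫ y in {x}ᶜ, f y ∂ν = (ν.real {x}ᶜ) • f x := by
      have h6 : ν.real {x}ᶜ = 1 - ν.real {x} := by linarith
      rw [h6, sub_smul, one_smul, eq_sub_iff_add_eq', h2]
    rw [h5, smul_smul, ENNReal.toReal_inv]
    have : (ν {x}ᶜ).toReal⁻¹ * ν.real {x}ᶜ = 1 := inv_mul_cancel₀ h4
    rw [this, one_smul]

end

end Pool.Agent.Helper56.Swiss
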