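import Mathlib
import Pool.Agent.Helper56.Swiss.Defs
import Pool.Agent.Helper56.Swiss.Rep
import Pool.Agent.Helper56.Swiss.Dens

/-! From rational functions to the algebra `R(X)`. -/

namespace Pool.Agent.Helper56.Swiss

open Metric Set Filter Topology Complex MeasureTheory TopologicalSpace

/-- If rational functions bounded by one tend to `1` at `x` and to `w ≠ 1` at `y`, then `x`, `y` are
not related. -/
theorem not_Bd_of_tendsto {K : Set ℂ} {x y : ℂ} (hx : x ∈ K) (hy : y ∈ K) {g : ℕ → ℂ → ℂ}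
    (hg : ∀ n, RatOn K (g n)) (hgb : ∀ n, ∀ z ∈ K, ‖g n z‖ ≤ 1)
    (hx2 : Tendsto (fun n => g n x) atTop (𝓝 1)) {w : ℂ}
    (hy2 : Tendsto (fun n => g n y) atTop (𝓝 w)) (hw0 : w ≠ 1) {c : ℝ} (hc : c < 2) (hb : Bd K x y c) :
    False := by
  have hw1 : ‖w‖ ≤ 1 := le_of_tendsto' hy2.norm (fun n => hgb n y hy)
  have key : ∀ t : ℝ, 0 ≤ t → t < 1 → ‖(1 - t) / (1 - t * 1) - (w - t) / (1 - t * w)‖ ≤ c := by
    intro t ht0 ht1
    have hden : ∀ v : ℂ, ‖v‖ ≤ 1 → (1 : ℂ) - t * v ≠ 0 := by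
      intro v hv h0
      have h1 : (1 : ℂ) = t * v := by linear_combination h0
      have h2 : (1 : ℝ) = t * ‖v‖ := by
        have := congrArg norm h1
        rw [norm_one, norm_mul, Complex.norm_real, Real.norm_of_nonneg ht0] at this
        exact this
      nlinarith
    have h3 : Tendsto (fun n => (g n x - t) / (1 - t * g n x)) atTop (𝓝 ((1 - t) / (1 - t * 1))) :=
      (hx2.sub_const _).div (tendsto_const_nhds.sub (hx2.const_mul _)) (hden 1 (by simp))
    have h4 : Tendsto (fun n => (g n y - t) / (1 - t * g n y)) atTop (𝓝 ((w - t) / (1 - t * w))) :=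
      (hy2.sub_const _).div (tendsto_const_nhds.sub (hy2.const_mul _)) (hden w hw1)
    refine le_of_tendsto' (h3.sub h4).norm (fun n => ?_)
    obtain ⟨G, hG, hGb, hGv⟩ := (hg n).moebius (hgb n) ht0 ht1
    rw [← hGv x hx, ← hGv y hy]
    exact hb G hG hGb
  have h5 : Tendsto (fun t : ℝ => ‖(1 : ℂ) - (w - t) / (1 - t * w)‖) (𝓝 1)
      (𝓝 ‖(1 : ℂ) - (w - 1) / (1 - 1 * w)‖) := by
    have hne : (1 : ℂ) - ((1 : ℝ) : ℂ) * w ≠ 0 := by
      intro h0
      apply hw0
      push_cast at h0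
      linear_combination -h0
    have hcont : ContinuousAt (fun t : ℝ => ‖(1 : ℂ) - (w - t) / (1 - t * w)‖) 1 := by
      apply ContinuousAt.norm
      apply ContinuousAt.sub continuousAt_const
      apply ContinuousAt.div
      · exact continuousAt_const.sub Complex.continuous_ofReal.continuousAt
      · exact continuousAt_const.sub (Complex.continuous_ofReal.continuousAt.mul continuousAt_const)
      · exact hne
    have := hcont.tendsto
    push_cast at this
    exact this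
  have h6 : ‖(1 : ℂ) - (w - 1) / (1 - 1 * w)‖ = 2 := by
    have hne : (1 : ℂ) - w ≠ 0 := by
      intro h0
      apply hw0
      linear_combination -h0
    have : (1 : ℂ) - (w - 1) / (1 - 1 * w) = 2 := by
      rw [one_mul]
      field_simp
      ring
    rw [this]
    norm_num
  rw [h6] at h5
  have h8 : Tendsto (fun t : ℝ => ‖(1 : ℂ) - (w - t) / (1 - t * w)‖) (𝓝[<] 1) (𝓝 2) :=
    h5.mono_left nhdsWithin_le_nhds
  have h7 : (2 : ℝ) ≤ c := by
    refine le_of_tendsto h8 ?_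
    have h9 : ∀ᶠ t in 𝓝[<] (1 : ℝ), t ∈ Ioo (0 : ℝ) 1 := Ioo_mem_nhdsLT (by norm_num)
    filter_upwards [h9] with t ht
    have h10 := key t ht.1.le ht.2
    have h11 : ((1 : ℂ) - t) / (1 - t * 1) = 1 := by
      rw [mul_one]
      apply div_self
      intro h0
      have : ((1 - t : ℝ) : ℂ) = 0 := by push_cast; exact h0
      have := Complex.ofReal_eq_zero.mp this
      linarith [ht.2]
    rwa [h11] at h10
  linarith

section

variable {X : Compacts ℂ}

/-- A rational function as an element of `C(X)`. -/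
noncomputable def mkC (X : Compacts ℂ) (F : ℂ → ℂ) (hF : RatOn (X : Set ℂ) F) : C(X, ℂ) :=
  ⟨fun z => F z, by
    rw [continuous_iff_continuousAt]
    intro z
    exact (hF.differentiableAt z.2).continuousAt.comp continuous_subtype_val.continuousAt⟩

lemma mkC_mem (F : ℂ → ℂ) (hF : RatOn (X : Set ℂ) F) : mkC X F hF ∈ ratAlg X := by
  obtain ⟨P, Q, hQ, hfe⟩ := hF
  exact ⟨P, Q, hQ, fun z => hfe z⟩

lemma ratAlg_le : ratAlg X ≤ RAlg X := Subalgebra.le_topologicalClosure _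

lemma isClosed_RAlg : IsClosed (RAlg X : Set C(X, ℂ)) := Subalgebra.isClosed_topologicalClosure _

lemma exists_ratOn {f : C(X, ℂ)} (hf : f ∈ ratAlg X) :
    ∃ F, RatOn (X : Set ℂ) F ∧ ∀ z : X, f z = F z := by
  obtain ⟨P, Q, hQ, hfe⟩ := hf
  exact ⟨fun z => P.eval z / Q.eval z, ⟨P, Q, hQ, fun _ => rfl⟩, hfe⟩

lemma exists_seq {f : C(X, ℂ)} (hf : f ∈ RAlg X) :
    ∃ g : ℕ → C(X, ℂ), (∀ n, g n ∈ ratAlg X) ∧ Tendsto g atTop (𝓝 f) := by
  have h1 : f ∈ closure (ratAlg X : Set C(X, ℂ)) := by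
    rw [← Subalgebra.topologicalClosure_coe]
    exact hf
  exact mem_closure_iff_seq_limit.mp h1

/-- the Gleason bound for the algebra -/
lemma Bd.norm_le {x y : X} {c : ℝ} (h : Bd (X : Set ℂ) x y c) : ‖evalAt X x - evalAt X y‖ ≤ c := by
  have hc0 : 0 ≤ c := by
    have := h _ (RatOn.zero _) (fun z _ => by simp)
    simpa using this
  apply ContinuousLinearMap.opNorm_le_bound _ hc0
  rintro ⟨f, hf⟩
  show ‖f x - f y‖ ≤ c * ‖f‖
  -- first for rational functions
  have hrat : ∀ g ∈ ratAlg X, ‖g x - g y‖ ≤ c * ‖g‖ := by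
    intro g hg
    obtain ⟨F, hF, hFe⟩ := exists_ratOn hg
    by_cases hg0 : g = 0
    · rw [hg0]
      simp
    have hgp : 0 < ‖g‖ := norm_pos_iff.mpr hg0
    have h1 := h (fun z => ((‖g‖ : ℝ) : ℂ)⁻¹ * F z) (hF.const_mul _) (by
      intro z hz
      show ‖((‖g‖ : ℝ) : ℂ)⁻¹ * F z‖ ≤ 1
      rw [norm_mul, norm_inv, Complex.norm_real, norm_norm, inv_mul_le_iff₀ hgp, mul_one,
        ← hFe ⟨z, hz⟩]
      exact ContinuousMap.norm_coe_le_norm g _)
    have h2 : ‖((‖g‖ : ℝ) : ℂ)⁻¹ * F x - ((‖g‖ : ℝ) : ℂ)⁻¹ * F y‖ = ‖g‖⁻¹ * ‖F x - F y‖ := by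
      rw [← mul_sub, norm_mul, norm_inv, Complex.norm_real, norm_norm]
    rw [h2, inv_mul_le_iff₀ hgp] at h1
    rw [hFe x, hFe y]
    linarith
  obtain ⟨g, hg, hgt⟩ := exists_seq hf
  have h1 : Tendsto (fun n => ‖g n x - g n y‖) atTop (𝓝 ‖f x - f y‖) := by
    apply Tendsto.norm
    apply Tendsto.sub
    · exact ((continuous_eval_const x).tendsto f).comp hgt
    · exact ((continuous_eval_const y).tendsto f).comp hgt
  have h2 : Tendsto (fun n => c * ‖g n‖) atTop (𝓝 (c * ‖f‖)) := hgt.norm.const_mul c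
  exact le_of_tendsto_of_tendsto' h1 h2 (fun n => hrat _ (hg n))

lemma mem_part_of_Gl {x y : X} (h : Gl (X : Set ℂ) x y) : y ∈ gleasonPart X x := by
  obtain ⟨c, hc, h⟩ := h
  exact lt_of_le_of_lt h.norm_le hc

lemma Bd_of_norm {x y : X} : Bd (X : Set ℂ) x y ‖evalAt X x - evalAt X y‖ := by
  intro f hf hfb
  have h1 := (evalAt X x - evalAt X y).le_opNorm ⟨mkC X f hf, ratAlg_le (mkC_mem f hf)⟩
  have h2 : ‖(⟨mkC X f hf, ratAlg_le (mkC_mem f hf)⟩ : RAlg X)‖ ≤ 1 := by
    show ‖mkC X f hf‖ ≤ 1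
    rw [ContinuousMap.norm_le _ zero_le_one]
    intro z
    exact hfb z z.2
  have h3 : ‖f x - f y‖ = ‖(evalAt X x - evalAt X y) ⟨mkC X f hf, ratAlg_le (mkC_mem f hf)⟩‖ := rfl
  rw [h3]
  refine h1.trans ?_
  have h4 := norm_nonneg (evalAt X x - evalAt X y)
  nlinarith

lemma Gl_of_mem_part {x y : X} (h : y ∈ gleasonPart X x) : Gl (X : Set ℂ) x y := ⟨_, h, Bd_of_norm⟩

/-- A peak point is alone in its part. -/
theorem not_Gl_of_peak {x y : X} (hx : IsPeakPoint X x) (hxy : y ≠ x) : ¬ Gl (X : Set ℂ) x y := by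
  rintro ⟨c, hc, hb⟩
  obtain ⟨f, hf, hfx, hfy⟩ := hx
  obtain ⟨g, hg, hgt⟩ := exists_seq hf
  have hf1 : ‖f‖ ≤ 1 := by
    rw [ContinuousMap.norm_le _ zero_le_one]
    intro z
    by_cases hz : z = x
    · rw [hz, hfx, norm_one]
    · exact (hfy z hz).le
  choose F hF hFe using fun n => exists_ratOn (hg n)
  -- normalizing factors
  have hs : ∀ n, 0 < 1 + ‖g n - f‖ := fun n => by positivity
  have hst : Tendsto (fun n => (((1 + ‖g n - f‖ : ℝ) : ℂ))⁻¹) atTop (𝓝 1) := by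
    have h1 : Tendsto (fun n => ‖g n - f‖) atTop (𝓝 0) := tendsto_iff_norm_sub_tendsto_zero.mp hgt
    have h2 : Tendsto (fun n => (1 + ‖g n - f‖ : ℝ)) atTop (𝓝 1) := by
      have := h1.const_add 1
      rwa [add_zero] at this
    have h4 : Tendsto (fun n => ((1 + ‖g n - f‖ : ℝ) : ℂ)) atTop (𝓝 ((1 : ℝ) : ℂ)) :=
      (Complex.continuous_ofReal.tendsto 1).comp h2
    have h3 := h4.inv₀ (by rw [Complex.ofReal_one]; exact one_ne_zero)
    rw [Complex.ofReal_one, inv_one] at h3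
    exact h3
  refine not_Bd_of_tendsto (K := (X : Set ℂ)) (x := x) (y := y) x.2 y.2
    (g := fun n z => (((1 + ‖g n - f‖ : ℝ) : ℂ))⁻¹ * F n z)
    (fun n => (hF n).const_mul _) ?_ ?_ (w := f y) ?_ ?_ hc hb
  · intro n z hz
    show ‖(((1 + ‖g n - f‖ : ℝ) : ℂ))⁻¹ * F n z‖ ≤ 1
    rw [norm_mul, norm_inv, Complex.norm_real, Real.norm_of_nonneg (hs n).le,
      inv_mul_le_iff₀ (hs n), mul_one, ← hFe n ⟨z, hz⟩]
    calc ‖g n ⟨z, hz⟩‖ ≤ ‖g n‖ := ContinuousMap.norm_coe_le_norm _ _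
      _ = ‖f + (g n - f)‖ := by rw [add_sub_cancel]
      _ ≤ ‖f‖ + ‖g n - f‖ := norm_add_le _ _
      _ ≤ 1 + ‖g n - f‖ := by linarith
  · have h1 : Tendsto (fun n => F n x) atTop (𝓝 (f x)) := by
      have := ((continuous_eval_const x).tendsto f).comp hgt
      exact this.congr (fun n => hFe n x)
    have h2 := hst.mul h1
    rw [hfx, one_mul] at h2
    exact h2
  · have h1 : Tendsto (fun n => F n y) atTop (𝓝 (f y)) := by
      have := ((continuous_eval_const y).tendsto f).comp hgt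
      exact this.congr (fun n => hFe n y)
    have h2 := hst.mul h1
    rw [one_mul] at h2
    exact h2
  · intro h1
    have := hfy y hxy
    rw [h1, norm_one] at this
    exact lt_irrefl _ this

/-- The part of a point that is not a peak point is not null. -/
theorem part_not_null' {x : X} (hx : ¬ IsPeakPoint X x) :
    volume {y ∈ (X : Set ℂ) | Gl (X : Set ℂ) x y} ≠ 0 := by
  obtain ⟨μ, hμ, hμx, hrep⟩ := exists_rep (RAlg X) x isClosed_RAlg hx
  have hme : MeasurableEmbedding (Subtype.val : X → ℂ) :=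
    MeasurableEmbedding.subtype_coe X.isCompact.measurableSet
  have hprob : IsProbabilityMeasure (μ.map (Subtype.val : X → ℂ)) :=
    Measure.isProbabilityMeasure_map hme.measurable.aemeasurable
  apply part_not_null x.2 (μ.map (Subtype.val : X → ℂ))
  · rw [hme.map_apply]
    have : (Subtype.val : X → ℂ) ⁻¹' ((X : Set ℂ)ᶜ) = ∅ := by
      ext z
      simp
    rw [this, measure_empty]
  · rw [hme.map_apply]
    have : (Subtype.val : X → ℂ) ⁻¹' {(x : ℂ)} = {x} := by
      ext z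
      rw [mem_preimage, mem_singleton_iff, mem_singleton_iff]
      exact Subtype.ext_iff.symm
    rw [this, hμx]
  · intro f hf
    rw [hme.integral_map]
    exact hrep (mkC X f hf) (ratAlg_le (mkC_mem f hf))

end

end Pool.Agent.Helper56.Swiss
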