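import Mathlib
import Pool.Agent.Helper56.Swiss.Partial

/-! Removal of finitely many small discs: comparison of the Gleason bounds. -/

namespace Pool.Agent.Helper56.Swiss

open Metric Set Filter Topology Complex

/-- Cauchy integral over the circle, as a function of `x`. -/
noncomputable def CI (v : ℂ → ℂ) (a : ℂ) (r : ℝ) (x : ℂ) : ℂ :=
  (2 * Real.pi * I : ℂ)⁻¹ • ∮ z in C(a, r), v z / (z - x)

lemma sub_ne_of_sphere {a x z : ℂ} {r : ℝ} (hx : r < ‖x - a‖) (hz : z ∈ closedBall a r) : z - x ≠ 0 := by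
  intro h0
  have : z = x := by linear_combination h0
  rw [this, mem_closedBall, dist_eq_norm] at hz
  linarith

lemma CI_eq_zero {v : ℂ → ℂ} {a x : ℂ} {r : ℝ} (hr : 0 ≤ r) (hx : r < ‖x - a‖)
    (hv : ∀ z ∈ closedBall a r, DifferentiableAt ℂ v z) : CI v a r x = 0 := by
  unfold CI
  have hd : ∀ z ∈ closedBall a r, DifferentiableAt ℂ (fun z => v z / (z - x)) z := by
    intro z hz
    exact (hv z hz).div (differentiableAt_id.sub_const x) (sub_ne_of_sphere hx hz)
  rw [circleIntegral_eq_zero_of_differentiable_on_off_countable hr countable_empty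
    (fun z hz => (hd z hz).continuousAt.continuousWithinAt)
    (fun z hz => hd z (ball_subset_closedBall hz.1)), smul_zero]

lemma CI_bound {v : ℂ → ℂ} {a x : ℂ} {r : ℝ} (hr : 0 ≤ r) (hx : r < ‖x - a‖)
    (hv : ∀ z ∈ sphere a r, ‖v z‖ ≤ 1) : ‖CI v a r x‖ ≤ r / (‖x - a‖ - r) := by
  unfold CI
  have h1 := circleIntegral.norm_two_pi_i_inv_smul_integral_le_of_norm_le_const
    (f := fun z => v z / (z - x)) (c := a) (R := r) (C := 1 / (‖x - a‖ - r)) hr (by
      intro z hz
      have h2 : ‖x - a‖ - r ≤ ‖z - x‖ := by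
        rw [mem_sphere, dist_eq_norm] at hz
        have : ‖x - a‖ ≤ ‖z - x‖ + ‖z - a‖ := by
          have e : x - a = -(z - x) + (z - a) := by ring
          calc ‖x - a‖ = ‖-(z - x) + (z - a)‖ := by rw [← e]
            _ ≤ ‖-(z - x)‖ + ‖z - a‖ := norm_add_le _ _
            _ = ‖z - x‖ + ‖z - a‖ := by rw [norm_neg]
        linarith
      rw [norm_div]
      apply div_le_div₀ (by norm_num) (hv z hz) (by linarith) h2)
  calc _ ≤ r * (1 / (‖x - a‖ - r)) := h1
    _ = r / (‖x - a‖ - r) := by ring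

/-- The interior pole. -/
lemma CI_pole {a p x : ℂ} {r : ℝ} (hp : p ∈ ball a r) (hx : r < ‖x - a‖) (k : ℕ) :
    CI (fun z => ((z - p) ^ (k + 1))⁻¹) a r x = -((x - p) ^ (k + 1))⁻¹ := by
  have hr : 0 < r := nonempty_ball.mp ⟨p, hp⟩
  have hxp : x - p ≠ 0 := by
    intro h0
    have : x = p := by linear_combination h0
    rw [this, ← dist_eq_norm] at hx
    rw [mem_ball] at hp
    linarith
  have hne : (2 * Real.pi * I : ℂ) ≠ 0 := by
    simp [Real.pi_ne_zero, I_ne_zero]
  have hsp : ∀ z ∈ sphere a r, z - p ≠ 0 := by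
    intro z hz h0
    have : z = p := by linear_combination h0
    rw [this, mem_sphere] at hz
    rw [mem_ball] at hp
    linarith
  have hsx : ∀ z ∈ sphere a r, z - x ≠ 0 := fun z hz => sub_ne_of_sphere hx (sphere_subset_closedBall hz)
  have hci1 : ∀ k : ℕ, CircleIntegrable (fun z => ((z - p) ^ k)⁻¹ / (z - x)) a r := by
    intro k
    apply ContinuousOn.circleIntegrable hr.le
    apply ContinuousOn.div
    · apply ContinuousOn.inv₀ (by fun_prop)
      intro z hz
      exact pow_ne_zero _ (hsp z hz)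
    · fun_prop
    · exact hsx
  have hci2 : ∀ k : ℕ, CircleIntegrable (fun z => ((z - p) ^ k)⁻¹) a r := by
    intro k
    apply ContinuousOn.circleIntegrable hr.le
    apply ContinuousOn.inv₀ (by fun_prop)
    intro z hz
    exact pow_ne_zero _ (hsp z hz)
  -- recursion
  have hrec : ∀ k : ℕ, (∮ z in C(a, r), ((z - p) ^ (k + 1))⁻¹ / (z - x)) =
      (x - p)⁻¹ * ((∮ z in C(a, r), ((z - p) ^ k)⁻¹ / (z - x)) - ∮ z in C(a, r), ((z - p) ^ (k + 1))⁻¹) := by
    intro k
    rw [← circleIntegral.integral_sub (hci1 k) (hci2 (k + 1)), ← circleIntegral.integral_const_mul]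
    apply circleIntegral.integral_congr hr.le
    intro z hz
    have h1 := hsp z hz
    have h2 := hsx z hz
    simp only
    field_simp
    ring
  have hpow : ∀ k : ℕ, (∮ z in C(a, r), ((z - p) ^ (k + 2))⁻¹) = 0 := by
    intro k
    have := circleIntegral.integral_sub_zpow_of_ne (n := -((k : ℤ) + 2)) (by omega) a p r
    rw [← this]
    apply circleIntegral.integral_congr hr.le
    intro z _
    simp only
    rw [zpow_neg]
    norm_cast
  have h0 : (∮ z in C(a, r), ((z - p) ^ 0)⁻¹ / (z - x)) = 0 := by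
    have := CI_eq_zero (v := fun _ => (1 : ℂ)) hr.le hx (fun z _ => differentiableAt_const _)
    unfold CI at this
    have h2 := (smul_eq_zero.mp this).resolve_left (inv_ne_zero hne)
    simpa using h2
  have h1 : (∮ z in C(a, r), ((z - p) ^ 1)⁻¹) = 2 * Real.pi * I := by
    simpa using circleIntegral.integral_sub_inv_of_mem_ball hp
  have hmain : ∀ k : ℕ, (∮ z in C(a, r), ((z - p) ^ (k + 1))⁻¹ / (z - x)) =
      -(2 * Real.pi * I) * ((x - p) ^ (k + 1))⁻¹ := by
    intro k
    induction k with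
    | zero =>
      rw [hrec 0, h0, zero_add, h1, pow_one]
      ring
    | succ k ih =>
      rw [hrec (k + 1), ih, hpow k, sub_zero]
      field_simp
      ring
  unfold CI
  rw [hmain k, smul_eq_mul]
  field_simp

section remove

variable {K : Set ℂ} {Λ : Finset ℂ} {r : ℝ}

/-- The set with the discs removed. -/
def Rem (K : Set ℂ) (Λ : Finset ℂ) (r : ℝ) : Set ℂ := K \ ⋃ a ∈ Λ, ball a r

lemma mem_Rem {z : ℂ} : z ∈ Rem K Λ r ↔ z ∈ K ∧ ∀ a ∈ Λ, r ≤ ‖z - a‖ := by
  unfold Rem
  simp only [Set.mem_sdiff, mem_iUnion, mem_ball, dist_eq_norm, exists_prop, not_exists, not_and, not_lt]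

lemma sphere_sub (hΛ : ∀ a ∈ Λ, closedBall a r ⊆ interior K)
    (hdis : ∀ a ∈ Λ, ∀ b ∈ Λ, a ≠ b → 2 * r < dist a b) {a : ℂ} (ha : a ∈ Λ) :
    sphere a r ⊆ Rem K Λ r := by
  intro z hz
  rw [mem_Rem]
  refine ⟨interior_subset (hΛ a ha (sphere_subset_closedBall hz)), fun b hb => ?_⟩
  rw [mem_sphere] at hz
  rw [← dist_eq_norm]
  by_cases hab : a = b
  · rw [← hab, hz]
  · have h1 := hdis a ha b hb hab
    have h2 := dist_triangle_left a b z
    rw [hz] at h2
    linarith

lemma Simp.continuousOn {v : ℂ → ℂ} (hv : v ∈ Simp K) : ContinuousOn v K := by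
  induction hv using Submodule.span_induction with
  | mem f hf =>
    rcases hf with ⟨k, rfl⟩ | ⟨q, hq, k, rfl⟩
    · fun_prop
    · apply ContinuousOn.inv₀ (by fun_prop)
      intro z hz
      exact pow_ne_zero _ (sub_ne_of_mem hq hz)
  | zero => exact continuousOn_const
  | add f g _ _ hf hg => exact hf.add hg
  | smul c f _ hf => exact hf.const_smul c

/-- Decomposition of a simple function. -/
theorem Simp.decomp (hr : 0 < r) (hΛ : ∀ a ∈ Λ, closedBall a r ⊆ interior K)
    (hdis : ∀ a ∈ Λ, ∀ b ∈ Λ, a ≠ b → 2 * r < dist a b) {v : ℂ → ℂ} (hv : v ∈ Simp (Rem K Λ r)) :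
    ∃ g, RatOn K g ∧ ∀ x ∈ Rem K Λ r, (∀ a ∈ Λ, r < ‖x - a‖) → g x = v x + ∑ a ∈ Λ, CI v a r x := by
  have hsub := fun {a : ℂ} (ha : a ∈ Λ) => sphere_sub hΛ hdis ha
  have hRK : Rem K Λ r ⊆ K := sdiff_subset
  have hint : ∀ {w : ℂ → ℂ}, w ∈ Simp (Rem K Λ r) → ∀ a ∈ Λ, ∀ x, r < ‖x - a‖ →
      CircleIntegrable (fun z => w z / (z - x)) a r := by
    intro w hw a ha x hx
    apply ContinuousOn.circleIntegrable hr.le
    apply ContinuousOn.div
    · exact (Simp.continuousOn hw).mono (hsub ha)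
    · fun_prop
    · intro z hz
      exact sub_ne_of_sphere hx (sphere_subset_closedBall hz)
  induction hv using Submodule.span_induction with
  | mem f hf =>
    rcases hf with ⟨k, rfl⟩ | ⟨q, hq, k, rfl⟩
    · refine ⟨_, RatOn.pow_id K k, fun x _ hx => ?_⟩
      rw [Finset.sum_eq_zero, add_zero]
      intro a ha
      exact CI_eq_zero hr.le (hx a ha) (fun z _ => by fun_prop)
    · by_cases hqK : q ∈ K
      · -- the pole lies in one of the discs
        have h1 : ∃ a ∈ Λ, q ∈ ball a r := by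
          by_contra hcon
          push Not at hcon
          apply hq
          rw [mem_Rem]
          refine ⟨hqK, fun a ha => ?_⟩
          have := hcon a ha
          rw [mem_ball, not_lt, dist_eq_norm] at this
          exact this
        obtain ⟨b, hb, hqb⟩ := h1
        refine ⟨_, RatOn.zero K, fun x _ hx => ?_⟩
        rw [Finset.sum_eq_single b]
        · rw [CI_pole hqb (hx b hb)]; ring
        · intro a ha hab
          apply CI_eq_zero hr.le (hx a ha)
          intro z hz
          have hzq : z - q ≠ 0 := by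
            intro h0
            have hz' : z = q := by linear_combination h0
            rw [hz', mem_closedBall] at hz
            rw [mem_ball] at hqb
            have h2 := hdis a ha b hb hab
            have h3 := dist_triangle_left a b q
            linarith
          exact ((differentiableAt_id.sub_const q).pow _).inv (pow_ne_zero _ hzq)
        · intro h; exact absurd hb h
      · refine ⟨_, RatOn.inv_pow hqK (k + 1), fun x _ hx => ?_⟩
        rw [Finset.sum_eq_zero, add_zero]
        intro a ha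
        apply CI_eq_zero hr.le (hx a ha)
        intro z hz
        have hzq : z - q ≠ 0 := sub_ne_of_mem hqK (interior_subset (hΛ a ha hz))
        exact ((differentiableAt_id.sub_const q).pow _).inv (pow_ne_zero _ hzq)
  | zero =>
    refine ⟨_, RatOn.zero K, fun x _ hx => ?_⟩
    rw [Finset.sum_eq_zero]
    · simp
    · intro a ha
      exact CI_eq_zero hr.le (hx a ha) (fun z _ => differentiableAt_const _)
  | add f g hf hg ihf ihg =>
    obtain ⟨g1, hg1, h1⟩ := ihf
    obtain ⟨g2, hg2, h2⟩ := ihg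
    obtain ⟨G, hG, hGe⟩ := hg1.add hg2
    refine ⟨G, hG, fun x hxR hx => ?_⟩
    rw [hGe x (hRK hxR), h1 x hxR hx, h2 x hxR hx]
    have h3 : ∀ a ∈ Λ, CI (f + g) a r x = CI f a r x + CI g a r x := by
      intro a ha
      unfold CI
      rw [← smul_add, ← circleIntegral.integral_add (hint hf a ha x (hx a ha)) (hint hg a ha x (hx a ha))]
      congr 1
      apply circleIntegral.integral_congr hr.le
      intro z _
      simp only [Pi.add_apply]
      ring
    rw [Finset.sum_congr rfl h3, Finset.sum_add_distrib]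
    simp only [Pi.add_apply]
    ring
  | smul c f hf ih =>
    obtain ⟨g1, hg1, h1⟩ := ih
    refine ⟨_, hg1.const_mul c, fun x hxR hx => ?_⟩
    show c * g1 x = _
    rw [h1 x hxR hx]
    have h3 : ∀ a ∈ Λ, CI (c • f) a r x = c * CI f a r x := by
      intro a ha
      unfold CI
      have : (∮ z in C(a, r), (c • f) z / (z - x)) = c * ∮ z in C(a, r), f z / (z - x) := by
        rw [← circleIntegral.integral_const_mul]
        apply circleIntegral.integral_congr hr.le
        intro z _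
        simp only [Pi.smul_apply, smul_eq_mul]
        ring
      rw [this]
      simp only [smul_eq_mul]
      ring
    rw [Finset.sum_congr rfl h3, ← Finset.mul_sum]
    simp only [Pi.smul_apply, smul_eq_mul]
    ring

/-- Maximum principle. -/
lemma RatOn.max_principle (hK : IsCompact K) {g : ℂ → ℂ} (hg : RatOn K g) {M : ℝ}
    (hM : ∀ z ∈ frontier K, ‖g z‖ ≤ M) : ∀ z ∈ K, ‖g z‖ ≤ M := by
  intro z hz
  by_cases hzi : z ∈ interior K
  · have hb : Bornology.IsBounded (interior K) := hK.isBounded.subset interior_subset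
    have hcl : closure (interior K) ⊆ K := closure_minimal interior_subset hK.isClosed
    have hd : DiffContOnCl ℂ g (interior K) := by
      refine ⟨fun w hw => (hg.differentiableAt (interior_subset hw)).differentiableWithinAt,
        fun w hw => (hg.differentiableAt (hcl hw)).continuousAt.continuousWithinAt⟩
    exact Complex.norm_le_of_forall_mem_frontier_norm_le hb hd
      (fun w hw => hM w (frontier_interior_subset hw)) (subset_closure hzi)
  · apply hM
    exact ⟨subset_closure hz, hzi⟩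

/-- Comparison of the Gleason bounds before and after removing the discs. -/
theorem Bd.remove (hK : IsCompact K) (hr : 0 < r) (hΛ : ∀ a ∈ Λ, closedBall a r ⊆ interior K)
    (hdis : ∀ a ∈ Λ, ∀ b ∈ Λ, a ≠ b → 2 * r < dist a b) {M : ℝ} (hM0 : 0 ≤ M)
    (hM : ∀ z ∈ frontier K, ∑ a ∈ Λ, r / (‖z - a‖ - r) ≤ M) {x y : ℂ} {c : ℝ} (hc : Bd K x y c)
    (hx : x ∈ Rem K Λ r) (hxa : ∀ a ∈ Λ, r < ‖x - a‖) (hy : y ∈ Rem K Λ r)
    (hya : ∀ a ∈ Λ, r < ‖y - a‖) :
    Bd (Rem K Λ r) x y ((1 + M) * c + (∑ a ∈ Λ, r / (‖x - a‖ - r)) + ∑ a ∈ Λ, r / (‖y - a‖ - r)) := by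
  intro f hf hfb
  obtain ⟨v, hv, hfv⟩ := hf.exists_simp
  obtain ⟨g, hg, hgv⟩ := Simp.decomp hr hΛ hdis hv
  have hvb : ∀ a ∈ Λ, ∀ z ∈ sphere a r, ‖v z‖ ≤ 1 := by
    intro a ha z hz
    have hzR := sphere_sub hΛ hdis ha hz
    rw [← hfv z hzR]
    exact hfb z hzR
  have hclose : ∀ z ∈ Rem K Λ r, (∀ a ∈ Λ, r < ‖z - a‖) →
      ‖g z - f z‖ ≤ ∑ a ∈ Λ, r / (‖z - a‖ - r) := by
    intro z hz hza
    rw [hgv z hz hza, hfv z hz, add_sub_cancel_left]
    refine (norm_sum_le _ _).trans (Finset.sum_le_sum fun a ha => ?_)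
    exact CI_bound hr.le (hza a ha) (hvb a ha)
  -- on the frontier of K
  have hfr : ∀ z ∈ frontier K, ‖g z‖ ≤ 1 + M := by
    intro z hz
    have hzK : z ∈ K := hK.isClosed.frontier_subset hz
    have hza : ∀ a ∈ Λ, r < ‖z - a‖ := by
      intro a ha
      by_contra hcon
      rw [not_lt, ← dist_eq_norm, ← mem_closedBall] at hcon
      exact hz.2 (hΛ a ha hcon)
    have hzR : z ∈ Rem K Λ r := mem_Rem.mpr ⟨hzK, fun a ha => (hza a ha).le⟩
    have h1 := hclose z hzR hza
    have h2 := hfb z hzR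
    have h3 := hM z hz
    calc ‖g z‖ = ‖(g z - f z) + f z‖ := by ring_nf
      _ ≤ ‖g z - f z‖ + ‖f z‖ := norm_add_le _ _
      _ ≤ 1 + M := by linarith
  have hgb := hg.max_principle hK hfr
  -- rescale
  have h1M : 0 < 1 + M := by linarith
  have hgs : ‖g x - g y‖ ≤ (1 + M) * c := by
    have h4 := hc (fun z => ((1 + M : ℝ) : ℂ)⁻¹ * g z) (hg.const_mul _) (by
      intro z hz
      show ‖((1 + M : ℝ) : ℂ)⁻¹ * g z‖ ≤ 1
      rw [norm_mul, norm_inv, Complex.norm_real, Real.norm_of_nonneg h1M.le,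
        inv_mul_le_iff₀ h1M, mul_one]
      exact hgb z hz)
    have h5 : ‖((1 + M : ℝ) : ℂ)⁻¹ * g x - ((1 + M : ℝ) : ℂ)⁻¹ * g y‖ = (1 + M)⁻¹ * ‖g x - g y‖ := by
      rw [← mul_sub, norm_mul, norm_inv, Complex.norm_real, Real.norm_of_nonneg h1M.le]
    rw [h5, inv_mul_le_iff₀ h1M] at h4
    exact h4
  have hcx := hclose x hx hxa
  have hcy := hclose y hy hya
  have e : f x - f y = -(g x - f x) + (g x - g y) + (g y - f y) := by ring
  calc ‖f x - f y‖ ≤ ‖-(g x - f x) + (g x - g y)‖ + ‖g y - f y‖ := by rw [e]; exact norm_add_le _ _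
    _ ≤ ‖-(g x - f x)‖ + ‖g x - g y‖ + ‖g y - f y‖ := by gcongr; exact norm_add_le _ _
    _ ≤ _ := by rw [norm_neg]; linarith

end remove

end Pool.Agent.Helper56.Swiss
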