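import Mathlib
import Pool.Agent.Helper56.Swiss.Remove

/-! Removing closed discs preserves connectedness. -/

namespace Pool.Agent.Helper56.Swiss

open Metric Set Filter Topology Complex

lemma annulus_preconnected (a : ℂ) {r R : ℝ} (hr : 0 < r) : IsPreconnected (ball a R \ closedBall a r) := by
  have h1 : ball a R \ closedBall a r = (fun q : ℝ × ℝ => circleMap a q.1 q.2) '' (Ioo r R ×ˢ univ) := by
    ext z
    constructor
    · rintro ⟨hz1, hz2⟩
      rw [mem_ball, dist_eq_norm] at hz1
      rw [mem_closedBall, dist_eq_norm, not_le] at hz2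
      refine ⟨(‖z - a‖, Complex.arg (z - a)), ⟨⟨hz2, hz1⟩, mem_univ _⟩, ?_⟩
      simp only [circleMap]
      rw [Complex.norm_mul_exp_arg_mul_I]
      ring
    · rintro ⟨⟨t, θ⟩, ⟨⟨ht1, ht2⟩, _⟩, rfl⟩
      simp only at ht1 ht2 ⊢
      have ht0 : 0 < t := hr.trans ht1
      refine ⟨?_, ?_⟩
      · rw [mem_ball, dist_eq_norm, circleMap_sub_center, norm_circleMap_zero, abs_of_pos ht0]
        exact ht2
      · rw [mem_closedBall, dist_eq_norm, circleMap_sub_center, norm_circleMap_zero, abs_of_pos ht0, not_le]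
        exact ht1
  rw [h1]
  apply IsPreconnected.image (isPreconnected_Ioo.prod isPreconnected_univ)
  apply Continuous.continuousOn
  unfold circleMap
  fun_prop

theorem remove_one {U : Set ℂ} (hU : IsOpen U) (hc : IsPreconnected U) {a : ℂ} {r R : ℝ} (hr : 0 < r)
    (hrR : r < R) (hb : closedBall a R ⊆ U) : IsPreconnected (U \ closedBall a r) := by
  rw [isPreconnected_iff_subset_of_disjoint] at hc ⊢
  -- symmetric statement
  have key : ∀ A B : Set ℂ, IsOpen A → IsOpen B → U \ closedBall a r ⊆ A ∪ B →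
      (U \ closedBall a r) ∩ (A ∩ B) = ∅ → ball a R \ closedBall a r ⊆ A → U \ closedBall a r ⊆ A := by
    intro A B hA hB hAB hdis hW
    have hUo : IsOpen (U \ closedBall a r) := hU.sdiff isClosed_closedBall
    have h2 := hc ((A ∩ (U \ closedBall a r)) ∪ ball a R) (B ∩ (U \ closedBall a r))
      ((hA.inter hUo).union isOpen_ball) (hB.inter hUo) (by
        intro z hz
        by_cases hzr : z ∈ closedBall a r
        · exact Or.inl (Or.inr (closedBall_subset_ball hrR hzr))
        · rcases hAB ⟨hz, hzr⟩ with h | h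
          · exact Or.inl (Or.inl ⟨h, hz, hzr⟩)
          · exact Or.inr ⟨h, hz, hzr⟩) (by
        rw [Set.eq_empty_iff_forall_notMem]
        rintro z ⟨_, h3, hzB, hz⟩
        have hzA : z ∈ A := by
          rcases h3 with h | h
          · exact h.1
          · exact hW ⟨h, hz.2⟩
        exact Set.eq_empty_iff_forall_notMem.mp hdis z ⟨hz, hzA, hzB⟩)
    rcases h2 with h | h
    · intro z hz
      rcases h hz.1 with h3 | h3
      · exact h3.1
      · exact hW ⟨h3, hz.2⟩
    · exfalso
      have h3 : a ∈ U := hb (mem_closedBall_self (hr.trans hrR).le)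
      exact (h h3).2.2 (mem_closedBall_self hr.le)
  intro A B hA hB hAB hdis
  have hW := annulus_preconnected a (r := r) (R := R) hr
  rw [isPreconnected_iff_subset_of_disjoint] at hW
  have hWU : ball a R \ closedBall a r ⊆ U \ closedBall a r :=
    fun z hz => ⟨hb (ball_subset_closedBall hz.1), hz.2⟩
  rcases hW A B hA hB (hWU.trans hAB) (by
    rw [Set.eq_empty_iff_forall_notMem] at hdis ⊢
    rintro z ⟨hz, hz'⟩
    exact hdis z ⟨hWU hz, hz'⟩) with h | h
  · exact Or.inl (key A B hA hB hAB hdis h)
  · exact Or.inr (key B A hB hA (by rwa [Set.union_comm]) (by rwa [Set.inter_comm B A]) h)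

theorem remove_many {U : Set ℂ} (hU : IsOpen U) (hc : IsPreconnected U) {r R : ℝ} (hr : 0 < r)
    (hrR : r < R) (Λ : Finset ℂ) (hb : ∀ a ∈ Λ, closedBall a R ⊆ U)
    (hdis : ∀ a ∈ Λ, ∀ b ∈ Λ, a ≠ b → Disjoint (closedBall a R) (closedBall b r)) :
    IsPreconnected (U \ ⋃ a ∈ Λ, closedBall a r) := by
  classical
  induction Λ using Finset.induction_on with
  | empty => simpa using hc
  | insert a Λ ha ih =>
    have h1 := ih (fun b hb' => hb b (Finset.mem_insert_of_mem hb'))
      (fun b hb' c hc' => hdis b (Finset.mem_insert_of_mem hb') c (Finset.mem_insert_of_mem hc'))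
    have h2 : U \ ⋃ b ∈ insert a Λ, closedBall b r = (U \ ⋃ b ∈ Λ, closedBall b r) \ closedBall a r := by
      rw [Finset.set_biUnion_insert, Set.union_comm, ← Set.sdiff_sdiff]
    rw [h2]
    apply remove_one _ h1 hr hrR
    · intro z hz
      refine ⟨hb a (Finset.mem_insert_self a Λ) hz, ?_⟩
      simp only [mem_iUnion, not_exists]
      intro b hb' hzb
      have hab : a ≠ b := by
        rintro rfl
        exact ha hb'
      exact Set.disjoint_left.mp (hdis a (Finset.mem_insert_self a Λ) b (Finset.mem_insert_of_mem hb') hab) hz hzb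
    · apply hU.sdiff
      exact isClosed_biUnion_finset (fun b _ => isClosed_closedBall)

lemma interior_Rem {K : Set ℂ} {Λ : Finset ℂ} {r : ℝ} (hr : 0 < r) :
    interior (Rem K Λ r) = interior K \ ⋃ a ∈ Λ, closedBall a r := by
  unfold Rem
  rw [Set.sdiff_eq, interior_inter, interior_compl, Finset.closure_biUnion, Set.sdiff_eq]
  congr 3
  funext a
  congr 1
  funext _
  exact closure_ball a hr.ne'

end Pool.Agent.Helper56.Swiss
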