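import Mathlib
import Pool.Agent.Helper56.Swiss.Bridge

/-! Peak points and point derivations. -/

namespace Pool.Agent.Helper56.Swiss

open Metric Set Filter Topology Complex TopologicalSpace

section

variable {X : Compacts ℂ}

lemma norm_one_add_lt {w : ℂ} (hw : ‖w‖ ≤ 1) (hw1 : w ≠ 1) : ‖1 + w‖ < 2 := by
  have h1 : Complex.normSq w ≤ 1 := by
    rw [Complex.normSq_eq_norm_sq]
    have := norm_nonneg w
    nlinarith
  have h2 : w.re < 1 := by
    by_contra hcon
    rw [not_lt] at hcon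
    rw [Complex.normSq_apply] at h1
    apply hw1
    have h3 : w.re = 1 := by nlinarith [mul_self_nonneg w.im]
    have h4 : w.im = 0 := by
      rw [h3] at h1
      nlinarith [mul_self_nonneg w.im]
    exact Complex.ext h3 h4
  have h3 : ‖1 + w‖ ^ 2 < 2 ^ 2 := by
    rw [← Complex.normSq_eq_norm_sq, Complex.normSq_apply]
    rw [Complex.normSq_apply] at h1
    simp only [Complex.add_re, Complex.add_im, Complex.one_re, Complex.one_im, zero_add]
    nlinarith
  exact lt_of_pow_lt_pow_left₀ 2 (by norm_num) h3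

lemma peak_of_unimodular {x : X} {g : C(X, ℂ)} (hg : g ∈ RAlg X) (hg1 : ∀ z, ‖g z‖ ≤ 1) (hx : g x = 1)
    (hne : ∀ z, z ≠ x → g z ≠ 1) : IsPeakPoint X x := by
  refine ⟨(1 / 2 : ℂ) • (1 + g), (RAlg X).smul_mem ((RAlg X).add_mem (RAlg X).one_mem hg) _, ?_, ?_⟩
  · rw [ContinuousMap.smul_apply, ContinuousMap.add_apply, ContinuousMap.one_apply, hx, smul_eq_mul]
    norm_num
  · intro y hy
    rw [ContinuousMap.smul_apply, ContinuousMap.add_apply, ContinuousMap.one_apply, smul_eq_mul, norm_mul]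
    have := norm_one_add_lt (hg1 y) (hne y hy)
    norm_num
    linarith

lemma ratOn_id (K : Set ℂ) : RatOn K (fun z => z) := by
  have := RatOn.pow_id K 1
  simpa using this

/-- points of the outer circle -/
lemma peak_outer (hX : (X : Set ℂ) ⊆ closedBall 0 1) {x : X} (hx : ‖(x : ℂ)‖ = 1) : IsPeakPoint X x := by
  have hn : (starRingEnd ℂ) (x : ℂ) * x = 1 := by
    rw [mul_comm, Complex.mul_conj, Complex.normSq_eq_norm_sq, hx]
    norm_num
  apply peak_of_unimodular (g := mkC X (fun z => (starRingEnd ℂ) (x : ℂ) * z) ((ratOn_id _).const_mul _))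
    (ratAlg_le (mkC_mem _ _))
  · intro z
    show ‖(starRingEnd ℂ) (x : ℂ) * z‖ ≤ 1
    rw [norm_mul, RCLike.norm_conj, hx, one_mul]
    have := hX z.2
    rwa [mem_closedBall, dist_zero_right] at this
  · exact hn
  · intro z hz h1
    apply hz
    have h2 : (starRingEnd ℂ) (x : ℂ) * z = 1 := h1
    have h3 : (starRingEnd ℂ) (x : ℂ) ≠ 0 := by
      intro h0
      rw [h0, zero_mul] at hn
      exact zero_ne_one hn
    exact Subtype.ext (mul_left_cancel₀ h3 (h2.trans hn.symm))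

/-- points of an inner circle -/
lemma peak_inner {a : ℂ} {r : ℝ} (hr : 0 < r) (ha : ∀ z ∈ X, r ≤ ‖z - a‖) {x : X} (hx : ‖(x : ℂ) - a‖ = r) :
    IsPeakPoint X x := by
  have haX : a ∉ (X : Set ℂ) := by
    intro h
    have := ha a h
    rw [sub_self, norm_zero] at this
    linarith
  have hz0 : ∀ z : X, (z : ℂ) - a ≠ 0 := fun z => sub_ne_of_mem haX z.2
  apply peak_of_unimodular (g := mkC X (fun z => ((x : ℂ) - a) * ((z - a) ^ 1)⁻¹)
    ((RatOn.inv_pow haX 1).const_mul _)) (ratAlg_le (mkC_mem _ _))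
  · intro z
    show ‖((x : ℂ) - a) * (((z : ℂ) - a) ^ 1)⁻¹‖ ≤ 1
    rw [pow_one, norm_mul, norm_inv, hx, ← div_eq_mul_inv, div_le_one (by linarith [ha z z.2])]
    exact ha z z.2
  · show ((x : ℂ) - a) * (((x : ℂ) - a) ^ 1)⁻¹ = 1
    rw [pow_one]
    exact mul_inv_cancel₀ (hz0 x)
  · intro z hz h1
    apply hz
    have h2 : ((x : ℂ) - a) * (((z : ℂ) - a) ^ 1)⁻¹ = 1 := h1
    rw [pow_one, mul_inv_eq_one₀ (hz0 z)] at h2
    apply Subtype.ext
    linear_combination -h2

/-- points close to infinitely many small holes -/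
lemma peak_near {x : X} (H : ∀ δ > 0, ∃ (a : ℂ) (r : ℝ), 0 < r ∧ r < δ ∧ (∀ z ∈ X, r ≤ ‖z - a‖) ∧
    ‖(x : ℂ) - a‖ < 4 / 3 * r) : IsPeakPoint X x := by
  apply bishop (RAlg X) isClosed_RAlg x
  intro U hU
  obtain ⟨ε, hε, hsub⟩ := Metric.mem_nhds_iff.mp hU
  obtain ⟨a, r, hr, hrδ, ha, hxa⟩ := H (ε / 6) (by positivity)
  have haX : a ∉ (X : Set ℂ) := by
    intro h
    have := ha a h
    rw [sub_self, norm_zero] at this
    linarith
  have hval : ∀ z : X, ‖mkC X (fun z => (r : ℂ) * ((z - a) ^ 1)⁻¹) ((RatOn.inv_pow haX 1).const_mul _) z‖ =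
      r / ‖(z : ℂ) - a‖ := by
    intro z
    show ‖(r : ℂ) * (((z : ℂ) - a) ^ 1)⁻¹‖ = _
    rw [pow_one, norm_mul, norm_inv, Complex.norm_real, Real.norm_of_nonneg hr.le, div_eq_mul_inv]
  refine ⟨mkC X (fun z => (r : ℂ) * ((z - a) ^ 1)⁻¹) ((RatOn.inv_pow haX 1).const_mul _),
    ratAlg_le (mkC_mem _ _), ?_, ?_, ?_⟩
  · rw [ContinuousMap.norm_le _ zero_le_one]
    intro z
    rw [hval, div_le_one (by linarith [ha z z.2])]
    exact ha z z.2
  · rw [hval, le_div_iff₀ (by linarith [ha x x.2])]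
    linarith
  · intro z hz
    rw [hval]
    have h1 : ε ≤ dist z x := by
      by_contra hcon
      exact hz (hsub (not_le.mp hcon))
    have h2 : dist (z : ℂ) x ≤ ‖(z : ℂ) - a‖ + ‖(x : ℂ) - a‖ := by
      rw [dist_eq_norm]
      have e : (z : ℂ) - x = (z - a) - (x - a) := by ring
      rw [e]
      exact norm_sub_le _ _
    have h3 : dist z x = dist (z : ℂ) x := rfl
    rw [div_lt_iff₀ (by linarith [ha z z.2])]
    linarith

/-- A point derivation kills constants. -/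
lemma deriv_one {x : X} {D : RAlg X →L[ℂ] ℂ} (hD : IsPointDerivation X x D) : D 1 = 0 := by
  have h1 := hD 1 1
  rw [mul_one] at h1
  have h2 : ((1 : RAlg X) : C(X, ℂ)) x = 1 := rfl
  rw [h2] at h1
  linear_combination -h1

/-- There are no nonzero point derivations at peak points. -/
theorem deriv_peak {x : X} (hx : IsPeakPoint X x) {D : RAlg X →L[ℂ] ℂ} (hD : IsPointDerivation X x D) :
    D = 0 := by
  obtain ⟨u, hu, hux, huy⟩ := hx
  have hun : ∀ z, ‖u z‖ ≤ 1 := by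
    intro z
    by_cases hz : z = x
    · rw [hz, hux, norm_one]
    · exact (huy z hz).le
  set U : RAlg X := ⟨u, hu⟩ with hU
  -- functions vanishing at x
  have hzero : ∀ g : RAlg X, (g : C(X, ℂ)) x = 0 → D g = 0 := by
    intro g hgx
    have hpow : ∀ k : ℕ, D (U ^ k * g) = D g := by
      intro k
      have h1 := hD (U ^ k) g
      have h2 : ((U ^ k : RAlg X) : C(X, ℂ)) x = 1 := by
        show (u ^ k) x = 1
        rw [ContinuousMap.pow_apply, hux, one_pow]
      rw [h1, h2, hgx]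
      ring
    have hsmall : ∀ ε > 0, ∃ k : ℕ, ‖U ^ k * g‖ ≤ ε := by
      intro ε hε
      by_cases hne : {z : X | ε ≤ ‖(g : C(X, ℂ)) z‖}.Nonempty
      · have hcomp : IsCompact {z : X | ε ≤ ‖(g : C(X, ℂ)) z‖} := by
          apply IsClosed.isCompact
          exact isClosed_le continuous_const (g : C(X, ℂ)).continuous.norm
        obtain ⟨z0, hz0, hmax⟩ := hcomp.exists_isMaxOn hne u.continuous.norm.continuousOn
        have hz0x : z0 ≠ x := by
          rintro rfl
          rw [mem_ofPred_eq, hgx, norm_zero] at hz0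
          linarith
        have hs := huy z0 hz0x
        have ht : Tendsto (fun k : ℕ => ‖u z0‖ ^ k * ‖g‖) atTop (𝓝 (0 * ‖g‖)) :=
          (tendsto_pow_atTop_nhds_zero_of_lt_one (norm_nonneg _) hs).mul_const _
        rw [zero_mul] at ht
        obtain ⟨k, hk⟩ := (ht.eventually_le_const hε).exists
        refine ⟨k, ?_⟩
        show ‖u ^ k * (g : C(X, ℂ))‖ ≤ ε
        rw [ContinuousMap.norm_le _ hε.le]
        intro z
        rw [ContinuousMap.mul_apply, ContinuousMap.pow_apply, norm_mul, norm_pow]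
        by_cases hz : ε ≤ ‖(g : C(X, ℂ)) z‖
        · refine le_trans ?_ hk
          have h1 : ‖u z‖ ≤ ‖u z0‖ := hmax hz
          have h2 : ‖(g : C(X, ℂ)) z‖ ≤ ‖g‖ := ContinuousMap.norm_coe_le_norm _ _
          gcongr
        · rw [not_le] at hz
          have h1 : ‖u z‖ ^ k ≤ 1 := pow_le_one₀ (norm_nonneg _) (hun z)
          have h2 := norm_nonneg ((g : C(X, ℂ)) z)
          have h3 : 0 ≤ ‖u z‖ ^ k := by positivity
          nlinarith
      · refine ⟨0, ?_⟩
        rw [pow_zero, one_mul]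
        show ‖(g : C(X, ℂ))‖ ≤ ε
        rw [ContinuousMap.norm_le _ hε.le]
        intro z
        rw [Set.not_nonempty_iff_eq_empty, Set.eq_empty_iff_forall_notMem] at hne
        have := hne z
        rw [mem_ofPred_eq, not_le] at this
        exact this.le
    by_contra hcon
    have hp : 0 < ‖D g‖ := norm_pos_iff.mpr hcon
    have hDp : 0 < ‖D‖ + 1 := by positivity
    obtain ⟨k, hk⟩ := hsmall (‖D g‖ / (2 * (‖D‖ + 1))) (by positivity)
    have h1 := D.le_opNorm (U ^ k * g)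
    rw [hpow k] at h1
    have h2 : ‖D‖ * ‖U ^ k * g‖ ≤ (‖D‖ + 1) * (‖D g‖ / (2 * (‖D‖ + 1))) := by
      have := norm_nonneg D
      gcongr
      linarith
    have h3 : (‖D‖ + 1) * (‖D g‖ / (2 * (‖D‖ + 1))) = ‖D g‖ / 2 := by field_simp
    rw [h3] at h2
    linarith
  ext g
  have h1 := hzero (g - ((g : C(X, ℂ)) x) • 1) (by
    show ((g : C(X, ℂ)) - ((g : C(X, ℂ)) x) • (1 : C(X, ℂ))) x = 0
    rw [ContinuousMap.sub_apply, ContinuousMap.smul_apply, ContinuousMap.one_apply]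
    simp)
  rw [map_sub, map_smul, deriv_one hD, smul_zero, sub_zero] at h1
  rw [h1]
  rfl

/-- the coordinate function -/
noncomputable def Zf (X : Compacts ℂ) : RAlg X := ⟨mkC X (fun z => z) (ratOn_id _), ratAlg_le (mkC_mem _ _)⟩

/-- the function `1/(z-a)` -/
noncomputable def Vf {a : ℂ} (ha : a ∉ (X : Set ℂ)) : RAlg X :=
  ⟨mkC X (fun z => ((z - a) ^ 1)⁻¹) (RatOn.inv_pow ha 1), ratAlg_le (mkC_mem _ _)⟩

lemma Vf_apply {a : ℂ} (ha : a ∉ (X : Set ℂ)) (z : X) : (Vf ha : C(X, ℂ)) z = ((z : ℂ) - a)⁻¹ := by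
  show (((z : ℂ) - a) ^ 1)⁻¹ = _
  rw [pow_one]

lemma Zf_apply (z : X) : (Zf X : C(X, ℂ)) z = z := rfl

lemma deriv_Vf {x : X} {D : RAlg X →L[ℂ] ℂ} (hD : IsPointDerivation X x D) {a : ℂ}
    (ha : a ∉ (X : Set ℂ)) : D (Vf ha) = -D (Zf X) / ((x : ℂ) - a) ^ 2 := by
  have hne : ∀ z : X, (z : ℂ) - a ≠ 0 := fun z => sub_ne_of_mem ha z.2
  have h1 : (Vf ha) * (Zf X - a • 1) = 1 := by
    apply Subtype.ext
    apply ContinuousMap.ext
    intro z
    show (Vf ha : C(X, ℂ)) z * ((Zf X : C(X, ℂ)) z - a * 1) = 1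
    rw [Vf_apply, Zf_apply, mul_one]
    exact inv_mul_cancel₀ (hne z)
  have h2 := hD (Vf ha) (Zf X - a • 1)
  rw [h1, deriv_one hD, map_sub, map_smul, deriv_one hD, smul_zero, sub_zero, Vf_apply] at h2
  have h3 : ((Zf X - a • 1 : RAlg X) : C(X, ℂ)) x = (x : ℂ) - a := by
    show (Zf X : C(X, ℂ)) x - a * 1 = _
    rw [Zf_apply, mul_one]
  rw [h3] at h2
  have h4 := hne x
  field_simp
  field_simp at h2
  linear_combination -h2

lemma deriv_zero_of_Zf {x : X} {D : RAlg X →L[ℂ] ℂ} (hD : IsPointDerivation X x D) (h0 : D (Zf X) = 0) :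
    D = 0 := by
  -- polynomials
  have hpoly : ∀ (P : Polynomial ℂ) (g : RAlg X), (∀ z : X, (g : C(X, ℂ)) z = P.eval (z : ℂ)) → D g = 0 := by
    intro P
    induction P using Polynomial.induction_on' with
    | add p q hp hq =>
      intro g hg
      have e : g = Polynomial.aeval (Zf X) p + Polynomial.aeval (Zf X) q := by
        apply Subtype.ext
        apply ContinuousMap.ext
        intro z
        have hev : ∀ p : Polynomial ℂ, ((Polynomial.aeval (Zf X) p : RAlg X) : C(X, ℂ)) z = p.eval (z : ℂ) := by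
          intro p
          have h1 := Polynomial.aeval_algHom_apply ((ContinuousMap.evalAlgHom ℂ ℂ z).comp (RAlg X).val) (Zf X) p
          have h2 : ((ContinuousMap.evalAlgHom ℂ ℂ z).comp (RAlg X).val) (Zf X) = (z : ℂ) := rfl
          rw [h2] at h1
          rw [Polynomial.coe_aeval_eq_eval] at h1
          exact h1.symm
        rw [hg z, Polynomial.eval_add]
        show _ = ((Polynomial.aeval (Zf X) p : RAlg X) : C(X, ℂ)) z +
          ((Polynomial.aeval (Zf X) q : RAlg X) : C(X, ℂ)) z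
        rw [hev, hev]
      have hev : ∀ (p : Polynomial ℂ) (z : X),
          ((Polynomial.aeval (Zf X) p : RAlg X) : C(X, ℂ)) z = p.eval (z : ℂ) := by
        intro p z
        have h1 := Polynomial.aeval_algHom_apply ((ContinuousMap.evalAlgHom ℂ ℂ z).comp (RAlg X).val) (Zf X) p
        have h2 : ((ContinuousMap.evalAlgHom ℂ ℂ z).comp (RAlg X).val) (Zf X) = (z : ℂ) := rfl
        rw [h2] at h1
        rw [Polynomial.coe_aeval_eq_eval] at h1
        exact h1.symm
      rw [e, map_add, hp _ (hev p), hq _ (hev q), add_zero]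
    | monomial n c =>
      intro g hg
      have e : g = c • (Zf X) ^ n := by
        apply Subtype.ext
        apply ContinuousMap.ext
        intro z
        rw [hg z, Polynomial.eval_monomial]
        rfl
      have hpow : ∀ n : ℕ, D ((Zf X) ^ n) = 0 := by
        intro n
        induction n with
        | zero => rw [pow_zero, deriv_one hD]
        | succ n ih => rw [pow_succ, hD, ih, h0]; ring
      rw [e, map_smul, hpow, smul_zero]
  -- rational functions
  have hrat : ∀ g : RAlg X, (g : C(X, ℂ)) ∈ ratAlg X → D g = 0 := by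
    rintro g ⟨P, Q, hQ, hg⟩
    set QQ : RAlg X := ⟨mkC X (fun z => Q.eval z) ⟨Q, 1, fun z _ => by simp, fun z => by simp⟩,
      ratAlg_le (mkC_mem _ _)⟩ with hQQ
    have h1 := hD g QQ
    have h2 : D (g * QQ) = 0 := by
      apply hpoly P
      intro z
      show (g : C(X, ℂ)) z * Q.eval (z : ℂ) = _
      rw [hg z, div_mul_cancel₀ _ (hQ z z.2)]
    have h3 : D QQ = 0 := hpoly Q QQ (fun z => rfl)
    rw [h2, h3, mul_zero, zero_add] at h1
    have h4 : (QQ : C(X, ℂ)) x = Q.eval (x : ℂ) := rfl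
    rw [h4] at h1
    exact (mul_eq_zero.mp h1.symm).resolve_left (hQ x x.2)
  ext g
  obtain ⟨s, hs, hst⟩ := exists_seq g.2
  have h1 : Tendsto (fun n => (⟨s n, ratAlg_le (hs n)⟩ : RAlg X)) atTop (𝓝 g) := by
    rw [tendsto_subtype_rng]
    exact hst
  have h2 := (D.continuous.tendsto g).comp h1
  have h3 : Tendsto (D ∘ fun n => (⟨s n, ratAlg_le (hs n)⟩ : RAlg X)) atTop (𝓝 0) := by
    refine tendsto_const_nhds.congr (fun n => ?_)
    exact (hrat _ (hs n)).symm
  rw [tendsto_nhds_unique h2 h3]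
  rfl

/-- Derivations vanish if there are bounded functions with large derivatives. -/
theorem deriv_zero_of_sums {x : X} {D : RAlg X →L[ℂ] ℂ} (hD : IsPointDerivation X x D)
    (H : ∀ n : ℕ, ∃ (Λ : Finset ℂ) (r : ℝ), 0 < r ∧ (∀ a ∈ Λ, a ∉ (X : Set ℂ)) ∧
      (∀ z ∈ X, ∑ a ∈ Λ, r / ‖z - a‖ ≤ 2) ∧ (n : ℝ) ≤ ∑ a ∈ Λ, r / ‖(x : ℂ) - a‖ ^ 2) : D = 0 := by
  apply deriv_zero_of_Zf hD
  by_contra hcon
  have hd : 0 < ‖D (Zf X)‖ := norm_pos_iff.mpr hcon
  obtain ⟨n, hn⟩ := exists_nat_gt (2 * ‖D‖ / ‖D (Zf X)‖)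
  obtain ⟨Λ, r, hr, hΛ, hsum, hsq⟩ := H n
  set F : RAlg X := ∑ a ∈ Λ.attach, (-((x : ℂ) - a) ^ 2 / (‖(x : ℂ) - a‖ : ℂ) ^ 2 * r) • Vf (hΛ a a.2) with hF
  have hFn : ‖F‖ ≤ 2 := by
    show ‖(F : C(X, ℂ))‖ ≤ 2
    rw [ContinuousMap.norm_le _ (by norm_num)]
    intro z
    have h1 : (F : C(X, ℂ)) z = ∑ a ∈ Λ.attach, (-((x : ℂ) - a) ^ 2 / (‖(x : ℂ) - a‖ : ℂ) ^ 2 * r) *
        ((z : ℂ) - a)⁻¹ := by
      have h2 : (F : C(X, ℂ)) z = (evalAt X z) F := rfl
      rw [h2, hF, map_sum]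
      apply Finset.sum_congr rfl
      intro a _
      rw [map_smul, smul_eq_mul]
      congr 1
      exact Vf_apply (hΛ a a.2) z
    rw [h1]
    refine (norm_sum_le _ _).trans ?_
    refine le_trans (le_of_eq ?_) (hsum z z.2)
    rw [← Finset.sum_attach Λ]
    apply Finset.sum_congr rfl
    intro a _
    have hne : (x : ℂ) - a ≠ 0 := sub_ne_of_mem (hΛ a a.2) x.2
    have hne' : ‖(x : ℂ) - a‖ ≠ 0 := norm_ne_zero_iff.mpr hne
    rw [norm_mul, norm_mul, norm_div, norm_neg, norm_pow, norm_pow, Complex.norm_real, norm_norm,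
      Complex.norm_real, Real.norm_of_nonneg hr.le, norm_inv, div_self (pow_ne_zero 2 hne'), one_mul,
      div_eq_mul_inv]
  have hDF : D F = D (Zf X) * ((∑ a ∈ Λ, r / ‖(x : ℂ) - a‖ ^ 2 : ℝ) : ℂ) := by
    rw [hF, map_sum, ← Finset.sum_attach Λ, Complex.ofReal_sum, Finset.mul_sum]
    apply Finset.sum_congr rfl
    intro a _
    have hne : (x : ℂ) - a ≠ 0 := sub_ne_of_mem (hΛ a a.2) x.2
    have hne' : (‖(x : ℂ) - a‖ : ℂ) ≠ 0 := by
      rw [Complex.ofReal_ne_zero]
      exact norm_ne_zero_iff.mpr hne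
    rw [map_smul, deriv_Vf hD, smul_eq_mul]
    push_cast
    field_simp
  have h1 := D.le_opNorm F
  rw [hDF, norm_mul, Complex.norm_real] at h1
  have h2 : (n : ℝ) ≤ ‖∑ a ∈ Λ, r / ‖(x : ℂ) - a‖ ^ 2‖ := hsq.trans (le_abs_self _)
  rw [div_lt_iff₀ hd] at hn
  have h3 := norm_nonneg D
  nlinarith

end

end Pool.Agent.Helper56.Swiss
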