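import Mathlib

/-! Sums over the square lattice. -/

namespace Pool.Agent.Helper56.Swiss

open Metric Set Filter Topology Complex

/-- sup norm on `ℤ × ℤ` -/
def sn (p : ℤ × ℤ) : ℕ := max p.1.natAbs p.2.natAbs

lemma sn_pos {p : ℤ × ℤ} (h : p ≠ 0) : 1 ≤ sn p := by
  unfold sn
  by_contra hcon
  apply h
  have h1 : p.1.natAbs = 0 := by omega
  have h2 : p.2.natAbs = 0 := by omega
  exact Prod.ext (by simpa using h1) (by simpa using h2)

lemma sum_inv_le (S : Finset (ℤ × ℤ)) (M : ℕ) (h0 : ∀ p ∈ S, p ≠ 0) (hM : ∀ p ∈ S, sn p ≤ M) :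
    ∑ p ∈ S, (1 : ℝ) / sn p ≤ 8 * M := by
  have hmaps : ∀ p ∈ S, sn p ∈ Finset.Icc 1 M := by
    intro p hp
    rw [Finset.mem_Icc]
    exact ⟨sn_pos (h0 p hp), hM p hp⟩
  rw [← Finset.sum_fiberwise_of_maps_to hmaps]
  calc ∑ m ∈ Finset.Icc 1 M, ∑ p ∈ S with sn p = m, (1 : ℝ) / sn p
      ≤ ∑ m ∈ Finset.Icc 1 M, (8 : ℝ) := by
        apply Finset.sum_le_sum
        intro m hm
        rw [Finset.mem_Icc] at hm
        have hm0 : (0 : ℝ) < m := by exact_mod_cast hm.1
        calc ∑ p ∈ S with sn p = m, (1 : ℝ) / sn p = ∑ p ∈ S with sn p = m, (1 : ℝ) / m := by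
              apply Finset.sum_congr rfl
              intro p hp
              rw [(Finset.mem_filter.mp hp).2]
          _ ≤ ∑ p ∈ (Finset.box m : Finset (ℤ × ℤ)), (1 : ℝ) / m := by
              apply Finset.sum_le_sum_of_subset_of_nonneg
              · intro p hp
                rw [Int.mem_box]
                exact (Finset.mem_filter.mp hp).2
              · intro p _ _
                positivity
          _ = 8 := by
              rw [Finset.sum_const, Int.card_box (by omega), nsmul_eq_mul]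
              push_cast
              field_simp
    _ = 8 * M := by
        rw [Finset.sum_const, Nat.card_Icc, nsmul_eq_mul]
        simp [mul_comm]

lemma le_sum_inv_sq (S : Finset (ℤ × ℤ)) (M : ℕ) (hM : ∀ p : ℤ × ℤ, p ≠ 0 → sn p ≤ M → p ∈ S) :
    8 * ∑ m ∈ Finset.Icc 1 M, (1 : ℝ) / m ≤ ∑ p ∈ S with p ≠ 0, (1 : ℝ) / (sn p) ^ 2 := by
  have h1 : ∀ m ∈ Finset.Icc 1 M, 8 * ((1 : ℝ) / m) = ∑ p ∈ (Finset.box m : Finset (ℤ × ℤ)), (1 : ℝ) / (sn p) ^ 2 := by
    intro m hm
    rw [Finset.mem_Icc] at hm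
    have hm0 : (0 : ℝ) < m := by exact_mod_cast hm.1
    have h2 : ∀ p ∈ (Finset.box m : Finset (ℤ × ℤ)), (1 : ℝ) / (sn p) ^ 2 = 1 / (m : ℝ) ^ 2 := by
      intro p hp
      rw [Int.mem_box] at hp
      have : sn p = m := hp
      rw [this]
    rw [Finset.sum_congr rfl h2, Finset.sum_const, Int.card_box (by omega), nsmul_eq_mul]
    push_cast
    field_simp
  rw [Finset.mul_sum, Finset.sum_congr rfl h1, ← Finset.sum_biUnion]
  · apply Finset.sum_le_sum_of_subset_of_nonneg
    · intro p hp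
      rw [Finset.mem_biUnion] at hp
      obtain ⟨m, hm, hp⟩ := hp
      rw [Finset.mem_Icc] at hm
      rw [Int.mem_box] at hp
      have hp' : sn p = m := hp
      have hp0 : p ≠ 0 := by
        rintro rfl
        have : sn 0 = 0 := by simp [sn]
        omega
      rw [Finset.mem_filter]
      exact ⟨hM p hp0 (by omega), hp0⟩
    · intro p _ _
      positivity
  · intro m _ m' _ hmm
    rw [Function.onFun, Finset.disjoint_left]
    intro p hp hp'
    rw [Int.mem_box] at hp hp'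
    exact hmm (hp.symm.trans hp')

/-- The harmonic sums are unbounded. -/
lemma exists_harmonic (A : ℝ) : ∃ M : ℕ, A ≤ ∑ m ∈ Finset.Icc 1 M, (1 : ℝ) / m := by
  have h := Real.tendsto_sum_range_one_div_nat_succ_atTop
  obtain ⟨M, hM⟩ := (h.eventually_ge_atTop A).exists
  refine ⟨M, hM.trans (le_of_eq ?_)⟩
  have h1 := Finset.sum_Ico_add' (fun i : ℕ => (1 : ℝ) / i) 0 M 1
  have h2 : Finset.Ico (0 + 1) (M + 1) = Finset.Icc 1 M := by
    ext k
    simp only [Finset.mem_Ico, Finset.mem_Icc]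
    omega
  rw [h2] at h1
  rw [← h1, Finset.range_eq_Ico]
  push_cast
  rfl

/-- lattice point -/
noncomputable def pt (N : ℕ) (p : ℤ × ℤ) : ℂ := (p.1 + p.2 * I) / N

/-- nearest lattice point -/
noncomputable def nr (N : ℕ) (z : ℂ) : ℤ × ℤ := (round (N * z.re), round (N * z.im))

lemma pt_re (N : ℕ) (p : ℤ × ℤ) : (pt N p).re = p.1 / N := by
  unfold pt
  rw [Complex.div_natCast_re]
  simp

lemma pt_im (N : ℕ) (p : ℤ × ℤ) : (pt N p).im = p.2 / N := by
  unfold pt
  rw [Complex.div_natCast_im]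
  simp

lemma pt_injective {N : ℕ} (hN : 0 < N) : Function.Injective (pt N) := by
  intro p q h
  have hN' : (N : ℝ) ≠ 0 := by positivity
  have h1 := congrArg Complex.re h
  have h2 := congrArg Complex.im h
  rw [pt_re, pt_re] at h1
  rw [pt_im, pt_im] at h2
  have h3 : (p.1 : ℝ) = q.1 := by
    field_simp at h1
    exact h1
  have h4 : (p.2 : ℝ) = q.2 := by
    field_simp at h2
    exact h2
  exact Prod.ext (by exact_mod_cast h3) (by exact_mod_cast h4)

lemma sn_cast (p : ℤ × ℤ) : (sn p : ℝ) = max |(p.1 : ℝ)| |(p.2 : ℝ)| := by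
  unfold sn
  push_cast
  rw [Nat.cast_natAbs, Nat.cast_natAbs]
  push_cast
  rfl

lemma dist_pt_lower {N : ℕ} (hN : 0 < N) (z : ℂ) {p : ℤ × ℤ} (hp : p ≠ nr N z) :
    (sn (p - nr N z) : ℝ) / (2 * N) ≤ ‖z - pt N p‖ := by
  have hN' : (0 : ℝ) < N := by exact_mod_cast hN
  have h1 : (1 : ℝ) ≤ sn (p - nr N z) := by exact_mod_cast sn_pos (sub_ne_zero.mpr hp)
  have hre := Complex.abs_re_le_norm (z - pt N p)
  have him := Complex.abs_im_le_norm (z - pt N p)
  rw [Complex.sub_re, pt_re] at hre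
  rw [Complex.sub_im, pt_im] at him
  have r1 := abs_sub_round (N * z.re)
  have r2 := abs_sub_round (N * z.im)
  have e1 : |(N : ℝ) * z.re - p.1| ≤ N * ‖z - pt N p‖ := by
    have : (N : ℝ) * z.re - p.1 = N * (z.re - p.1 / N) := by field_simp
    rw [this, abs_mul, abs_of_pos hN']
    exact mul_le_mul_of_nonneg_left hre hN'.le
  have e2 : |(N : ℝ) * z.im - p.2| ≤ N * ‖z - pt N p‖ := by
    have : (N : ℝ) * z.im - p.2 = N * (z.im - p.2 / N) := by field_simp
    rw [this, abs_mul, abs_of_pos hN']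
    exact mul_le_mul_of_nonneg_left him hN'.le
  have key : (sn (p - nr N z) : ℝ) - 1 / 2 ≤ N * ‖z - pt N p‖ := by
    rw [sn_cast, sub_le_iff_le_add]
    apply max_le
    · have e3 : (((p - nr N z).1 : ℤ) : ℝ) = (N * z.re - round (N * z.re)) - (N * z.re - p.1) := by
        simp only [nr, Prod.fst_sub]
        push_cast
        ring
      rw [e3]
      have := abs_sub (N * z.re - round (N * z.re)) (N * z.re - p.1)
      linarith
    · have e3 : (((p - nr N z).2 : ℤ) : ℝ) = (N * z.im - round (N * z.im)) - (N * z.im - p.2) := by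
        simp only [nr, Prod.snd_sub]
        push_cast
        ring
      rw [e3]
      have := abs_sub (N * z.im - round (N * z.im)) (N * z.im - p.2)
      linarith
  rw [div_le_iff₀ (by positivity)]
  nlinarith

lemma dist_pt_upper {N : ℕ} (hN : 0 < N) (z : ℂ) (p : ℤ × ℤ) :
    ‖z - pt N p‖ ≤ (2 * sn (p - nr N z) + 1) / N := by
  have hN' : (0 : ℝ) < N := by exact_mod_cast hN
  have h0 := Complex.norm_le_abs_re_add_abs_im (z - pt N p)
  rw [Complex.sub_re, pt_re, Complex.sub_im, pt_im] at h0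
  have r1 := abs_sub_round (N * z.re)
  have r2 := abs_sub_round (N * z.im)
  have e1 : N * |z.re - p.1 / N| ≤ sn (p - nr N z) + 1 / 2 := by
    have : (N : ℝ) * |z.re - p.1 / N| = |(N * z.re - round (N * z.re)) - ((p - nr N z).1 : ℤ)| := by
      rw [← abs_of_pos hN', ← abs_mul, abs_of_pos hN']
      congr 1
      simp only [nr, Prod.fst_sub]
      push_cast
      field_simp
      ring
    rw [this]
    have h2 := abs_sub (N * z.re - round (N * z.re)) ((p - nr N z).1 : ℝ)
    have h3 : |((p - nr N z).1 : ℝ)| ≤ sn (p - nr N z) := by rw [sn_cast]; exact le_max_left _ _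
    linarith
  have e2 : N * |z.im - p.2 / N| ≤ sn (p - nr N z) + 1 / 2 := by
    have : (N : ℝ) * |z.im - p.2 / N| = |(N * z.im - round (N * z.im)) - ((p - nr N z).2 : ℤ)| := by
      rw [← abs_of_pos hN', ← abs_mul, abs_of_pos hN']
      congr 1
      simp only [nr, Prod.snd_sub]
      push_cast
      field_simp
      ring
    rw [this]
    have h2 := abs_sub (N * z.im - round (N * z.im)) ((p - nr N z).2 : ℝ)
    have h3 : |((p - nr N z).2 : ℝ)| ≤ sn (p - nr N z) := by rw [sn_cast]; exact le_max_right _ _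
    linarith
  rw [le_div_iff₀ hN']
  nlinarith

lemma sn_nr_le {N : ℕ} {z : ℂ} (hz : ‖z‖ ≤ 1) : sn (nr N z) ≤ N := by
  have hN' : (0 : ℝ) ≤ N := Nat.cast_nonneg N
  have h1 := (Complex.abs_re_le_norm z).trans hz
  have h2 := (Complex.abs_im_le_norm z).trans hz
  have aux : ∀ t : ℝ, |t| ≤ 1 → (round (N * t)).natAbs ≤ N := by
    intro t ht
    have r1 := abs_sub_round (N * t)
    have h3 : |(round (N * t) : ℝ)| ≤ N + 1 / 2 := by
      have e : (round (N * t) : ℝ) = N * t - (N * t - round (N * t)) := by ring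
      rw [e]
      have h4 := abs_sub (N * t) (N * t - round (N * t))
      rw [abs_mul, abs_of_nonneg hN'] at h4
      nlinarith
    have h5 : |(round (N * t) : ℝ)| < ((N + 1 : ℤ) : ℝ) := by push_cast; linarith
    have h6 : |round (N * t)| < (N + 1 : ℤ) := by exact_mod_cast h5
    rw [abs_lt] at h6
    omega
  unfold sn nr
  exact max_le (aux _ h1) (aux _ h2)

lemma sn_sub_le (p q : ℤ × ℤ) : sn (p - q) ≤ sn p + sn q := by
  unfold sn
  simp only [Prod.fst_sub, Prod.snd_sub]
  omega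

/-- Upper bound for the lattice sum without the nearest point. -/
lemma sum_far_le {N : ℕ} (hN : 0 < N) {S : Finset (ℤ × ℤ)} (hS : ∀ p ∈ S, sn p ≤ N) {z : ℂ}
    (hz : ‖z‖ ≤ 1) (hj : ∀ p ∈ S, p ≠ nr N z) {r : ℝ} (hr : 0 < r) (hrN : r * (8 * N) ≤ 1) :
    ∑ p ∈ S, r / (‖z - pt N p‖ - r) ≤ 64 * r * N ^ 2 := by
  have hN' : (0 : ℝ) < N := by exact_mod_cast hN
  have h1 : ∀ p ∈ S, r / (‖z - pt N p‖ - r) ≤ 4 * N * r * ((1 : ℝ) / sn (p - nr N z)) := by
    intro p hp
    have h2 := dist_pt_lower hN z (hj p hp)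
    have h3 : (1 : ℝ) ≤ sn (p - nr N z) := by exact_mod_cast sn_pos (sub_ne_zero.mpr (hj p hp))
    have h4 : (sn (p - nr N z) : ℝ) / (4 * N) ≤ ‖z - pt N p‖ - r := by
      have h5 : r ≤ 1 / (8 * N) := by rw [le_div_iff₀ (by positivity)]; exact hrN
      have h6 : (1 : ℝ) / (8 * N) ≤ sn (p - nr N z) / (4 * N) := by
        rw [div_le_div_iff₀ (by positivity) (by positivity)]
        nlinarith
      have h7 : (sn (p - nr N z) : ℝ) / (2 * N) = sn (p - nr N z) / (4 * N) + sn (p - nr N z) / (4 * N) := by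
        field_simp; norm_num
      linarith
    have h8 : (0 : ℝ) < (sn (p - nr N z) : ℝ) / (4 * N) := by positivity
    calc r / (‖z - pt N p‖ - r) ≤ r / ((sn (p - nr N z) : ℝ) / (4 * N)) :=
          div_le_div_of_nonneg_left hr.le h8 h4
      _ = _ := by field_simp
  refine (Finset.sum_le_sum h1).trans ?_
  rw [← Finset.mul_sum]
  have h2 : ∑ p ∈ S, (1 : ℝ) / sn (p - nr N z) = ∑ q ∈ S.image (fun p => p - nr N z), (1 : ℝ) / sn q := by
    rw [Finset.sum_image]
    intro p _ q _ h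
    exact sub_left_injective h
  rw [h2]
  have h3 := sum_inv_le (S.image (fun p => p - nr N z)) (2 * N) (by
    intro q hq
    rw [Finset.mem_image] at hq
    obtain ⟨p, hp, rfl⟩ := hq
    exact sub_ne_zero.mpr (hj p hp)) (by
    intro q hq
    rw [Finset.mem_image] at hq
    obtain ⟨p, hp, rfl⟩ := hq
    have := sn_sub_le p (nr N z)
    have := hS p hp
    have := sn_nr_le (N := N) hz
    omega)
  push_cast at h3
  have h4 : 0 ≤ 4 * N * r := by positivity
  calc _ ≤ 4 * N * r * (8 * (2 * N)) := mul_le_mul_of_nonneg_left h3 h4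
    _ = _ := by ring

/-- Lower bound for the lattice sum of the squares. -/
lemma le_sum_sq {N : ℕ} (hN : 0 < N) {S : Finset (ℤ × ℤ)} {z : ℂ} {M : ℕ}
    (hM : ∀ p, sn (p - nr N z) ≤ M → p ∈ S) {r : ℝ} (hr : 0 < r) :
    (r * N ^ 2) * (8 / 9 * ∑ m ∈ Finset.Icc 1 M, (1 : ℝ) / m) ≤ ∑ p ∈ S, r / ‖z - pt N p‖ ^ 2 := by
  have hN' : (0 : ℝ) < N := by exact_mod_cast hN
  have h1 := le_sum_inv_sq (S.image (fun p => p - nr N z)) M (by
    intro q _ hqM
    rw [Finset.mem_image]
    exact ⟨q + nr N z, hM _ (by simpa using hqM), by simp⟩)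
  have h2 : ∑ p ∈ S with p ≠ nr N z, (r * N ^ 2) * (1 / 9 * ((1 : ℝ) / (sn (p - nr N z)) ^ 2)) ≤
      ∑ p ∈ S, r / ‖z - pt N p‖ ^ 2 := by
    calc _ ≤ ∑ p ∈ S with p ≠ nr N z, r / ‖z - pt N p‖ ^ 2 := by
          apply Finset.sum_le_sum
          intro p hp
          have hpn := (Finset.mem_filter.mp hp).2
          have h3 : (1 : ℝ) ≤ sn (p - nr N z) := by exact_mod_cast sn_pos (sub_ne_zero.mpr hpn)
          have h4 := dist_pt_upper hN z p
          have h5 := dist_pt_lower hN z hpn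
          have h6 : 0 < ‖z - pt N p‖ := lt_of_lt_of_le (by positivity) h5
          have h7 : ‖z - pt N p‖ ≤ 3 * sn (p - nr N z) / N := by
            refine h4.trans ?_
            apply div_le_div_of_nonneg_right _ hN'.le
            linarith
          have h8 : ‖z - pt N p‖ ^ 2 ≤ (3 * sn (p - nr N z) / N) ^ 2 :=
            pow_le_pow_left₀ h6.le h7 2
          calc (r * N ^ 2) * (1 / 9 * ((1 : ℝ) / (sn (p - nr N z)) ^ 2))
              = r / (3 * sn (p - nr N z) / N) ^ 2 := by field_simp; norm_num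
            _ ≤ r / ‖z - pt N p‖ ^ 2 := div_le_div_of_nonneg_left hr.le (by positivity) h8
      _ ≤ _ := by
          apply Finset.sum_le_sum_of_subset_of_nonneg (Finset.filter_subset _ _)
          intro p _ _
          positivity
  refine le_trans ?_ h2
  rw [← Finset.mul_sum, ← Finset.mul_sum]
  have h3 : ∑ p ∈ S with p ≠ nr N z, (1 : ℝ) / (sn (p - nr N z)) ^ 2 =
      ∑ q ∈ S.image (fun p => p - nr N z) with q ≠ 0, (1 : ℝ) / (sn q) ^ 2 := by
    have h4 : (S.image (fun p => p - nr N z)).filter (fun q => q ≠ 0) =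
        (S.filter (fun p => p ≠ nr N z)).image (fun p => p - nr N z) := by
      ext q
      simp only [Finset.mem_filter, Finset.mem_image]
      constructor
      · rintro ⟨⟨p, hp, rfl⟩, hq⟩
        exact ⟨p, ⟨hp, sub_ne_zero.mp hq⟩, rfl⟩
      · rintro ⟨p, ⟨hp, hpn⟩, rfl⟩
        exact ⟨⟨p, hp, rfl⟩, sub_ne_zero.mpr hpn⟩
    rw [h4, Finset.sum_image]
    intro p _ q _ h
    exact sub_left_injective h
  rw [h3]
  apply mul_le_mul_of_nonneg_left _ (by positivity)
  linarith

end Pool.Agent.Helper56.Swiss
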