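import Mathlib
import Pool.Agent.Helper56.Swiss.Conn
import Pool.Agent.Helper56.Swiss.Lattice

/-! One step of the construction. -/

namespace Pool.Agent.Helper56.Swiss

open Metric Set Filter Topology Complex MeasureTheory

/-- Properties of one step of the construction. -/
structure Lvl (n : ℕ) (K : Set ℂ) (ρ η₀ : ℝ) (Λ : Finset ℂ) (r c η κ h : ℝ) : Prop where
  c_pos : 0 < c
  c_le : c ≤ 1
  bd : ∀ x y, closedBall x (ρ / 2) ⊆ K → closedBall y (ρ / 2) ⊆ K → Bd K x y (2 - c)
  η_pos : 0 < η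
  η_le : η ≤ η₀ / 2
  η_le' : η ≤ c / 16
  κ_ge : 2 ≤ κ
  r_pos : 0 < r
  r_le : r ≤ ρ
  r_le_h : r ≤ h / 8
  h_le : h ≤ 1 / (n + 1)
  ball_sub : ∀ a ∈ Λ, closedBall a (2 * h) ⊆ K
  sep : ∀ a ∈ Λ, ∀ b ∈ Λ, a ≠ b → h ≤ dist a b
  net : ∀ x, closedBall x (3 * h) ⊆ K → ∃ a ∈ Λ, dist x a ≤ h
  sum_fr : ∀ z ∈ frontier K, ∑ a ∈ Λ, r / (‖z - a‖ - r) ≤ η
  sum_good : ∀ z ∈ K, (∀ a ∈ Λ, κ * r ≤ ‖z - a‖) → ∑ a ∈ Λ, r / (‖z - a‖ - r) ≤ η
  sum_two : ∀ z ∈ K, (∀ a ∈ Λ, r ≤ ‖z - a‖) → ∑ a ∈ Λ, r / ‖z - a‖ ≤ 2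
  sum_sq : ∀ x, closedBall x (ρ / 3) ⊆ K → (n : ℝ) ≤ ∑ a ∈ Λ, r / ‖x - a‖ ^ 2
  vol : volume (⋃ a ∈ Λ, ball a (κ * r)) ≤ ENNReal.ofReal ((1 / 2) ^ (n + 2))
  card : Λ.card * r ≤ (1 / 2) ^ n

open Classical in
/-- indices of the lattice points well inside `K` -/
noncomputable def latT (K : Set ℂ) (N : ℕ) : Finset (ℤ × ℤ) :=
  (Finset.Icc (-(N : ℤ)) N ×ˢ Finset.Icc (-(N : ℤ)) N).filter
    (fun p => closedBall (pt N p) (2 * (1 / N)) ⊆ K)

open Classical in
/-- the lattice points well inside `K` -/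
noncomputable def lat (K : Set ℂ) (N : ℕ) : Finset ℂ := (latT K N).image (pt N)

lemma sn_le_iff (p : ℤ × ℤ) (N : ℕ) :
    sn p ≤ N ↔ p ∈ Finset.Icc (-(N : ℤ)) N ×ˢ Finset.Icc (-(N : ℤ)) N := by
  unfold sn
  rw [Finset.mem_product, Finset.mem_Icc, Finset.mem_Icc]
  omega

lemma mem_latT {K : Set ℂ} {N : ℕ} {p : ℤ × ℤ} :
    p ∈ latT K N ↔ sn p ≤ N ∧ closedBall (pt N p) (2 * (1 / N)) ⊆ K := by
  classical
  unfold latT
  rw [sn_le_iff]
  exact Finset.mem_filter

lemma sn_le_of_pt {N : ℕ} (hN : 0 < N) {p : ℤ × ℤ} (hp : ‖pt N p‖ ≤ 1) : sn p ≤ N := by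
  have hN' : (0 : ℝ) < N := by exact_mod_cast hN
  have h1 := (Complex.abs_re_le_norm _).trans hp
  have h2 := (Complex.abs_im_le_norm _).trans hp
  rw [pt_re, abs_div, abs_of_pos hN', div_le_one hN'] at h1
  rw [pt_im, abs_div, abs_of_pos hN', div_le_one hN'] at h2
  have : (sn p : ℝ) ≤ N := by
    rw [sn_cast]
    exact max_le h1 h2
  exact_mod_cast this

lemma mem_lat {K : Set ℂ} {N : ℕ} {a : ℂ} : a ∈ lat K N ↔ ∃ p ∈ latT K N, pt N p = a := by
  unfold lat
  rw [Finset.mem_image]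

lemma sum_lat {K : Set ℂ} {N : ℕ} (hN : 0 < N) (g : ℂ → ℝ) :
    ∑ a ∈ lat K N, g a = ∑ p ∈ latT K N, g (pt N p) := by
  unfold lat
  rw [Finset.sum_image]
  intro p _ q _ h
  exact pt_injective hN h

lemma card_lat_le (K : Set ℂ) (N : ℕ) (hN : 0 < N) : ((lat K N).card : ℝ) ≤ 9 * N ^ 2 := by
  classical
  have h1 : (lat K N).card ≤ (2 * N + 1) ^ 2 := by
    calc (lat K N).card ≤ (latT K N).card := Finset.card_image_le
      _ ≤ (Finset.Icc (-(N : ℤ)) N ×ˢ Finset.Icc (-(N : ℤ)) N).card := by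
          unfold latT
          exact Finset.card_filter_le _ _
      _ = (2 * N + 1) ^ 2 := by
          rw [Finset.card_product, Int.card_Icc]
          have : ((N : ℤ) + 1 - -(N : ℤ)).toNat = 2 * N + 1 := by omega
          rw [this]
          ring
  have h2 : ((lat K N).card : ℝ) ≤ ((2 * N + 1) ^ 2 : ℕ) := by exact_mod_cast h1
  have h3 : (1 : ℝ) ≤ N := by exact_mod_cast hN
  push_cast at h2
  nlinarith

/-- Split off the nearest term. -/
lemma sum_latT_le {K : Set ℂ} {N : ℕ} (hN : 0 < N) {z : ℂ} (hz : ‖z‖ ≤ 1) {r : ℝ} (hr : 0 < r)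
    (hrN : r * (8 * N) ≤ 1) {B : ℝ} (hB0 : 0 ≤ B)
    (hB : ∀ a ∈ lat K N, r / (‖z - a‖ - r) ≤ B) :
    ∑ a ∈ lat K N, r / (‖z - a‖ - r) ≤ B + 64 * r * N ^ 2 := by
  rw [sum_lat hN]
  have h1 : ∑ p ∈ latT K N, r / (‖z - pt N p‖ - r) =
      ∑ p ∈ latT K N with p = nr N z, r / (‖z - pt N p‖ - r) +
      ∑ p ∈ latT K N with ¬ p = nr N z, r / (‖z - pt N p‖ - r) :=
    (Finset.sum_filter_add_sum_filter_not _ _ _).symm
  rw [h1]
  apply add_le_add
  · rw [Finset.filter_eq']
    split_ifs with h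
    · rw [Finset.sum_singleton]
      exact hB _ (mem_lat.mpr ⟨_, h, rfl⟩)
    · simpa using hB0
  · apply sum_far_le hN _ hz _ hr hrN
    · intro p hp
      exact (mem_latT.mp (Finset.mem_filter.mp hp).1).1
    · intro p hp
      exact (Finset.mem_filter.mp hp).2

/-- Existence of one step. -/
theorem exists_lvl (n : ℕ) {K : Set ℂ} (hK : IsCompact K) (hsub : K ⊆ closedBall 0 1)
    (hconn : IsPreconnected (interior K)) {ρ η₀ : ℝ} (hρ : 0 < ρ) (hη₀ : 0 < η₀) :
    ∃ (Λ : Finset ℂ) (r c η κ h : ℝ), Lvl n K ρ η₀ Λ r c η κ h := by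
  -- the compact set
  have hCc : IsCompact {x | closedBall x (ρ / 2) ⊆ K} := by
    apply hK.of_isClosed_subset
    · have : {x | closedBall x (ρ / 2) ⊆ K} = ⋂ v ∈ closedBall (0 : ℂ) (ρ / 2), (fun x => x + v) ⁻¹' K := by
        ext x
        simp only [mem_ofPred_eq, mem_iInter, mem_preimage]
        constructor
        · intro h v hv
          apply h
          rw [mem_closedBall, dist_eq_norm, add_sub_cancel_left]
          rwa [mem_closedBall, dist_zero_right] at hv
        · intro h z hz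
          have := h (z - x) (by
            rw [mem_closedBall, dist_zero_right]
            rwa [mem_closedBall, dist_eq_norm] at hz)
          simpa using this
      rw [this]
      apply isClosed_biInter
      intro v _
      exact hK.isClosed.preimage (by fun_prop)
    · intro x hx
      exact hx (mem_closedBall_self (by positivity))
  have hCi : {x | closedBall x (ρ / 2) ⊆ K} ⊆ interior K := by
    intro x hx
    rw [mem_interior]
    exact ⟨ball x (ρ / 2), ball_subset_closedBall.trans hx, isOpen_ball, mem_ball_self (by positivity)⟩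
  obtain ⟨c, hc0, hc1, hbd⟩ := exists_uniform hconn hCc hCi
  set η := min (η₀ / 2) (c / 16) with hη
  have hη0 : 0 < η := lt_min (by positivity) (by positivity)
  have hη1 : η ≤ 1 := (min_le_right _ _).trans (by linarith)
  set κ := 2 + 2 / η with hκ
  have hκ2 : 2 ≤ κ := by rw [hκ]; have : 0 < 2 / η := by positivity
                         linarith
  set ε := min (η / 130) ((1 / 2) ^ n / 130) with hε
  have hε0 : 0 < ε := lt_min (by positivity) (by positivity)
  have hεη : ε ≤ η / 130 := min_le_left _ _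
  have hεn : ε ≤ (1 / 2) ^ n / 130 := min_le_right _ _
  have hε1 : ε ≤ 1 / 130 := hεη.trans (by linarith)
  obtain ⟨M, hM⟩ := exists_harmonic (9 / 8 * (n / ε))
  -- choice of N
  obtain ⟨N, hNgt⟩ := exists_nat_gt (max (max (1 / ρ) (n + 1)) (max ((2 * M + 3) * 3 / ρ)
    (9 * Real.pi * κ ^ 2 * 2 ^ (n + 2))))
  have hN1 : 1 / ρ < N := lt_of_le_of_lt ((le_max_left _ _).trans (le_max_left _ _)) hNgt
  have hN2 : (n : ℝ) + 1 < N := lt_of_le_of_lt ((le_max_right _ _).trans (le_max_left _ _)) hNgt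
  have hN3 : (2 * M + 3) * 3 / ρ < N := lt_of_le_of_lt ((le_max_left _ _).trans (le_max_right _ _)) hNgt
  have hN4 : 9 * Real.pi * κ ^ 2 * 2 ^ (n + 2) < N :=
    lt_of_le_of_lt ((le_max_right _ _).trans (le_max_right _ _)) hNgt
  have hn0 : (0 : ℝ) ≤ n := Nat.cast_nonneg n
  have hN1' : (1 : ℝ) < N := by linarith
  have hN0' : (0 : ℝ) < N := by linarith
  have hN0 : 0 < N := by exact_mod_cast hN0'
  set r := ε / N ^ 2 with hr
  have hr0 : 0 < r := by positivity
  have hrN2 : r * N ^ 2 = ε := by rw [hr]; field_simp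
  have hrN8 : r * (8 * N) ≤ 1 := by
    have : r * (8 * N) = 8 * ε / N := by rw [hr]; field_simp
    rw [this, div_le_one hN0']
    linarith
  have hrh : r ≤ 1 / N / 8 := by
    rw [div_div, le_div_iff₀ (by positivity)]
    linarith
  have h64 : 64 * r * N ^ 2 = 64 * ε := by rw [mul_assoc, hrN2]
  have hnorm : ∀ z ∈ K, ‖z‖ ≤ 1 := by
    intro z hz
    have := hsub hz
    rwa [mem_closedBall, dist_zero_right] at this
  have hcard := card_lat_le K N hN0
  refine ⟨lat K N, r, c, η, κ, 1 / N, ?_⟩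
  refine
    { c_pos := hc0, c_le := hc1, bd := fun x y hx hy => hbd x hx y hy, η_pos := hη0,
      η_le := min_le_left _ _, η_le' := min_le_right _ _, κ_ge := hκ2, r_pos := hr0, r_le := ?_,
      r_le_h := hrh, h_le := ?_, ball_sub := ?_, sep := ?_, net := ?_, sum_fr := ?_, sum_good := ?_,
      sum_two := ?_, sum_sq := ?_, vol := ?_, card := ?_ }
  · -- r ≤ ρ
    have h1 : r ≤ 1 / N := by
      have : (1 : ℝ) / N / 8 ≤ 1 / N := by
        have : (0 : ℝ) < 1 / N := by positivity
        linarith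
      linarith
    have h2 : (1 : ℝ) / N ≤ ρ := by
      rw [div_le_iff₀ hN0']
      rw [div_lt_iff₀ hρ] at hN1
      linarith
    linarith
  · -- h ≤ 1/(n+1)
    exact one_div_le_one_div_of_le (by positivity) hN2.le
  · intro a ha
    obtain ⟨p, hp, rfl⟩ := mem_lat.mp ha
    exact (mem_latT.mp hp).2
  · intro a ha b hb hab
    obtain ⟨p, hp, rfl⟩ := mem_lat.mp ha
    obtain ⟨q, hq, rfl⟩ := mem_lat.mp hb
    have hpq : p ≠ q := fun h => hab (by rw [h])
    have h1 : (1 : ℝ) ≤ sn (p - q) := by exact_mod_cast sn_pos (sub_ne_zero.mpr hpq)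
    rw [dist_eq_norm]
    have hre := Complex.abs_re_le_norm (pt N p - pt N q)
    have him := Complex.abs_im_le_norm (pt N p - pt N q)
    rw [Complex.sub_re, pt_re, pt_re, ← sub_div, abs_div, abs_of_pos hN0', div_le_iff₀ hN0'] at hre
    rw [Complex.sub_im, pt_im, pt_im, ← sub_div, abs_div, abs_of_pos hN0', div_le_iff₀ hN0'] at him
    rw [sn_cast] at h1
    have h2 : max |(((p - q).1 : ℤ) : ℝ)| |(((p - q).2 : ℤ) : ℝ)| ≤ ‖pt N p - pt N q‖ * N := by
      apply max_le
      · rw [Prod.fst_sub]; push_cast; exact hre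
      · rw [Prod.snd_sub]; push_cast; exact him
    rw [div_le_iff₀ hN0']
    linarith
  · intro x hx
    have hxK : x ∈ K := hx (mem_closedBall_self (by positivity))
    have h1 := dist_pt_upper hN0 x (nr N x)
    have h2 : sn (nr N x - nr N x) = 0 := by simp [sn]
    rw [h2] at h1
    have h3 : dist x (pt N (nr N x)) ≤ 1 / N := by
      rw [dist_eq_norm]
      simpa using h1
    refine ⟨pt N (nr N x), mem_lat.mpr ⟨_, mem_latT.mpr ⟨sn_nr_le (hnorm x hxK), ?_⟩, rfl⟩, h3⟩
    refine (closedBall_subset_closedBall' ?_).trans hx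
    rw [dist_comm] at h3
    linarith
  · -- frontier
    intro z hz
    have hzK : z ∈ K := hK.isClosed.frontier_subset hz
    have h1 := sum_latT_le (K := K) hN0 (hnorm z hzK) hr0 hrN8 hε0.le (by
      intro a ha
      obtain ⟨p, hp, rfl⟩ := mem_lat.mp ha
      have h2 := (mem_latT.mp hp).2
      have h3 : 2 * (1 / (N : ℝ)) ≤ ‖z - pt N p‖ := by
        by_contra hcon
        rw [not_le, ← dist_eq_norm, ← mem_ball] at hcon
        apply hz.2
        rw [mem_interior]
        exact ⟨_, ball_subset_closedBall.trans h2, isOpen_ball, hcon⟩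
      have h4 : (1 : ℝ) / N ≤ ‖z - pt N p‖ - r := by
        have : (0 : ℝ) < 1 / N := by positivity
        linarith
      calc r / (‖z - pt N p‖ - r) ≤ r / (1 / N) := div_le_div_of_nonneg_left hr0.le (by positivity) h4
        _ = ε / N := by rw [hr]; field_simp
        _ ≤ ε := div_le_self hε0.le hN1'.le)
    rw [h64] at h1
    linarith
  · -- good points
    intro z hzK hz
    have h1 := sum_latT_le (K := K) hN0 (hnorm z hzK) hr0 hrN8 (B := η / 2) (by positivity) (by
      intro a ha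
      have h2 := hz a ha
      have h3 : 2 / η * r ≤ ‖z - a‖ - r := by
        rw [hκ] at h2
        linarith
      calc r / (‖z - a‖ - r) ≤ r / (2 / η * r) := div_le_div_of_nonneg_left hr0.le (by positivity) h3
        _ = η / 2 := by field_simp)
    rw [h64] at h1
    linarith
  · -- sum two
    intro z hzK hz
    rw [sum_lat hN0]
    have h1 : ∑ p ∈ latT K N, r / ‖z - pt N p‖ =
        ∑ p ∈ latT K N with p = nr N z, r / ‖z - pt N p‖ +
        ∑ p ∈ latT K N with ¬ p = nr N z, r / ‖z - pt N p‖ :=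
      (Finset.sum_filter_add_sum_filter_not _ _ _).symm
    have h2 : ∑ p ∈ latT K N with p = nr N z, r / ‖z - pt N p‖ ≤ 1 := by
      rw [Finset.filter_eq']
      split_ifs with h
      · rw [Finset.sum_singleton]
        have h3 := hz _ (mem_lat.mpr ⟨_, h, rfl⟩)
        rw [div_le_one (by linarith)]
        exact h3
      · simp
    have h3 : ∑ p ∈ latT K N with ¬ p = nr N z, r / ‖z - pt N p‖ ≤ 64 * r * N ^ 2 := by
      refine le_trans ?_ (sum_far_le (S := (latT K N).filter (fun p => ¬ p = nr N z)) hN0 ?_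
        (hnorm z hzK) ?_ hr0 hrN8)
      · apply Finset.sum_le_sum
        intro p hp
        have hpn := (Finset.mem_filter.mp hp).2
        have h4 := dist_pt_lower hN0 z hpn
        have h5 : (1 : ℝ) ≤ sn (p - nr N z) := by exact_mod_cast sn_pos (sub_ne_zero.mpr hpn)
        have h6 : (1 : ℝ) / (2 * N) ≤ sn (p - nr N z) / (2 * N) :=
          div_le_div_of_nonneg_right h5 (by positivity)
        have h7 : r < 1 / (2 * N) := by
          rw [lt_div_iff₀ (by positivity)]
          nlinarith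
        apply div_le_div_of_nonneg_left hr0.le (by linarith) (by linarith)
      · intro p hp
        exact (mem_latT.mp (Finset.mem_filter.mp hp).1).1
      · intro p hp
        exact (Finset.mem_filter.mp hp).2
    rw [h64] at h3
    rw [h1]
    linarith
  · -- sum of squares
    intro x hx
    rw [sum_lat hN0 (fun a => r / ‖x - a‖ ^ 2)]
    refine le_trans ?_ (le_sum_sq hN0 (z := x) (M := M) ?_ hr0)
    · rw [hrN2]
      calc (n : ℝ) = ε * (8 / 9 * (9 / 8 * (n / ε))) := by field_simp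
        _ ≤ _ := by
            apply mul_le_mul_of_nonneg_left _ hε0.le
            apply mul_le_mul_of_nonneg_left hM (by norm_num)
    · intro p hp
      have h1 := dist_pt_upper hN0 x p
      have h2 : ‖x - pt N p‖ ≤ (2 * M + 1) / N := by
        refine h1.trans (div_le_div_of_nonneg_right ?_ hN0'.le)
        have : (sn (p - nr N x) : ℝ) ≤ M := by exact_mod_cast hp
        linarith
      have h3 : closedBall (pt N p) (2 * (1 / N)) ⊆ closedBall x (ρ / 3) := by
        apply closedBall_subset_closedBall'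
        rw [dist_comm, dist_eq_norm]
        have h4 : (2 * M + 3 : ℝ) / N ≤ ρ / 3 := by
          rw [div_le_div_iff₀ hN0' (by norm_num)]
          rw [div_lt_iff₀ hρ] at hN3
          linarith
        calc 2 * (1 / (N : ℝ)) + ‖x - pt N p‖ ≤ 2 * (1 / (N : ℝ)) + (2 * M + 1) / N := by linarith
          _ = (2 * M + 3) / N := by ring
          _ ≤ _ := h4
      rw [mem_latT]
      refine ⟨?_, h3.trans hx⟩
      apply sn_le_of_pt hN0
      apply hnorm
      exact hx (h3 (mem_closedBall_self (by positivity)))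
  · -- volume
    have h1 : volume (⋃ a ∈ lat K N, ball a (κ * r)) ≤ ∑ a ∈ lat K N, volume (ball a (κ * r)) :=
      measure_biUnion_finset_le _ _
    refine h1.trans ?_
    have h2 : ∀ a ∈ lat K N, volume (ball a (κ * r)) = ENNReal.ofReal (Real.pi * (κ * r) ^ 2) := by
      intro a _
      rw [Complex.volume_ball, ← ENNReal.ofReal_pow (by positivity), mul_comm]
      rw [← ENNReal.ofReal_coe_nnreal, ← ENNReal.ofReal_mul (by positivity)]
      rfl
    rw [Finset.sum_congr rfl h2, Finset.sum_const, nsmul_eq_mul, ← ENNReal.ofReal_natCast,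
      ← ENNReal.ofReal_mul (by positivity)]
    apply ENNReal.ofReal_le_ofReal
    have hε1' : ε ≤ 1 := by linarith
    calc ((lat K N).card : ℝ) * (Real.pi * (κ * r) ^ 2) ≤ 9 * N ^ 2 * (Real.pi * (κ * r) ^ 2) := by
          apply mul_le_mul_of_nonneg_right hcard (by positivity)
      _ = 9 * Real.pi * κ ^ 2 * ε ^ 2 / N ^ 2 := by rw [hr]; field_simp
      _ ≤ 9 * Real.pi * κ ^ 2 * 1 / N := by
          apply div_le_div₀ (by positivity) _ (by positivity)
          · nlinarith
          · apply mul_le_mul_of_nonneg_left _ (by positivity)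
            nlinarith
      _ ≤ (1 / 2) ^ (n + 2) := by
          rw [div_le_iff₀ hN0', one_div, inv_pow, inv_mul_eq_div, le_div_iff₀ (by positivity)]
          linarith
  · calc ((lat K N).card : ℝ) * r ≤ 9 * N ^ 2 * r := mul_le_mul_of_nonneg_right hcard hr0.le
      _ = 9 * ε := by rw [hr]; field_simp
      _ ≤ (1 / 2) ^ n := by
          have : (0 : ℝ) < (1 / 2) ^ n := by positivity
          linarith

end Pool.Agent.Helper56.Swiss
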