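import Mathlib
import Pool.Agent.Helper56.Swiss.Level

/-! The tower of compact sets. -/

namespace Pool.Agent.Helper56.Swiss

open Metric Set Filter Topology Complex MeasureTheory

/-- the tower -/
structure Tower where
  K : ℕ → Set ℂ
  Λ : ℕ → Finset ℂ
  r : ℕ → ℝ
  c : ℕ → ℝ
  η : ℕ → ℝ
  κ : ℕ → ℝ
  h : ℕ → ℝ
  ρ : ℕ → ℝ
  η₀ : ℕ → ℝ
  K0 : K 0 = closedBall 0 1
  Ks : ∀ n, K (n + 1) = Rem (K n) (Λ n) (r n)
  ρ0 : ρ 0 = 1
  ρs : ∀ n, ρ (n + 1) = r n
  ηs : ∀ n, η₀ (n + 1) = η n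
  lvl : ∀ n, Lvl n (K n) (ρ n) (η₀ n) (Λ n) (r n) (c n) (η n) (κ n) (h n)
  cpt : ∀ n, IsCompact (K n)

/-- states for the recursion -/
structure St where
  K : Set ℂ
  ρ : ℝ
  η : ℝ
  hK : IsCompact K
  hsub : K ⊆ closedBall 0 1
  hconn : IsPreconnected (interior K)
  hρ : 0 < ρ
  hη : 0 < η

lemma Lvl.rem_cpt {n : ℕ} {K : Set ℂ} {ρ η₀ : ℝ} {Λ : Finset ℂ} {r c η κ h : ℝ}
    (_ : Lvl n K ρ η₀ Λ r c η κ h) (hK : IsCompact K) : IsCompact (Rem K Λ r) := by
  apply IsCompact.diff hK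
  exact isOpen_biUnion (fun a _ => isOpen_ball)

lemma Lvl.ball_sub_int {n : ℕ} {K : Set ℂ} {ρ η₀ : ℝ} {Λ : Finset ℂ} {r c η κ h : ℝ}
    (L : Lvl n K ρ η₀ Λ r c η κ h) {a : ℂ} (ha : a ∈ Λ) : closedBall a h ⊆ interior K := by
  have h1 := L.ball_sub a ha
  have h2 := L.r_le_h
  have h3 := L.r_pos
  have h4 : closedBall a h ⊆ ball a (2 * h) := closedBall_subset_ball (by linarith)
  refine h4.trans ?_
  apply interior_maximal _ isOpen_ball
  exact ball_subset_closedBall.trans h1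

lemma Lvl.rem_conn {n : ℕ} {K : Set ℂ} {ρ η₀ : ℝ} {Λ : Finset ℂ} {r c η κ h : ℝ}
    (L : Lvl n K ρ η₀ Λ r c η κ h) (hc : IsPreconnected (interior K)) :
    IsPreconnected (interior (Rem K Λ r)) := by
  rw [interior_Rem L.r_pos]
  have h2 := L.r_le_h
  have h3 := L.r_pos
  apply remove_many isOpen_interior hc L.r_pos (R := h / 2) (by linarith)
  · intro a ha
    exact (closedBall_subset_closedBall (by linarith)).trans (L.ball_sub_int ha)
  · intro a ha b hb hab
    have h1 := L.sep a ha b hb hab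
    apply closedBall_disjoint_closedBall
    linarith

/-- one step -/
lemma exists_step (n : ℕ) (s : St) : ∃ q : Finset ℂ × ℝ × ℝ × ℝ × ℝ × ℝ,
    Lvl n s.K s.ρ s.η q.1 q.2.1 q.2.2.1 q.2.2.2.1 q.2.2.2.2.1 q.2.2.2.2.2 := by
  obtain ⟨Λ, r, c, η, κ, h, H⟩ := exists_lvl n s.hK s.hsub s.hconn s.hρ s.hη
  exact ⟨(Λ, r, c, η, κ, h), H⟩

/-- the data of one step -/
noncomputable def stepData (n : ℕ) (s : St) : Finset ℂ × ℝ × ℝ × ℝ × ℝ × ℝ := (exists_step n s).choose

lemma stepData_spec (n : ℕ) (s : St) : Lvl n s.K s.ρ s.η (stepData n s).1 (stepData n s).2.1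
    (stepData n s).2.2.1 (stepData n s).2.2.2.1 (stepData n s).2.2.2.2.1 (stepData n s).2.2.2.2.2 :=
  (exists_step n s).choose_spec

/-- the next state -/
noncomputable def nextSt (n : ℕ) (s : St) : St where
  K := Rem s.K (stepData n s).1 (stepData n s).2.1
  ρ := (stepData n s).2.1
  η := (stepData n s).2.2.2.1
  hK := (stepData_spec n s).rem_cpt s.hK
  hsub := sdiff_subset.trans s.hsub
  hconn := (stepData_spec n s).rem_conn s.hconn
  hρ := (stepData_spec n s).r_pos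
  hη := (stepData_spec n s).η_pos

/-- the initial state -/
noncomputable def initSt : St where
  K := closedBall 0 1
  ρ := 1
  η := 1
  hK := isCompact_closedBall 0 1
  hsub := subset_rfl
  hconn := by
    rw [interior_closedBall _ one_ne_zero]
    exact (convex_ball (0 : ℂ) 1).isPreconnected
  hρ := one_pos
  hη := one_pos

/-- the sequence of states -/
noncomputable def seqSt : ℕ → St
  | 0 => initSt
  | n + 1 => nextSt n (seqSt n)

/-- the tower -/
noncomputable def theTower : Tower where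
  K n := (seqSt n).K
  Λ n := (stepData n (seqSt n)).1
  r n := (stepData n (seqSt n)).2.1
  c n := (stepData n (seqSt n)).2.2.1
  η n := (stepData n (seqSt n)).2.2.2.1
  κ n := (stepData n (seqSt n)).2.2.2.2.1
  h n := (stepData n (seqSt n)).2.2.2.2.2
  ρ n := (seqSt n).ρ
  η₀ n := (seqSt n).η
  K0 := rfl
  Ks _ := rfl
  ρ0 := rfl
  ρs _ := rfl
  ηs _ := rfl
  lvl n := stepData_spec n (seqSt n)
  cpt n := (seqSt n).hK

namespace Tower

variable (T : Tower)

/-- the limit set -/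
def X : Set ℂ := ⋂ n, T.K n

lemma K_succ_subset (n : ℕ) : T.K (n + 1) ⊆ T.K n := by
  rw [T.Ks n]
  exact sdiff_subset

lemma K_anti : Antitone T.K := antitone_nat_of_succ_le T.K_succ_subset

lemma ρ_anti : Antitone T.ρ := by
  apply antitone_nat_of_succ_le
  intro n
  rw [T.ρs n]
  exact (T.lvl n).r_le

lemma X_subset (n : ℕ) : T.X ⊆ T.K n := iInter_subset _ n

lemma K_subset (n : ℕ) : T.K n ⊆ closedBall 0 1 := by
  rw [← T.K0]
  exact T.K_anti (Nat.zero_le n)

lemma isClosed_X : IsClosed T.X := isClosed_iInter (fun n => (T.cpt n).isClosed)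

lemma isCompact_X : IsCompact T.X := (T.cpt 0).of_isClosed_subset T.isClosed_X (T.X_subset 0)

lemma mem_K_iff (n : ℕ) (z : ℂ) :
    z ∈ T.K n ↔ z ∈ closedBall (0 : ℂ) 1 ∧ ∀ m < n, ∀ a ∈ T.Λ m, T.r m ≤ ‖z - a‖ := by
  induction n with
  | zero => rw [T.K0]; simp
  | succ n ih =>
    rw [T.Ks n, mem_Rem, ih]
    constructor
    · rintro ⟨⟨h1, h2⟩, h3⟩
      refine ⟨h1, fun m hm a ha => ?_⟩
      rcases Nat.lt_succ_iff_lt_or_eq.mp hm with h | rfl
      · exact h2 m h a ha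
      · exact h3 a ha
    · rintro ⟨h1, h2⟩
      exact ⟨⟨h1, fun m hm a ha => h2 m (by omega) a ha⟩, fun a ha => h2 n (by omega) a ha⟩

lemma mem_X_iff (z : ℂ) :
    z ∈ T.X ↔ z ∈ closedBall (0 : ℂ) 1 ∧ ∀ m, ∀ a ∈ T.Λ m, T.r m ≤ ‖z - a‖ := by
  unfold X
  rw [mem_iInter]
  constructor
  · intro h
    refine ⟨((T.mem_K_iff 0 z).mp (h 0)).1, fun m a ha => ?_⟩
    exact ((T.mem_K_iff (m + 1) z).mp (h (m + 1))).2 m (by omega) a ha
  · rintro ⟨h1, h2⟩ n
    rw [T.mem_K_iff]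
    exact ⟨h1, fun m _ a ha => h2 m a ha⟩

lemma h_pos (n : ℕ) : 0 < T.h n := by
  have h1 := (T.lvl n).r_pos
  have h2 := (T.lvl n).r_le_h
  linarith

lemma r_le (n : ℕ) : T.r n ≤ 1 / (n + 1) := by
  have h1 := (T.lvl n).r_pos
  have h2 := (T.lvl n).r_le_h
  have h3 := (T.lvl n).h_le
  linarith

lemma closedBall_sub_int {n : ℕ} {a : ℂ} (ha : a ∈ T.Λ n) : closedBall a (T.r n) ⊆ interior (T.K n) := by
  have h2 := (T.lvl n).r_le_h
  have h3 := T.h_pos n
  exact (closedBall_subset_closedBall (by linarith)).trans ((T.lvl n).ball_sub_int ha)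

lemma closedBall_sub_unit {n : ℕ} {a : ℂ} (ha : a ∈ T.Λ n) : closedBall a (T.r n) ⊆ ball 0 1 := by
  rw [← interior_closedBall (0 : ℂ) one_ne_zero]
  exact (T.closedBall_sub_int ha).trans (interior_mono (T.K_subset n))

lemma disjoint_of_lt {m n : ℕ} (hmn : m < n) {a b : ℂ} (ha : a ∈ T.Λ m) (hb : b ∈ T.Λ n) :
    Disjoint (closedBall a (T.r m)) (closedBall b (T.r n)) := by
  rw [Set.disjoint_left]
  intro z hza hzb
  have h1 : z ∈ interior (T.K (m + 1)) :=
    interior_mono (T.K_anti (show m + 1 ≤ n by omega)) (T.closedBall_sub_int hb hzb)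
  rw [T.Ks m, interior_Rem (T.lvl m).r_pos] at h1
  apply h1.2
  simp only [mem_iUnion]
  exact ⟨a, ha, hza⟩

lemma disjoint_of_ne {m n : ℕ} {a b : ℂ} (ha : a ∈ T.Λ m) (hb : b ∈ T.Λ n) (hne : (m, a) ≠ (n, b)) :
    Disjoint (closedBall a (T.r m)) (closedBall b (T.r n)) := by
  rcases lt_trichotomy m n with h | rfl | h
  · exact T.disjoint_of_lt h ha hb
  · have hab : a ≠ b := fun h => hne (by rw [h])
    have h1 := (T.lvl m).sep a ha b hb hab
    have h2 := (T.lvl m).r_le_h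
    have h3 := T.h_pos m
    apply closedBall_disjoint_closedBall
    linarith
  · exact (T.disjoint_of_lt h hb ha).symm

theorem interior_X : interior T.X = ∅ := by
  rw [Set.eq_empty_iff_forall_notMem]
  intro x hx
  obtain ⟨δ, hδ, hsub⟩ := Metric.isOpen_iff.mp isOpen_interior x hx
  obtain ⟨n, hn⟩ := exists_nat_gt (3 / δ)
  have h1 : 3 * T.h n < δ := by
    have h2 := (T.lvl n).h_le
    have h3 : (1 : ℝ) / (n + 1) < δ / 3 := by
      rw [div_lt_div_iff₀ (by positivity) (by norm_num)]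
      rw [div_lt_iff₀ hδ] at hn
      nlinarith
    linarith
  have h3 := T.h_pos n
  obtain ⟨a, ha, hd⟩ := (T.lvl n).net x
    (((closedBall_subset_ball h1).trans hsub).trans (interior_subset.trans (T.X_subset n)))
  have h4 : a ∈ T.X := by
    apply interior_subset
    apply hsub
    rw [mem_ball, dist_comm]
    linarith
  have h5 := ((T.mem_X_iff a).mp h4).2 n a ha
  rw [sub_self, norm_zero] at h5
  have h6 := (T.lvl n).r_pos
  linarith

/-- points staying in the interior of all the sets -/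
lemma mem_interior_K {x : ℂ} (h1 : ‖x‖ < 1) (h2 : ∀ m, ∀ a ∈ T.Λ m, T.r m < ‖x - a‖) (n : ℕ) :
    x ∈ interior (T.K n) := by
  induction n with
  | zero =>
    rw [T.K0, interior_closedBall _ one_ne_zero, mem_ball, dist_zero_right]
    exact h1
  | succ n ih =>
    rw [T.Ks n, interior_Rem (T.lvl n).r_pos]
    refine ⟨ih, ?_⟩
    simp only [mem_iUnion, not_exists]
    intro a ha hxa
    have := h2 n a ha
    rw [mem_closedBall, dist_eq_norm] at hxa
    linarith

lemma exists_closedBall_sub {x : ℂ} (h1 : ‖x‖ < 1) (h2 : ∀ m, ∀ a ∈ T.Λ m, T.r m < ‖x - a‖) {t : ℝ}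
    (ht : 0 < t) (h3 : ∃ m, ∀ n ≥ m, ∀ a ∈ T.Λ n, (1 + t) * T.r n ≤ ‖x - a‖) :
    ∃ m, ∀ n ≥ m, closedBall x (t * T.ρ n) ⊆ T.K n := by
  obtain ⟨m, hm⟩ := h3
  obtain ⟨δ, hδ, hsub⟩ := Metric.isOpen_iff.mp isOpen_interior x (T.mem_interior_K h1 h2 m)
  obtain ⟨k, hk⟩ := exists_nat_gt (t / δ)
  refine ⟨max m (k + 1), fun n hn => ?_⟩
  have hmn : m ≤ n := (le_max_left _ _).trans hn
  have hkn : k + 1 ≤ n := (le_max_right _ _).trans hn
  have hρ : t * T.ρ n < δ := by
    have h4 : T.ρ n ≤ T.ρ (k + 1) := T.ρ_anti hkn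
    rw [T.ρs k] at h4
    have h5 := T.r_le k
    have h6 : t * (1 / ((k : ℝ) + 1)) < δ := by
      rw [mul_one_div, div_lt_iff₀ (by positivity)]
      rw [div_lt_iff₀ hδ] at hk
      nlinarith
    nlinarith
  have key : ∀ j, m ≤ j → j ≤ n → closedBall x (t * T.ρ n) ⊆ T.K j := by
    intro j hmj
    induction j, hmj using Nat.le_induction with
    | base =>
      intro _
      exact ((closedBall_subset_ball hρ).trans hsub).trans interior_subset
    | succ j hj ih =>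
      intro hjn z hz
      rw [T.Ks j, mem_Rem]
      refine ⟨ih (by omega) hz, fun a ha => ?_⟩
      have h4 := hm j hj a ha
      have h5 : T.ρ n ≤ T.ρ (j + 1) := T.ρ_anti hjn
      rw [T.ρs j] at h5
      rw [mem_closedBall, dist_eq_norm] at hz
      have h6 : ‖x - a‖ ≤ ‖z - x‖ + ‖z - a‖ := by
        have e : x - a = -(z - x) + (z - a) := by ring
        calc ‖x - a‖ = ‖-(z - x) + (z - a)‖ := by rw [← e]
          _ ≤ ‖-(z - x)‖ + ‖z - a‖ := norm_add_le _ _
          _ = ‖z - x‖ + ‖z - a‖ := by rw [norm_neg]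
      nlinarith
  exact key n hmn le_rfl

/-- rational functions on `X` extend to `K n` with control of the bound -/
lemma exists_level {f : ℂ → ℂ} (hf : RatOn T.X f) {B : ℝ} (hb : ∀ z ∈ T.X, ‖f z‖ < B) :
    ∃ n, RatOn (T.K n) f ∧ ∀ z ∈ T.K n, ‖f z‖ < B := by
  obtain ⟨P, Q, hQ, hfe⟩ := hf
  have hdir : Directed (· ⊇ ·) T.K := T.K_anti.directed_ge
  have hU : ∀ x ∈ ⋂ n, T.K n, {z | Q.eval z ≠ 0 ∧ ‖f z‖ < B} ∈ 𝓝 x := by
    intro x hx
    have hx' : x ∈ T.X := hx
    have hQx := hQ x hx'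
    have hc : ContinuousAt f x := by
      have : f = fun z => P.eval z / Q.eval z := funext hfe
      rw [this]
      exact P.continuous.continuousAt.div Q.continuous.continuousAt hQx
    have h1 : ∀ᶠ z in 𝓝 x, Q.eval z ≠ 0 := Q.continuous.continuousAt.eventually_ne hQx
    have h2 : ∀ᶠ z in 𝓝 x, ‖f z‖ < B := hc.norm.eventually_lt_const (hb x hx')
    exact h1.and h2
  obtain ⟨n, hn⟩ := exists_subset_nhds_of_isCompact' hdir T.cpt (fun n => (T.cpt n).isClosed) hU
  exact ⟨n, ⟨P, Q, fun z hz => (hn hz).1, hfe⟩, fun z hz => (hn hz).2⟩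

/-- the good points -/
def E : Set ℂ := {x ∈ T.X | ∃ m, ∀ n ≥ m, closedBall x (T.ρ n / 2) ⊆ T.K n ∧
  ∀ a ∈ T.Λ n, T.κ n * T.r n ≤ ‖x - a‖}

lemma E_subset : T.E ⊆ T.X := fun _ hx => hx.1

theorem Gl_of_mem_E {x y : ℂ} (hx : x ∈ T.E) (hy : y ∈ T.E) : Gl T.X x y := by
  obtain ⟨hxX, m1, h1⟩ := hx
  obtain ⟨hyX, m2, h2⟩ := hy
  set m := max m1 m2 with hm
  have hx' := fun n (hn : m ≤ n) => h1 n ((le_max_left _ _).trans hn)
  have hy' := fun n (hn : m ≤ n) => h2 n ((le_max_right _ _).trans hn)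
  have hc := (T.lvl m).c_pos
  have key : ∀ k, Bd (T.K (m + k)) x y (2 - T.c m / 2 - 8 * T.η (m + k)) := by
    intro k
    induction k with
    | zero =>
      have h3 := (T.lvl m).bd x y (hx' m le_rfl).1 (hy' m le_rfl).1
      apply h3.mono
      have := (T.lvl m).η_le'
      rw [add_zero]
      linarith
    | succ k ih =>
      have L := T.lvl (m + k)
      have hη := L.η_pos
      have hr := L.r_pos
      have hκ := L.κ_ge
      have gx := (hx' (m + k) (by omega)).2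
      have gy := (hy' (m + k) (by omega)).2
      have hxl : ∀ a ∈ T.Λ (m + k), T.r (m + k) < ‖x - a‖ := fun a ha => by
        have := gx a ha
        nlinarith
      have hyl : ∀ a ∈ T.Λ (m + k), T.r (m + k) < ‖y - a‖ := fun a ha => by
        have := gy a ha
        nlinarith
      have hxR : x ∈ Rem (T.K (m + k)) (T.Λ (m + k)) (T.r (m + k)) := by
        rw [← T.Ks]; exact T.X_subset _ hxX
      have hyR : y ∈ Rem (T.K (m + k)) (T.Λ (m + k)) (T.r (m + k)) := by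
        rw [← T.Ks]; exact T.X_subset _ hyX
      have h4 := Bd.remove (T.cpt (m + k)) hr (fun a ha => T.closedBall_sub_int ha) (by
          intro a ha b hb hab
          have h5 := L.sep a ha b hb hab
          have h6 := L.r_le_h
          have h7 := T.h_pos (m + k)
          linarith) hη.le L.sum_fr ih hxR hxl hyR hyl
      rw [← T.Ks] at h4
      apply h4.mono
      have s1 := L.sum_good x (T.X_subset _ hxX) gx
      have s2 := L.sum_good y (T.X_subset _ hyX) gy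
      have s3 := (T.lvl (m + k + 1)).η_le
      rw [T.ηs] at s3
      rw [← add_assoc]
      nlinarith
  refine ⟨2 - T.c m / 2, by linarith, ?_⟩
  intro f hf hfb
  -- approximate
  have hlim : ∀ δ > 0, ‖f x - f y‖ ≤ (1 + δ) * (2 - T.c m / 2) := by
    intro δ hδ
    obtain ⟨n, hn, hnb⟩ := T.exists_level hf (B := 1 + δ) (fun z hz => by
      have := hfb z hz
      linarith)
    have hsub : T.K (m + n) ⊆ T.K n := T.K_anti (by omega)
    have hδ1 : 0 < 1 + δ := by linarith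
    have h3 := key n (fun z => ((1 + δ : ℝ) : ℂ)⁻¹ * f z) ((hn.mono hsub).const_mul _) (by
      intro z hz
      show ‖((1 + δ : ℝ) : ℂ)⁻¹ * f z‖ ≤ 1
      rw [norm_mul, norm_inv, Complex.norm_real, Real.norm_of_nonneg hδ1.le,
        inv_mul_le_iff₀ hδ1, mul_one]
      exact (hnb z (hsub hz)).le)
    have h5 : ‖((1 + δ : ℝ) : ℂ)⁻¹ * f x - ((1 + δ : ℝ) : ℂ)⁻¹ * f y‖ = (1 + δ)⁻¹ * ‖f x - f y‖ := by
      rw [← mul_sub, norm_mul, norm_inv, Complex.norm_real, Real.norm_of_nonneg hδ1.le]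
    rw [h5, inv_mul_le_iff₀ hδ1] at h3
    have hη := (T.lvl (m + n)).η_pos
    nlinarith
  have h6 : Tendsto (fun δ : ℝ => (1 + δ) * (2 - T.c m / 2)) (𝓝[>] 0) (𝓝 ((1 + 0) * (2 - T.c m / 2))) := by
    apply Tendsto.mono_left _ nhdsWithin_le_nhds
    apply Continuous.tendsto
    fun_prop
  have h7 := ge_of_tendsto h6 (by
    filter_upwards [self_mem_nhdsWithin] with δ hδ
    exact hlim δ hδ)
  simpa using h7

theorem volume_diff_E : volume (T.X \ T.E) = 0 := by
  have h1 : ∀ᵐ x ∂(volume : Measure ℂ), ∀ᶠ n in atTop, x ∉ ⋃ a ∈ T.Λ n, ball a (T.κ n * T.r n) := by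
    apply ae_eventually_notMem
    have h2 : ∑' n, volume (⋃ a ∈ T.Λ n, ball a (T.κ n * T.r n)) ≤
        ∑' n : ℕ, ENNReal.ofReal ((1 / 2) ^ (n + 2)) :=
      ENNReal.tsum_le_tsum (fun n => (T.lvl n).vol)
    have h3 : ∑' n : ℕ, ENNReal.ofReal ((1 / 2) ^ (n + 2)) ≠ ⊤ := by
      rw [← ENNReal.ofReal_tsum_of_nonneg (fun n => by positivity)
        ((summable_nat_add_iff 2).mpr summable_geometric_two)]
      exact ENNReal.ofReal_ne_top
    exact ne_top_of_le_ne_top h3 h2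
  have h2 : ∀ᵐ x ∂(volume : Measure ℂ), x ∉ sphere (0 : ℂ) 1 := by
    exact measure_eq_zero_iff_ae_notMem.mp (Measure.addHaar_sphere_of_ne_zero _ _ one_ne_zero)
  have h3 : ∀ᵐ x ∂(volume : Measure ℂ), ∀ m, ∀ a ∈ T.Λ m, x ∉ sphere a (T.r m) := by
    rw [ae_all_iff]
    intro m
    rw [Finset.eventually_all]
    intro a _
    exact measure_eq_zero_iff_ae_notMem.mp (Measure.addHaar_sphere_of_ne_zero _ _ (T.lvl m).r_pos.ne')
  rw [measure_eq_zero_iff_ae_notMem]
  filter_upwards [h1, h2, h3] with x hx1 hx2 hx3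
  rintro ⟨hxX, hxE⟩
  apply hxE
  have hX := (T.mem_X_iff x).mp hxX
  have hn : ‖x‖ < 1 := by
    have h4 : ‖x‖ ≤ 1 := by have := hX.1; rwa [mem_closedBall, dist_zero_right] at this
    refine lt_of_le_of_ne h4 (fun h5 => hx2 ?_)
    rw [mem_sphere, dist_zero_right, h5]
  have ha : ∀ m, ∀ a ∈ T.Λ m, T.r m < ‖x - a‖ := by
    intro m a ha
    refine lt_of_le_of_ne (hX.2 m a ha) (fun h5 => hx3 m a ha ?_)
    rw [mem_sphere, dist_eq_norm, h5]
  rw [eventually_atTop] at hx1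
  obtain ⟨m, hm⟩ := hx1
  have hm' : ∀ n ≥ m, ∀ a ∈ T.Λ n, T.κ n * T.r n ≤ ‖x - a‖ := by
    intro n hn a ha
    have := hm n hn
    simp only [mem_iUnion, not_exists] at this
    have h6 := this a ha
    rwa [mem_ball, dist_eq_norm, not_lt] at h6
  obtain ⟨m', h7⟩ := T.exists_closedBall_sub hn ha (t := 1 / 2) (by norm_num) ⟨m, fun n hn a ha => by
    have h8 := hm' n hn a ha
    have h9 := (T.lvl n).κ_ge
    have h10 := (T.lvl n).r_pos
    nlinarith⟩
  refine ⟨hxX, max m m', fun n hn => ⟨?_, hm' n ((le_max_left _ _).trans hn)⟩⟩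
  have := h7 n ((le_max_right _ _).trans hn)
  rwa [one_div, inv_mul_eq_div] at this

theorem volume_X_pos : 0 < volume T.X := by
  rw [pos_iff_ne_zero]
  intro h0
  have h1 : closedBall (0 : ℂ) 1 ⊆ T.X ∪ ⋃ n, ⋃ a ∈ T.Λ n, ball a (T.κ n * T.r n) := by
    intro z hz
    by_cases hzX : z ∈ T.X
    · exact Or.inl hzX
    · right
      rw [T.mem_X_iff] at hzX
      push Not at hzX
      obtain ⟨m, a, ha, hza⟩ := hzX hz
      simp only [mem_iUnion]
      refine ⟨m, a, ha, ?_⟩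
      rw [mem_ball, dist_eq_norm]
      have h9 := (T.lvl m).κ_ge
      have h10 := (T.lvl m).r_pos
      nlinarith
  have h2 : volume (closedBall (0 : ℂ) 1) ≤ ENNReal.ofReal (1 / 2) := by
    calc volume (closedBall (0 : ℂ) 1) ≤ volume T.X + volume (⋃ n, ⋃ a ∈ T.Λ n, ball a (T.κ n * T.r n)) :=
          (measure_mono h1).trans (measure_union_le _ _)
      _ = volume (⋃ n, ⋃ a ∈ T.Λ n, ball a (T.κ n * T.r n)) := by rw [h0, zero_add]
      _ ≤ ∑' n, volume (⋃ a ∈ T.Λ n, ball a (T.κ n * T.r n)) := measure_iUnion_le _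
      _ ≤ ∑' n : ℕ, ENNReal.ofReal ((1 / 2) ^ (n + 2)) := ENNReal.tsum_le_tsum (fun n => (T.lvl n).vol)
      _ = ENNReal.ofReal (1 / 2) := by
          rw [← ENNReal.ofReal_tsum_of_nonneg (fun n => by positivity)
            ((summable_nat_add_iff 2).mpr summable_geometric_two)]
          congr 1
          have : ∀ n : ℕ, ((1 : ℝ) / 2) ^ (n + 2) = 1 / 4 * (1 / 2) ^ n := by intro n; ring
          simp_rw [this]
          rw [tsum_mul_left, tsum_geometric_two]
          norm_num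
  rw [Complex.volume_closedBall] at h2
  have h3 : (1 : ENNReal) ≤ ENNReal.ofReal 1 ^ 2 * NNReal.pi := by
    rw [ENNReal.ofReal_one, one_pow, one_mul]
    have : (1 : NNReal) ≤ NNReal.pi := by
      rw [← NNReal.coe_le_coe]
      simp only [NNReal.coe_one, NNReal.coe_real_pi]
      linarith [Real.pi_gt_three]
    exact_mod_cast this
  have h4 := h3.trans h2
  rw [← ENNReal.ofReal_one, ENNReal.ofReal_le_ofReal_iff (by norm_num)] at h4
  norm_num at h4

end Tower

end Pool.Agent.Helper56.Swiss
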