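import Mathlib
import Pool.Agent.Helper56.Swiss.Deriv
import Pool.Agent.Helper56.Swiss.Tower

/-! Final assembly. -/

namespace Pool.Agent.Helper56.Swiss

open Metric Set Filter Topology Complex TopologicalSpace MeasureTheory

namespace Tower

variable (T : Tower)

/-- the limit set as a compact set -/
def XC : Compacts ℂ := ⟨T.X, T.isCompact_X⟩

lemma coe_XC : (T.XC : Set ℂ) = T.X := rfl

lemma E_nonempty : ∃ x ∈ T.E, ∃ y ∈ T.E, x ≠ y := by
  by_contra hcon
  push Not at hcon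
  have h1 : T.E.Subsingleton := fun x hx y hy => hcon x hx y hy
  have h2 : volume T.E = 0 := h1.measure_zero _
  have h3 : volume T.X ≤ volume (T.X \ T.E) + volume T.E := by
    refine (measure_mono ?_).trans (measure_union_le _ _)
    intro z hz
    by_cases h : z ∈ T.E
    · exact Or.inr h
    · exact Or.inl ⟨hz, h⟩
  rw [T.volume_diff_E, h2, add_zero] at h3
  exact absurd T.volume_X_pos (not_lt.mpr h3)

lemma infinite_levels : ∃ m, ∀ n ≥ m, (T.Λ n).Nonempty := by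
  obtain ⟨x, hx, _⟩ := T.E_nonempty
  obtain ⟨_, m, hm⟩ := hx
  refine ⟨max m 1, fun n hn => ?_⟩
  by_contra hcon
  rw [Finset.not_nonempty_iff_eq_empty] at hcon
  have h1 : m ≤ n := (le_max_left _ _).trans hn
  have h2 : 1 ≤ n := (le_max_right _ _).trans hn
  have hρ : 0 < T.ρ n := lt_of_lt_of_le (T.lvl n).r_pos (T.lvl n).r_le
  have h3 := (T.lvl n).sum_sq x ((closedBall_subset_closedBall (by linarith)).trans (hm n h1).1)
  rw [hcon, Finset.sum_empty] at h3
  have h4 : (1 : ℝ) ≤ n := by exact_mod_cast h2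
  linarith

/-- index type of all the holes -/
abbrev Idx : Type := Σ n : ℕ, ↥(T.Λ n)

instance : Infinite T.Idx := by
  obtain ⟨m, hm⟩ := T.infinite_levels
  have hex : ∀ k : ℕ, ∃ a, a ∈ T.Λ (m + k) := fun k => hm (m + k) (by omega)
  choose b hb using hex
  apply Infinite.of_injective (fun k : ℕ => (⟨m + k, ⟨b k, hb k⟩⟩ : T.Idx))
  intro k l hkl
  have := congrArg Sigma.fst hkl
  simp only at this
  omega

lemma summable_idx : Summable (fun i : T.Idx => T.r i.1) := by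
  rw [summable_sigma_of_nonneg (fun i => (T.lvl i.1).r_pos.le)]
  refine ⟨fun n => Summable.of_finite, ?_⟩
  have h1 : ∀ n : ℕ, ∑' _ : ↥(T.Λ n), T.r n = (T.Λ n).card * T.r n := by
    intro n
    rw [tsum_fintype, Finset.sum_const, nsmul_eq_mul, Finset.card_univ, Fintype.card_coe]
  apply Summable.of_nonneg_of_le (f := fun n : ℕ => ((1 : ℝ) / 2) ^ n)
  · intro n
    show 0 ≤ ∑' _ : ↥(T.Λ n), T.r n
    rw [h1]
    have := (T.lvl n).r_pos
    positivity
  · intro n
    show ∑' _ : ↥(T.Λ n), T.r n ≤ _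
    rw [h1]
    exact (T.lvl n).card
  · exact summable_geometric_two

theorem classical_cheese : IsClassicalSwissCheese T.X := by
  obtain ⟨e⟩ := nonempty_equiv_of_countable (α := ℕ) (β := T.Idx)
  refine ⟨0, 1, fun k => ((e k).2 : ℂ), fun k => T.r (e k).1, one_pos, fun k => (T.lvl _).r_pos, ?_, ?_,
    T.interior_X, ?_, ?_⟩
  · exact (e.summable_iff (f := fun i : T.Idx => T.r i.1)).mpr T.summable_idx
  · ext z
    rw [T.mem_X_iff]
    constructor
    · rintro ⟨h1, h2⟩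
      refine ⟨h1, ?_⟩
      simp only [mem_iUnion, not_exists]
      intro k hk
      have := h2 (e k).1 (e k).2 (e k).2.2
      rw [mem_ball, dist_eq_norm] at hk
      linarith
    · rintro ⟨h1, h2⟩
      refine ⟨h1, fun m a ha => ?_⟩
      by_contra hcon
      apply h2
      rw [mem_iUnion]
      refine ⟨e.symm ⟨m, ⟨a, ha⟩⟩, ?_⟩
      have he : e (e.symm ⟨m, ⟨a, ha⟩⟩) = ⟨m, ⟨a, ha⟩⟩ := Equiv.apply_symm_apply _ _
      show z ∈ ball ((e (e.symm ⟨m, ⟨a, ha⟩⟩)).2 : ℂ) (T.r (e (e.symm ⟨m, ⟨a, ha⟩⟩)).1)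
      rw [he, mem_ball, dist_eq_norm]
      exact not_le.mp hcon
  · intro k
    exact T.closedBall_sub_unit (e k).2.2
  · intro k l hkl
    apply T.disjoint_of_ne (e k).2.2 (e l).2.2
    intro h
    apply hkl
    apply e.injective
    rw [Prod.mk.injEq] at h
    exact Sigma.ext h.1 (Subtype.heq_iff_coe_eq (by intro z; rw [h.1]) |>.mpr h.2)

/-- Dichotomy for the points of `X`. -/
theorem dichotomy (x : T.XC) (hx : ¬ IsPeakPoint T.XC x) :
    ∀ n : ℕ, ∃ (Λ : Finset ℂ) (r : ℝ), 0 < r ∧ (∀ a ∈ Λ, a ∉ (T.XC : Set ℂ)) ∧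
      (∀ z ∈ T.XC, ∑ a ∈ Λ, r / ‖z - a‖ ≤ 2) ∧ (n : ℝ) ≤ ∑ a ∈ Λ, r / ‖(x : ℂ) - a‖ ^ 2 := by
  have hxX : (x : ℂ) ∈ T.X := x.2
  have hX := (T.mem_X_iff x).mp hxX
  have hn : ‖(x : ℂ)‖ < 1 := by
    have h4 : ‖(x : ℂ)‖ ≤ 1 := by have := hX.1; rwa [mem_closedBall, dist_zero_right] at this
    refine lt_of_le_of_ne h4 (fun h5 => hx ?_)
    apply peak_outer _ h5
    exact (T.X_subset 0).trans (T.K_subset 0)
  have ha : ∀ m, ∀ a ∈ T.Λ m, T.r m < ‖(x : ℂ) - a‖ := by
    intro m a ha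
    refine lt_of_le_of_ne (hX.2 m a ha) (fun h5 => hx ?_)
    apply peak_inner (T.lvl m).r_pos _ h5.symm
    intro z hz
    exact ((T.mem_X_iff z).mp hz).2 m a ha
  have hev : ∃ m, ∀ n ≥ m, ∀ a ∈ T.Λ n, (1 + 1 / 3) * T.r n ≤ ‖(x : ℂ) - a‖ := by
    by_contra hcon
    push Not at hcon
    apply hx
    apply peak_near
    intro δ hδ
    obtain ⟨m, hm⟩ := exists_nat_gt (1 / δ)
    obtain ⟨n, hn, a, ha', hlt⟩ := hcon m
    refine ⟨a, T.r n, (T.lvl n).r_pos, ?_, ?_, ?_⟩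
    · refine lt_of_le_of_lt (T.r_le n) ?_
      rw [div_lt_iff₀ (by positivity)]
      rw [div_lt_iff₀ hδ] at hm
      have : (m : ℝ) ≤ n := by exact_mod_cast hn
      nlinarith
    · intro z hz
      exact ((T.mem_X_iff z).mp hz).2 n a ha'
    · linarith
  obtain ⟨m, hm⟩ := T.exists_closedBall_sub hn ha (t := 1 / 3) (by norm_num) hev
  intro k
  set n := max m k with hndef
  have h1 := hm n (le_max_left _ _)
  refine ⟨T.Λ n, T.r n, (T.lvl n).r_pos, ?_, ?_, ?_⟩
  · intro a ha' haX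
    have := ((T.mem_X_iff a).mp haX).2 n a ha'
    rw [sub_self, norm_zero] at this
    have := (T.lvl n).r_pos
    linarith
  · intro z hz
    have hz' := (T.mem_X_iff z).mp hz
    exact (T.lvl n).sum_two z (T.X_subset n hz) (fun a ha' => hz'.2 n a ha')
  · rw [one_div, inv_mul_eq_div] at h1
    have h2 := (T.lvl n).sum_sq x h1
    have h3 : (k : ℝ) ≤ n := by exact_mod_cast le_max_right _ _
    exact h3.trans h2

theorem no_derivation (x : T.XC) (D : RAlg T.XC →L[ℂ] ℂ) (hD : IsPointDerivation T.XC x D) : D = 0 := by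
  by_cases hx : IsPeakPoint T.XC x
  · exact deriv_peak hx hD
  · exact deriv_zero_of_sums hD (T.dichotomy x hx)

theorem part_eq (x : T.XC) (hx : (x : ℂ) ∈ T.E) : {y : T.XC | ¬ IsPeakPoint T.XC y} = gleasonPart T.XC x := by
  ext y
  constructor
  · intro hy
    rw [mem_ofPred_eq] at hy
    have h1 := part_not_null' hy
    -- the part of y meets E
    have h2 : ∃ z ∈ T.E, Gl T.X y z := by
      by_contra hcon
      push Not at hcon
      apply h1
      apply measure_mono_null _ T.volume_diff_E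
      rintro z ⟨hzX, hz⟩
      exact ⟨hzX, fun hzE => hcon z hzE hz⟩
    obtain ⟨z, hzE, hyz⟩ := h2
    apply mem_part_of_Gl
    have h3 : Gl T.X x z := T.Gl_of_mem_E hx hzE
    exact Gl.trans x.2 (T.E_subset hzE) y.2 h3 hyz.symm
  · intro hy
    rw [mem_ofPred_eq]
    intro hpeak
    have h1 := Gl_of_mem_part hy
    -- find a point of E different from y
    obtain ⟨u, hu, v, hv, huv⟩ := T.E_nonempty
    have h2 : ∃ z ∈ T.E, z ≠ (y : ℂ) := by
      by_cases h : u = (y : ℂ)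
      · exact ⟨v, hv, fun h' => huv (h.trans h'.symm)⟩
      · exact ⟨u, hu, h⟩
    obtain ⟨z, hz, hzy⟩ := h2
    have h3 : Gl T.X x z := T.Gl_of_mem_E hx hz
    have h4 : Gl T.X y z := Gl.trans y.2 x.2 (T.E_subset hz) h1.symm h3
    exact not_Gl_of_peak (x := y) (y := (⟨z, T.E_subset hz⟩ : T.XC)) hpeak
      (fun h => hzy (congrArg Subtype.val h)) h4

theorem part_full (x : T.XC) (hx : (x : ℂ) ∈ T.E) :
    volume ((T.XC : Set ℂ) \ Subtype.val '' gleasonPart T.XC x) = 0 := by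
  apply measure_mono_null _ T.volume_diff_E
  rintro z ⟨hzX, hz⟩
  refine ⟨hzX, fun hzE => hz ?_⟩
  exact ⟨⟨z, hzX⟩, mem_part_of_Gl (T.Gl_of_mem_E hx hzE), rfl⟩

end Tower

end Pool.Agent.Helper56.Swiss
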