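import Mathlib

/-! Definitions used in the statement of the Swiss cheese theorem. -/

namespace Pool.Agent.Helper56.Swiss.Stmt

open Metric Set TopologicalSpace

/-- `f` is given on `X` by a quotient `P / Q` of two polynomials, `Q` without zeros on `X`. -/
def IsRational (X : Compacts ℂ) (f : C(X, ℂ)) : Prop :=
  ∃ P Q : Polynomial ℂ, (∀ z ∈ X, Q.eval z ≠ 0) ∧ ∀ z : X, f z = P.eval (z : ℂ) / Q.eval (z : ℂ)

/-- `R(X)`: the closure in `C(X)`, for the supremum norm, of the rational functions without poles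
on `X`. -/
def R (X : Compacts ℂ) : Set C(X, ℂ) := closure {f | IsRational X f}

/-- `x` is a peak point for `R(X)`. -/
def IsPeak (X : Compacts ℂ) (x : X) : Prop := ∃ f ∈ R X, f x = 1 ∧ ∀ y, y ≠ x → ‖f y‖ < 1

/-- The Gleason part of `x` for `R(X)`: the points `y` for which the norm of the difference of the
evaluations at `x` and at `y`, in the dual space of `R(X)`, is less than `2`. -/
def part (X : Compacts ℂ) (x : X) : Set X :=
  {y | ∃ c : ℝ, c < 2 ∧ ∀ f ∈ R X, ‖f‖ ≤ 1 → ‖f x - f y‖ ≤ c}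

/-- The restriction of `D` to `R(X)` is a bounded point derivation on `R(X)` at `x`: a bounded linear
functional with the product rule at `x`. -/
structure IsPointDerivation (X : Compacts ℂ) (x : X) (D : C(X, ℂ) → ℂ) : Prop where
  add : ∀ f ∈ R X, ∀ g ∈ R X, D (f + g) = D f + D g
  smul : ∀ (c : ℂ), ∀ f ∈ R X, D (c • f) = c * D f
  bounded : ∃ C : ℝ, ∀ f ∈ R X, ‖D f‖ ≤ C * ‖f‖
  product : ∀ f ∈ R X, ∀ g ∈ R X, D (f * g) = f x * D g + g x * D f

/-- A classical Swiss cheese: a closed disc minus a sequence of open discs with summable radii whose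
closures are pairwise disjoint and contained in the open disc, with empty interior. -/
def IsClassicalSwissCheese (X : Set ℂ) : Prop :=
  ∃ (c : ℂ) (ρ : ℝ) (a : ℕ → ℂ) (r : ℕ → ℝ), 0 < ρ ∧ (∀ n, 0 < r n) ∧ Summable r ∧
    X = closedBall c ρ \ ⋃ n, ball (a n) (r n) ∧ interior X = ∅ ∧
    (∀ n, closedBall (a n) (r n) ⊆ ball c ρ) ∧
    ∀ m n, m ≠ n → Disjoint (closedBall (a m) (r m)) (closedBall (a n) (r n))

end Pool.Agent.Helper56.Swiss.Stmt
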